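import Pool.Agent.C1B.SepLem

/-!
# Countable `l2`-sums of Asplund spaces are Asplund
-/

set_option autoImplicit false

namespace Pool.C1B

open TopologicalSpace Filter Topology

universe u v

section

variable (X : ℕ → Type u) [∀ n, NormedAddCommGroup (X n)]

theorem two_toReal_pos : 0 < (2 : ENNReal).toReal := by norm_num

theorem l2_norm_sum_single (f : ∀ n, X n) (s : Finset ℕ) :
    ‖∑ i ∈ s, lp.single (E := X) 2 i (f i)‖ ^ 2 = ∑ i ∈ s, ‖f i‖ ^ 2 := by
  have h := lp.norm_sum_single (E := X) (p := 2) two_toReal_pos f s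
  simpa using h

theorem l2_sum_le_norm (z : lp X 2) (s : Finset ℕ) : ∑ i ∈ s, ‖z i‖ ^ 2 ≤ ‖z‖ ^ 2 := by
  have h := lp.sum_rpow_le_norm_rpow (E := X) (p := 2) two_toReal_pos z s
  simpa using h

variable {X} [∀ n, NormedSpace ℝ (X n)]

/-- The embedding of a coordinate. -/
noncomputable abbrev inj (X : ℕ → Type u) [∀ n, NormedAddCommGroup (X n)]
    [∀ n, NormedSpace ℝ (X n)] (n : ℕ) : X n →L[ℝ] lp X 2 :=
  lp.singleContinuousLinearMap ℝ X 2 n

/-- The norms of the coordinates of a functional are square summable. -/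
theorem l2_dual_bound (ψ : lp X 2 →L[ℝ] ℝ) (s : Finset ℕ) :
    ∑ n ∈ s, ‖ψ.comp (inj X n)‖ ^ 2 ≤ 4 * ‖ψ‖ ^ 2 := by
  have hx : ∀ n, ∃ x : X n, ‖x‖ ≤ 1 ∧
      2⁻¹ * ‖ψ.comp (inj X n)‖ ≤ (ψ.comp (inj X n)) x := by
    intro n
    rcases eq_or_ne ‖ψ.comp (inj X n)‖ 0 with h0 | h0
    · exact ⟨0, by simp, by rw [h0]; simp⟩
    · have hpos : 0 < ‖ψ.comp (inj X n)‖ := lt_of_le_of_ne (norm_nonneg _) (Ne.symm h0)
      obtain ⟨x, hx1, hx2⟩ := (ψ.comp (inj X n)).exists_lt_apply_of_lt_opNorm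
        (show 2⁻¹ * ‖ψ.comp (inj X n)‖ < ‖ψ.comp (inj X n)‖ by linarith)
      rcases le_total 0 ((ψ.comp (inj X n)) x) with hs | hs
      · rw [Real.norm_of_nonneg hs] at hx2
        exact ⟨x, hx1.le, hx2.le⟩
      · rw [Real.norm_of_nonpos hs] at hx2
        exact ⟨-x, by rw [norm_neg]; exact hx1.le, by rw [map_neg]; exact hx2.le⟩
  choose x hx1 hx2 using hx
  set a : ℕ → ℝ := fun n => ‖ψ.comp (inj X n)‖ with ha
  set T : ℝ := ∑ n ∈ s, a n ^ 2 with hT
  have hT0 : 0 ≤ T := Finset.sum_nonneg fun n _ => by positivity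
  set z : lp X 2 := ∑ n ∈ s, lp.single (E := X) 2 n (a n • x n) with hz
  have hzn : ‖z‖ ^ 2 ≤ T := by
    rw [hz, l2_norm_sum_single X (fun n => a n • x n) s]
    apply Finset.sum_le_sum
    intro n _
    rw [norm_smul, Real.norm_of_nonneg (norm_nonneg _), mul_pow]
    exact mul_le_of_le_one_right (by positivity) (pow_le_one₀ (norm_nonneg _) (hx1 n))
  have hψz : 2⁻¹ * T ≤ ψ z := by
    rw [hz, map_sum, hT, Finset.mul_sum]
    apply Finset.sum_le_sum
    intro n _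
    have h1 : ψ (lp.single (E := X) 2 n (a n • x n)) = a n * (ψ.comp (inj X n)) (x n) := by
      have : lp.single (E := X) 2 n (a n • x n) = a n • inj X n (x n) := by
        rw [lp.single_smul]; rfl
      rw [this, map_smul]; rfl
    rw [h1]
    have h2 := mul_le_mul_of_nonneg_left (hx2 n) (norm_nonneg (ψ.comp (inj X n)))
    calc 2⁻¹ * a n ^ 2 = a n * (2⁻¹ * a n) := by ring
      _ ≤ a n * (ψ.comp (inj X n)) (x n) := h2
  have h3 : ψ z ≤ ‖ψ‖ * ‖z‖ := (le_abs_self _).trans (ψ.le_opNorm z)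
  have h4 : (2⁻¹ * T) ^ 2 ≤ (‖ψ‖ * ‖z‖) ^ 2 :=
    pow_le_pow_left₀ (by positivity) (hψz.trans h3) 2
  rw [mul_pow ‖ψ‖] at h4
  have h5 : ‖ψ‖ ^ 2 * ‖z‖ ^ 2 ≤ ‖ψ‖ ^ 2 * T := mul_le_mul_of_nonneg_left hzn (by positivity)
  rcases hT0.eq_or_lt with h0 | h0
  · change T ≤ _
    rw [← h0]; positivity
  · change T ≤ _
    have h6 : T * T ≤ (4 * ‖ψ‖ ^ 2) * T := by nlinarith
    exact le_of_mul_le_mul_right h6 h0

/-- Shrinking: a functional on an `l2`-sum is the norm limit of its coordinate truncations. -/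
theorem l2_shrinking (ψ : lp X 2 →L[ℝ] ℝ) (ε : ℝ) (hε : 0 < ε) :
    ∃ s : Finset ℕ, ∀ z : lp X 2,
      |ψ z - ∑ n ∈ s, (ψ.comp (inj X n)) (z n)| ≤ ε * ‖z‖ := by
  have hsum : Summable fun n => ‖ψ.comp (inj X n)‖ ^ 2 :=
    summable_of_sum_le (fun n => by positivity) (l2_dual_bound ψ)
  obtain ⟨s, hs⟩ := summable_iff_vanishing_norm.1 hsum (ε ^ 2) (by positivity)
  refine ⟨s, fun z => ?_⟩
  have hfin : ∀ u : Finset ℕ, s ⊆ u →
      |∑ n ∈ u, (ψ.comp (inj X n)) (z n) - ∑ n ∈ s, (ψ.comp (inj X n)) (z n)| ≤ ε * ‖z‖ := by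
    intro u hu
    rw [← Finset.sum_sdiff hu, add_sub_cancel_right]
    have h1 : |∑ n ∈ u \ s, (ψ.comp (inj X n)) (z n)| ≤
        ∑ n ∈ u \ s, ‖ψ.comp (inj X n)‖ * ‖z n‖ := by
      refine (Finset.abs_sum_le_sum_abs _ _).trans ?_
      apply Finset.sum_le_sum
      intro n _
      exact (ψ.comp (inj X n)).le_opNorm (z n)
    refine h1.trans ((Real.sum_mul_le_sqrt_mul_sqrt _ _ _).trans ?_)
    have h2 : √(∑ n ∈ u \ s, ‖ψ.comp (inj X n)‖ ^ 2) ≤ ε := by
      rw [Real.sqrt_le_left hε.le]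
      exact (le_abs_self _).trans (hs (u \ s) Finset.sdiff_disjoint).le
    have h3 : √(∑ n ∈ u \ s, ‖z n‖ ^ 2) ≤ ‖z‖ := by
      rw [Real.sqrt_le_left (norm_nonneg _)]
      exact l2_sum_le_norm X z _
    exact mul_le_mul h2 h3 (Real.sqrt_nonneg _) hε.le
  have hlim : Tendsto (fun u : Finset ℕ =>
      |∑ n ∈ u, (ψ.comp (inj X n)) (z n) - ∑ n ∈ s, (ψ.comp (inj X n)) (z n)|) atTop
      (𝓝 |ψ z - ∑ n ∈ s, (ψ.comp (inj X n)) (z n)|) := by
    have h1 : HasSum (fun n => ψ (lp.single (E := X) 2 n (z n))) (ψ z) :=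
      (lp.hasSum_single (E := X) (p := 2) (by norm_num) z).map ψ ψ.continuous
    exact (h1.sub_const _).abs
  exact le_of_tendsto hlim ((eventually_ge_atTop s).mono fun u hu => hfin u hu)

/-- **The `l2`-sum of Asplund spaces is Asplund.** -/
theorem asplund_l2 (X : ℕ → Type u) [∀ n, NormedAddCommGroup (X n)] [∀ n, NormedSpace ℝ (X n)]
    (h : ∀ n, Asplund (X n)) : Asplund (lp X 2) := by
  classical
  intro F hF
  set F' : ∀ n, Submodule ℝ (X n) := fun n =>
    F.map ((lp.evalCLM ℝ X 2 n : lp X 2 →L[ℝ] X n) : lp X 2 →ₗ[ℝ] X n) with hF'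
  have hF's : ∀ n, IsSeparable ((F' n : Submodule ℝ (X n)) : Set (X n)) := by
    intro n
    have := hF.image (lp.evalCLM ℝ X 2 n).continuous
    simpa [hF', Submodule.map_coe] using this
  have hF'd : ∀ n, SeparableSpace (F' n →L[ℝ] ℝ) := fun n => h n _ (hF's n)
  have hmem : ∀ n (z : F), (z : lp X 2) n ∈ F' n := fun n z => ⟨z, z.2, rfl⟩
  -- coordinate maps on `F`
  set P : ∀ n, F →L[ℝ] F' n := fun n =>
    ((lp.evalCLM ℝ X 2 n).comp F.subtypeL).codRestrict (F' n) (hmem n) with hP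
  set Φ : (Σ s : Finset ℕ, (s → ℕ)) → (F →L[ℝ] ℝ) := fun p =>
    ∑ n : p.1, (denseSeq (F' n →L[ℝ] ℝ) (p.2 n)).comp (P n) with hΦ
  have hdense : DenseRange Φ := by
    intro φ
    refine (Metric.mem_closure_iff (s := Set.range Φ) (a := φ)).2 fun ε hε => ?_
    obtain ⟨ψ, hψ, _⟩ := exists_extension_norm_eq F φ
    obtain ⟨s, hs⟩ := l2_shrinking ψ (ε / 4) (by linarith)
    have hk : ∀ n : s, ∃ k : ℕ, ‖(ψ.comp (inj X n)).comp (F' n).subtypeL -
        denseSeq (F' n →L[ℝ] ℝ) k‖ < ε / (4 * (s.card + 1)) := by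
      intro n
      have h1 := (denseRange_denseSeq (F' n →L[ℝ] ℝ))
        ((ψ.comp (inj X n)).comp (F' n).subtypeL)
      obtain ⟨_, ⟨k, rfl⟩, hk⟩ :=
        (Metric.mem_closure_iff (s := Set.range (denseSeq (F' n →L[ℝ] ℝ)))).1 h1
          (ε / (4 * (s.card + 1))) (by positivity)
      refine ⟨k, ?_⟩
      have e1 : dist ((ψ.comp (inj X n)).comp (F' n).subtypeL) (denseSeq (F' n →L[ℝ] ℝ) k) =
        ‖(ψ.comp (inj X n)).comp (F' n).subtypeL - denseSeq (F' n →L[ℝ] ℝ) k‖ :=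
        dist_eq_norm _ (denseSeq (F' n →L[ℝ] ℝ) k)
      rwa [e1] at hk
    choose k hk using hk
    refine ⟨Φ ⟨s, k⟩, ⟨⟨s, k⟩, rfl⟩, ?_⟩
    have e2 : dist φ (Φ ⟨s, k⟩) = ‖φ - Φ ⟨s, k⟩‖ := dist_eq_norm φ (Φ ⟨s, k⟩)
    rw [e2]
    have hbound : ‖φ - Φ ⟨s, k⟩‖ ≤ ε / 2 := by
      refine ContinuousLinearMap.opNorm_le_bound _ (by linarith) fun z => ?_
      have h1 := hs (z : lp X 2)
      rw [hψ z] at h1
      have h2 : ∑ n ∈ s, (ψ.comp (inj X n)) ((z : lp X 2) n) =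
          ∑ n : s, ((ψ.comp (inj X n)).comp (F' n).subtypeL) (P n z) := by
        rw [← Finset.sum_coe_sort s]
        rfl
      have h3 : Φ ⟨s, k⟩ z = ∑ n : s, (denseSeq (F' n →L[ℝ] ℝ) (k n)) (P n z) := by
        simp only [hΦ]
        rw [sum_apply]
        rfl
      have h4 : ∀ n : s, ‖P n z‖ ≤ ‖z‖ := by
        intro n
        exact lp.norm_apply_le_norm (by norm_num) (z : lp X 2) n
      have h5 : |∑ n : s, ((ψ.comp (inj X n)).comp (F' n).subtypeL) (P n z) -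
          ∑ n : s, (denseSeq (F' n →L[ℝ] ℝ) (k n)) (P n z)| ≤ ε / 4 * ‖z‖ := by
        rw [← Finset.sum_sub_distrib]
        refine (Finset.abs_sum_le_sum_abs _ _).trans ?_
        have h6 : ∀ n ∈ (Finset.univ : Finset s),
            |((ψ.comp (inj X n)).comp (F' n).subtypeL) (P n z) -
              (denseSeq (F' n →L[ℝ] ℝ) (k n)) (P n z)| ≤ ε / (4 * (s.card + 1)) * ‖z‖ := by
          intro n _
          have h7 := ((ψ.comp (inj X n)).comp (F' n).subtypeL -
            denseSeq (F' n →L[ℝ] ℝ) (k n)).le_opNorm (P n z)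
          rw [sub_apply, Real.norm_eq_abs] at h7
          refine h7.trans ?_
          exact mul_le_mul (hk n).le (h4 n) (norm_nonneg _) (by positivity)
        refine (Finset.sum_le_sum h6).trans ?_
        rw [Finset.sum_const, Finset.card_univ, Fintype.card_coe, nsmul_eq_mul, ← mul_assoc]
        refine mul_le_mul_of_nonneg_right ?_ (norm_nonneg _)
        have hc : (0 : ℝ) ≤ s.card := Nat.cast_nonneg _
        rw [mul_div_assoc', div_le_div_iff₀ (by positivity) (by norm_num)]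
        nlinarith
      rw [sub_apply, Real.norm_eq_abs, h3]
      have e3 : ‖(z : lp X 2)‖ = ‖z‖ := rfl
      rw [h2, e3] at h1
      have h9 : |φ z - ∑ n : s, (denseSeq (F' n →L[ℝ] ℝ) (k n)) (P n z)| ≤
          |φ z - ∑ n : s, ((ψ.comp (inj X n)).comp (F' n).subtypeL) (P n z)| +
          |∑ n : s, ((ψ.comp (inj X n)).comp (F' n).subtypeL) (P n z) -
          ∑ n : s, (denseSeq (F' n →L[ℝ] ℝ) (k n)) (P n z)| := abs_sub_le _ _ _
      linarith
    linarith
  exact ⟨⟨Set.range Φ, Set.countable_range Φ, hdense⟩⟩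

/-- Generation passes to `l2`-sums. -/
theorem gen_l2 (κ : Cardinal.{u}) (hκ : Cardinal.aleph0 ≤ κ) (X : ℕ → Type u)
    [∀ n, NormedAddCommGroup (X n)]
    [∀ n, NormedSpace ℝ (X n)] (h : ∀ n, Gen κ (X n)) : Gen κ (lp X 2) := by
  choose D hD hd using h
  refine ⟨⋃ n, inj X n '' D n, ?_, ?_⟩
  · have h1 := Cardinal.mk_iUnion_le_lift (fun n => inj X n '' D n)
    rw [Cardinal.lift_uzero] at h1
    refine h1.trans ?_
    rw [← Cardinal.mul_eq_self hκ]
    refine mul_le_mul' ?_ (ciSup_le' fun n => ?_)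
    · rw [Cardinal.mk_nat, Cardinal.lift_aleph0]
      exact hκ
    · rw [Cardinal.lift_uzero]
      exact Cardinal.mk_image_le.trans (hD n)
  · set S : Submodule ℝ (lp X 2) := Submodule.span ℝ (⋃ n, inj X n '' D n) with hS
    have h1 : ∀ n (x : X n), inj X n x ∈ S.topologicalClosure := by
      intro n x
      have h2 : Submodule.span ℝ (D n) ≤
          S.comap ((inj X n : X n →L[ℝ] lp X 2) : X n →ₗ[ℝ] lp X 2) := by
        rw [Submodule.span_le]
        intro d hd'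
        exact Submodule.subset_span (Set.mem_iUnion.2 ⟨n, d, hd', rfl⟩)
      have h3 : closure (Submodule.span ℝ (D n) : Set (X n)) ⊆
          {x | inj X n x ∈ S.topologicalClosure} :=
        closure_minimal (fun y hy => S.le_topologicalClosure (h2 hy))
          (S.isClosed_topologicalClosure.preimage (inj X n).continuous)
      exact h3 (hd n x)
    intro z
    have h4 : HasSum (fun n => lp.single (E := X) 2 n (z n)) z :=
      lp.hasSum_single (E := X) (p := 2) (by norm_num) z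
    have h5 : z ∈ S.topologicalClosure := by
      refine S.isClosed_topologicalClosure.mem_of_tendsto h4 (Eventually.of_forall fun u => ?_)
      exact Submodule.sum_mem _ fun n _ => h1 n (z n)
    exact h5

end

end Pool.C1B
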