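import Pool.Agent.C1B.L2Sum

/-!
# A `C^1` bump on `l2(X)` gives a Lipschitz `C^1` bump on `X`
-/

set_option autoImplicit false

namespace Pool.C1B

open TopologicalSpace Filter Topology Metric

universe u v

/-- The step: in a space without Lipschitz `C^1` bump a locally Lipschitz `C^1` function cannot
separate the centre from a shell. -/
theorem exists_step {X : Type u} [NormedAddCommGroup X] [NormedSpace ℝ X] (hX : ¬ LipBump X)
    (w : X → ℝ) (hw : ContDiff ℝ 1 w) (hw0 : w 0 = 0) (d : ℝ) (hd : 0 < d) (K : NNReal)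
    (hK : LipschitzOnWith K w (ball 0 (2 * d))) (h : ℝ) (hh : 0 < h) :
    ∃ x, d ≤ ‖x‖ ∧ ‖x‖ < 2 * d ∧ |w x| < h := by
  classical
  by_contra hcon
  push Not at hcon
  apply hX
  set θ : ContDiffBump (0 : ℝ) := ⟨1 / 2, 1, by norm_num, by norm_num⟩ with hθ
  have hθc : ContDiff ℝ 1 (θ : ℝ → ℝ) := θ.contDiff
  obtain ⟨C, hC⟩ := hθc.lipschitzWith_of_hasCompactSupport θ.hasCompactSupport (by norm_num)
  have hθ0 : ∀ t : ℝ, 1 ≤ |t| → θ t = 0 := by
    intro t ht
    apply θ.zero_of_le_dist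
    rw [dist_zero_right]
    exact ht
  have hθ1 : (θ : ℝ → ℝ) 0 = 1 := θ.one_of_mem_closedBall (by simp [hθ])
  set b : X → ℝ := fun x => if ‖x‖ < 2 * d then θ (w x / h) else 0 with hb
  have hbin : ∀ x, ‖x‖ < 2 * d → b x = θ (w x / h) := fun x hx => by simp only [hb, if_pos hx]
  have hbout : ∀ x, d ≤ ‖x‖ → b x = 0 := by
    intro x hx
    by_cases hx2 : ‖x‖ < 2 * d
    · rw [hbin x hx2]
      apply hθ0
      rw [abs_div, abs_of_pos hh, le_div_iff₀ hh, one_mul]
      exact hcon x hx hx2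
    · simp only [hb, if_neg hx2]
  have hb01 : ∀ x, |b x| ≤ 1 := by
    intro x
    by_cases hx2 : ‖x‖ < 2 * d
    · rw [hbin x hx2, abs_of_nonneg θ.nonneg]
      exact θ.le_one
    · simp only [hb, if_neg hx2]; norm_num
  refine ⟨b, ?_, ?_, ⟨0, ?_⟩, ?_⟩
  · rw [contDiff_iff_contDiffAt]
    intro x
    by_cases hx : ‖x‖ < 2 * d
    · have h1 : ∀ᶠ y in 𝓝 x, ‖y‖ < 2 * d := continuous_norm.continuousAt.eventually_lt_const hx
      have h2 : ContDiff ℝ 1 (fun y => θ (w y / h)) := hθc.comp (hw.div_const h)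
      refine h2.contDiffAt.congr_of_eventuallyEq ?_
      filter_upwards [h1] with y hy using hbin y hy
    · have h1 : ∀ᶠ y in 𝓝 x, d < ‖y‖ :=
        continuous_norm.continuousAt.eventually_const_lt (by linarith)
      refine (contDiffAt_const (c := (0 : ℝ))).congr_of_eventuallyEq ?_
      filter_upwards [h1] with y hy using hbout y hy.le
  · set L : ℝ := max (C * (K / h)) (1 / d) with hL
    have hL0 : 0 ≤ L := le_trans (by positivity) (le_max_right _ _)
    have hone : ∀ x y, ‖y‖ ≥ 2 * d → |b x - b y| ≤ L * ‖x - y‖ := by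
      intro x y hy
      rw [hbout y (by linarith), sub_zero]
      by_cases hx : ‖x‖ < d
      · have h1 : d ≤ ‖x - y‖ := by
          have := norm_sub_norm_le y x
          rw [norm_sub_rev] at this
          linarith
        have h2 : 1 ≤ 1 / d * ‖x - y‖ := by
          rw [div_mul_eq_mul_div, one_mul, le_div_iff₀ hd, one_mul]
          exact h1
        calc |b x| ≤ 1 := hb01 x
          _ ≤ 1 / d * ‖x - y‖ := h2
          _ ≤ L * ‖x - y‖ := mul_le_mul_of_nonneg_right (le_max_right _ _) (norm_nonneg _)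
      · rw [hbout x (not_lt.1 hx), abs_zero]
        positivity
    refine ⟨⟨L, hL0⟩, LipschitzWith.of_dist_le_mul fun x y => ?_⟩
    change dist (b x) (b y) ≤ L * dist x y
    rw [dist_eq_norm, dist_eq_norm, Real.norm_eq_abs]
    by_cases hy : ‖y‖ < 2 * d
    · by_cases hx : ‖x‖ < 2 * d
      · rw [hbin x hx, hbin y hy]
        have h1 := hC.dist_le_mul (w x / h) (w y / h)
        have h2 := hK.dist_le_mul x (by simpa using hx) y (by simpa using hy)
        rw [Real.dist_eq] at h1
        rw [Real.dist_eq, dist_eq_norm] at h2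
        have h3 : dist (w x / h) (w y / h) ≤ K / h * ‖x - y‖ := by
          rw [Real.dist_eq, ← sub_div, abs_div, abs_of_pos hh, div_mul_eq_mul_div]
          exact div_le_div_of_nonneg_right h2 hh.le
        calc |θ (w x / h) - θ (w y / h)| ≤ C * dist (w x / h) (w y / h) := h1
          _ ≤ C * (K / h * ‖x - y‖) := mul_le_mul_of_nonneg_left h3 C.2
          _ = C * (K / h) * ‖x - y‖ := by ring
          _ ≤ L * ‖x - y‖ := mul_le_mul_of_nonneg_right (le_max_left _ _) (norm_nonneg _)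
      · rw [abs_sub_comm, norm_sub_rev]
        exact hone y x (not_lt.1 hx)
    · exact hone x y (not_lt.1 hy)
  · rw [hbin 0 (by simpa using hd), hw0, zero_div, hθ1]
    norm_num
  · rw [isBounded_iff_subset_closedBall (0 : X)]
    refine ⟨2 * d, fun x hx => ?_⟩
    rw [mem_closedBall_zero_iff]
    by_contra hcon2
    push Not at hcon2
    exact Function.mem_support.1 hx (hbout x (by linarith))

/-- **A `C^1` bump on the `l2`-sum of countably many copies of `X` gives a Lipschitz `C^1` bump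
on `X`.** -/
theorem lipBump_of_bump_l2 {X : Type u} [NormedAddCommGroup X] [NormedSpace ℝ X]
    (h : Bump (lp (fun _ : ℕ => X) 2)) : LipBump X := by
  classical
  by_contra hX
  obtain ⟨f, hf, ⟨z0, hz0⟩, hb⟩ := h
  obtain ⟨R, hR⟩ := hb.subset_closedBall 0
  set f1 : lp (fun _ : ℕ => X) 2 → ℝ := fun z => f (z + z0) / f z0 with hf1
  have hf1c : ContDiff ℝ 1 f1 := (hf.comp (contDiff_id.add contDiff_const)).div_const _
  have hf10 : f1 0 = 1 := by simp only [hf1, zero_add]; exact div_self hz0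
  have hf1b : ∀ z, f1 z ≠ 0 → ‖z‖ ≤ R + ‖z0‖ := by
    intro z hz
    have h1 : f (z + z0) ≠ 0 := by
      intro h2
      exact hz (by simp only [hf1, h2, zero_div])
    have h3 := hR (Function.mem_support.2 h1)
    rw [mem_closedBall_zero_iff] at h3
    have h4 := norm_sub_norm_le z (-z0)
    rw [sub_neg_eq_add, norm_neg] at h4
    linarith
  -- the local Lipschitz scale
  set Lc : lp (fun _ : ℕ => X) 2 → ℝ → Prop := fun z d =>
    ∃ K : NNReal, LipschitzOnWith K f1 (ball z (2 * d)) with hLc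
  have hLcex : ∀ z, ∃ d, 0 < d ∧ d ≤ 1 ∧ Lc z d := by
    intro z
    obtain ⟨K, t, ht, hK⟩ := hf1c.contDiffAt.exists_lipschitzOnWith (x := z)
    obtain ⟨r, hr, hrt⟩ := Metric.mem_nhds_iff.1 ht
    refine ⟨min (r / 2) 1, by positivity, min_le_right _ _, K, hK.mono ?_⟩
    refine (ball_subset_ball ?_).trans hrt
    have := min_le_left (r / 2) 1
    linarith
  have hD : ∀ z, ∃ D, 0 < D ∧ Lc z D ∧ ∀ d, 0 < d → d ≤ 1 → Lc z d → d ≤ 2 * D := by
    intro z
    set S : Set ℝ := {d | 0 < d ∧ d ≤ 1 ∧ Lc z d} with hS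
    obtain ⟨d0, hd0⟩ := hLcex z
    have hSb : BddAbove S := ⟨1, fun d hd => hd.2.1⟩
    have hSpos : 0 < sSup S := hd0.1.trans_le (le_csSup hSb hd0)
    obtain ⟨D, hDS, hDlt⟩ := exists_lt_of_lt_csSup ⟨d0, hd0⟩ (half_lt_self hSpos)
    refine ⟨D, hDS.1, hDS.2.2, fun d h1 h2 h3 => ?_⟩
    have := le_csSup hSb (show d ∈ S from ⟨h1, h2, h3⟩)
    linarith
  choose D hD0 hDL hDmax using hD
  -- the steps
  have hstep : ∀ (k : ℕ) (z : lp (fun _ : ℕ => X) 2), ∃ x : X, D z ≤ ‖x‖ ∧
      |f1 (z + inj (fun _ => X) k x) - f1 z| < 1 / 4 * (1 / 2) ^ k := by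
    intro k z
    obtain ⟨K, hK⟩ := hDL z
    obtain ⟨x, hx1, _, hx2⟩ := exists_step hX (fun x => f1 (z + inj (fun _ => X) k x) - f1 z)
      ((hf1c.comp (contDiff_const.add (inj (fun _ => X) k).contDiff)).sub contDiff_const)
      (by simp) (D z) (hD0 z) K
      (by
        apply LipschitzOnWith.of_dist_le_mul
        intro x hx y hy
        rw [mem_ball_zero_iff] at hx hy
        have hn : ∀ x : X, ‖inj (fun _ => X) k x‖ = ‖x‖ := fun x =>
          lp.norm_single (E := fun _ : ℕ => X) (by norm_num) k x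
        have h1 := hK.dist_le_mul (z + inj (fun _ => X) k x)
          (by rw [mem_ball, dist_eq_norm, add_sub_cancel_left, hn]; exact hx)
          (z + inj (fun _ => X) k y)
          (by rw [mem_ball, dist_eq_norm, add_sub_cancel_left, hn]; exact hy)
        have h2 : dist (z + inj (fun _ => X) k x) (z + inj (fun _ => X) k y) = dist x y := by
          rw [dist_add_left, dist_eq_norm, ← map_sub, hn, dist_eq_norm]
        rw [h2] at h1
        have h3 : dist (f1 (z + inj (fun _ => X) k x) - f1 z)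
            (f1 (z + inj (fun _ => X) k y) - f1 z) =
            dist (f1 (z + inj (fun _ => X) k x)) (f1 (z + inj (fun _ => X) k y)) :=
          dist_sub_right _ _ _
        rw [h3]
        exact h1)
      (1 / 4 * (1 / 2) ^ k) (by positivity)
    exact ⟨x, hx1, hx2⟩
  choose ξ hξ1 hξ2 using hstep
  set zs : ℕ → lp (fun _ : ℕ => X) 2 := fun k => Nat.rec 0
    (fun k z => z + inj (fun _ => X) k (ξ k z)) k with hzs
  have hzs0 : zs 0 = 0 := rfl
  have hzss : ∀ k, zs (k + 1) = zs k + inj (fun _ => X) k (ξ k (zs k)) := fun k => rfl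
  set x : ℕ → X := fun k => ξ k (zs k) with hx
  have hzsum : ∀ k, zs k = ∑ j ∈ Finset.range k, lp.single (E := fun _ : ℕ => X) 2 j (x j) := by
    intro k
    induction k with
    | zero => simp [hzs0]
    | succ k ih => rw [Finset.sum_range_succ, ← ih, hzss]; rfl
  have hfz : ∀ k, |f1 (zs k) - 1| ≤ 1 / 2 * (1 - (1 / 2) ^ k) := by
    intro k
    induction k with
    | zero => simp [hzs0, hf10]
    | succ k ih =>
      have h1 := hξ2 k (zs k)
      rw [← hzss k] at h1
      have h2 := abs_sub_le (f1 (zs (k + 1))) (f1 (zs k)) 1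
      have h3 : (1 / 2 : ℝ) ^ (k + 1) = 1 / 2 * (1 / 2) ^ k := by ring
      rw [h3]
      linarith
  have hbd : ∀ k, ‖zs k‖ ≤ R + ‖z0‖ := by
    intro k
    apply hf1b
    intro h0
    have h1 := hfz k
    rw [h0, zero_sub, abs_neg, abs_one] at h1
    have : (0 : ℝ) < (1 / 2) ^ k := by positivity
    linarith
  have hsq : ∀ k, ∑ j ∈ Finset.range k, ‖x j‖ ^ 2 ≤ (R + ‖z0‖) ^ 2 := by
    intro k
    rw [← l2_norm_sum_single (fun _ : ℕ => X) x (Finset.range k), ← hzsum k]
    exact pow_le_pow_left₀ (norm_nonneg _) (hbd k) 2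
  have hsummable : Summable fun j => ‖x j‖ ^ 2 :=
    summable_of_sum_range_le (fun j => by positivity) hsq
  have hmem : Memℓp x 2 := by
    apply memℓp_gen
    simpa using hsummable
  set z : lp (fun _ : ℕ => X) 2 := ⟨x, hmem⟩ with hz
  have hlim : Tendsto zs atTop (𝓝 z) := by
    have h1 := (lp.hasSum_single (E := fun _ : ℕ => X) (p := 2) (by norm_num) z).tendsto_sum_nat
    refine h1.congr fun k => ?_
    rw [hzsum k]
  have hx0 : Tendsto (fun k => ‖x k‖) atTop (𝓝 0) := by
    have h1 := hsummable.tendsto_atTop_zero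
    have h2 : Tendsto (fun k => √(‖x k‖ ^ 2)) atTop (𝓝 (√0)) :=
      (Real.continuous_sqrt.tendsto 0).comp h1
    rw [Real.sqrt_zero] at h2
    refine h2.congr fun k => Real.sqrt_sq (norm_nonneg _)
  obtain ⟨d, hd0, hd1, K, hK⟩ := hLcex z
  have hev1 : ∀ᶠ k in atTop, dist (zs k) z < d := (tendsto_iff_dist_tendsto_zero.1 hlim).eventually_lt_const hd0
  have hev2 : ∀ᶠ k in atTop, ‖x k‖ < d / 8 := hx0.eventually_lt_const (by linarith)
  obtain ⟨k, hk1, hk2⟩ := (hev1.and hev2).exists
  have h1 : Lc (zs k) (d / 2) := by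
    refine ⟨K, hK.mono ?_⟩
    apply ball_subset_ball'
    linarith
  have h2 := hDmax (zs k) (d / 2) (by linarith) (by linarith) h1
  have h3 := hξ1 k (zs k)
  change D (zs k) ≤ ‖x k‖ at h3
  linarith

end Pool.C1B
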