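import Pool.Agent.C1B.SepLem

/-!
# Quotients of Asplund spaces are Asplund
-/

set_option autoImplicit false

namespace Pool.C1B

open TopologicalSpace Filter Topology

universe u v

/-- Images of Asplund spaces under metric surjections are Asplund. -/
theorem asplund_of_metric_surj {X : Type u} [NormedAddCommGroup X] [NormedSpace ℝ X]
    {Q : Type v} [NormedAddCommGroup Q] [NormedSpace ℝ Q]
    (hX : Asplund X) (π : X →L[ℝ] Q) (hlift : ∀ (u : Q) (r : ℝ), ‖u‖ < r → ∃ x, π x = u ∧ ‖x‖ < r) :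
    Asplund Q := by
  intro F hF
  obtain ⟨s, hsF, hsc, hcl⟩ := hF.exists_countable_dense_subset
  have hs0 : Countable s := hsc.to_subtype
  have hlift : ∀ p : s × ℕ, ∃ x : X, π x = p.1 ∧ ‖x‖ < ‖(p.1 : Q)‖ + 1 / ((p.2 : ℝ) + 1) :=
    fun p => hlift _ _ (lt_add_of_pos_right _ (by positivity))
  choose l hl1 hl2 using hlift
  set G : Submodule ℝ X := Submodule.span ℝ (Set.range l) with hG
  have hGd : SeparableSpace (G →L[ℝ] ℝ) :=
    hX.dual_span _ (Set.countable_range l).isSeparable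
  have hGF : ∀ x : G, π (x : X) ∈ F := by
    intro x
    have : G ≤ F.comap (π : X →ₗ[ℝ] Q) := by
      rw [hG, Submodule.span_le]
      rintro _ ⟨p, rfl⟩
      simp only [Submodule.comap_coe, Set.mem_preimage, SetLike.mem_coe,
        ContinuousLinearMap.coe_coe]
      rw [hl1]
      exact hsF p.1.2
    exact this x.2
  set q : G →L[ℝ] F := (π.comp G.subtypeL).codRestrict F hGF with hq
  set T : (F →L[ℝ] ℝ) → (G →L[ℝ] ℝ) := fun φ => φ.comp q with hT
  have hTsub : ∀ φ ψ, T φ - T ψ = T (φ - ψ) := by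
    intro φ ψ
    ext x
    simp [hT]
  have hTnorm : ∀ φ, ‖φ‖ ≤ ‖T φ‖ := by
    intro φ
    refine ContinuousLinearMap.opNorm_le_bound φ (norm_nonneg (T φ)) ?_
    -- first on the dense set
    have h1 : ∀ p : s, ‖φ ⟨p, hsF p.2⟩‖ ≤ ‖T φ‖ * ‖(p : Q)‖ := by
      intro p
      have h2 : ∀ n : ℕ, ‖φ ⟨p, hsF p.2⟩‖ ≤ ‖T φ‖ * (‖(p : Q)‖ + 1 / ((n : ℝ) + 1)) := by
        intro n
        have hmem : l (p, n) ∈ G := Submodule.subset_span ⟨(p, n), rfl⟩
        have h3 : T φ ⟨l (p, n), hmem⟩ = φ ⟨p, hsF p.2⟩ := by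
          simp only [hT, ContinuousLinearMap.comp_apply]
          congr 1
          apply Subtype.ext
          exact hl1 (p, n)
        rw [← h3]
        refine ((T φ).le_opNorm _).trans ?_
        exact mul_le_mul_of_nonneg_left (hl2 (p, n)).le (norm_nonneg (T φ))
      have h4 : Tendsto (fun n : ℕ => ‖T φ‖ * (‖(p : Q)‖ + 1 / ((n : ℝ) + 1))) atTop
          (𝓝 (‖T φ‖ * (‖(p : Q)‖ + 0))) :=
        (tendsto_const_nhds.add tendsto_one_div_add_atTop_nhds_zero_nat).const_mul _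
      rw [add_zero] at h4
      exact ge_of_tendsto' h4 h2
    intro v
    set D : Set F := {w | ‖φ w‖ ≤ ‖T φ‖ * ‖w‖} with hD
    have hDc : IsClosed D := isClosed_le (by fun_prop) (by fun_prop)
    have hdense : v ∈ closure (Set.range (fun p : s => (⟨p, hsF p.2⟩ : F))) := by
      rw [Metric.mem_closure_iff]
      intro ε hε
      have := hcl v.2
      rw [Metric.mem_closure_iff] at this
      obtain ⟨b, hb, hbd⟩ := this ε hε
      exact ⟨⟨b, hsF hb⟩, ⟨⟨b, hb⟩, rfl⟩, hbd⟩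
    have : closure (Set.range (fun p : s => (⟨p, hsF p.2⟩ : F))) ⊆ D := by
      apply closure_minimal _ hDc
      rintro _ ⟨p, rfl⟩
      exact h1 p
    exact this hdense
  have hsepT : IsSeparable (Set.range (id : (F →L[ℝ] ℝ) → (F →L[ℝ] ℝ))) := by
    apply isSeparable_range_of_dist_le T id 1
    · intro φ ψ
      have e1 : dist (id φ) (id ψ) = ‖φ - ψ‖ := dist_eq_norm φ ψ
      have e2 : dist (T φ) (T ψ) = ‖T φ - T ψ‖ := dist_eq_norm (T φ) (T ψ)
      rw [e1, e2, one_mul, hTsub]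
      exact hTnorm _
    · exact IsSeparable.of_separableSpace _
  rw [Set.range_id] at hsepT
  exact isSeparable_univ_iff.1 hsepT

theorem norm_mk_eq_infDist {X : Type u} [NormedAddCommGroup X] [NormedSpace ℝ X]
    (Y : Submodule ℝ X) (x : X) : ‖(Y.mkQ x : X ⧸ Y)‖ = Metric.infDist x Y := by
  exact QuotientAddGroup.norm_mk (S := Y.toAddSubgroup) x

theorem exists_lift_norm_lt {X : Type u} [NormedAddCommGroup X] [NormedSpace ℝ X]
    (Y : Submodule ℝ X) (u : X ⧸ Y) (r : ℝ) (hr : ‖u‖ < r) : ∃ x : X, Y.mkQ x = u ∧ ‖x‖ < r := by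
  obtain ⟨m, hm, hmr⟩ := (QuotientAddGroup.norm_lt_iff (S := Y.toAddSubgroup) (x := u) (r := r)).1 hr
  exact ⟨m, hm, hmr⟩

theorem norm_mk_le {X : Type u} [NormedAddCommGroup X] [NormedSpace ℝ X]
    (Y : Submodule ℝ X) (x : X) : ‖(Y.mkQ x : X ⧸ Y)‖ ≤ 1 * ‖x‖ := by
  rw [one_mul, norm_mk_eq_infDist]
  have := Metric.infDist_le_dist_of_mem (x := x) (s := (Y : Set X)) Y.zero_mem
  simpa using this

theorem asplund_quotient {X : Type u} [NormedAddCommGroup X] [NormedSpace ℝ X] (hX : Asplund X)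
    (Y : Submodule ℝ X) [hY : IsClosed (Y : Set X)] : Asplund (X ⧸ Y) :=
  asplund_of_metric_surj hX (LinearMap.mkContinuous Y.mkQ 1 (norm_mk_le Y))
    (fun u r hr => exists_lift_norm_lt Y u r hr)

/-- Generation passes to quotients. -/
theorem gen_of_surj {κ : Cardinal.{u}} {X : Type u} [NormedAddCommGroup X] [NormedSpace ℝ X]
    {Q : Type u} [NormedAddCommGroup Q] [NormedSpace ℝ Q]
    (hX : Gen κ X) (π : X →L[ℝ] Q) (hs : Function.Surjective π) : Gen κ Q := by
  obtain ⟨D, hD, hd⟩ := hX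
  refine ⟨π '' D, Cardinal.mk_image_le.trans hD, ?_⟩
  have h2 : Dense ((π : X → Q) '' (Submodule.span ℝ D : Set X)) :=
    hs.denseRange.dense_image π.continuous hd
  have h3 : ((π : X → Q) '' (Submodule.span ℝ D : Set X)) =
      ((Submodule.span ℝ ((π : X → Q) '' D) : Submodule ℝ Q) : Set Q) := by
    have := Submodule.map_span (π : X →ₗ[ℝ] Q) D
    have h4 := congrArg (fun S : Submodule ℝ Q => (S : Set Q)) this
    simpa using h4
  rw [← h3]
  exact h2

theorem gen_quotient {κ : Cardinal.{u}} {X : Type u} [NormedAddCommGroup X] [NormedSpace ℝ X]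
    (hX : Gen κ X) (Y : Submodule ℝ X) [hY : IsClosed (Y : Set X)] : Gen κ (X ⧸ Y) :=
  gen_of_surj hX (LinearMap.mkContinuous Y.mkQ 1 (norm_mk_le Y)) (Submodule.mkQ_surjective Y)

end Pool.C1B
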