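import Pool.Agent.C1B.Square
import Pool.Agent.C1B.Quot
import Pool.Agent.C1B.L2Sum
import Pool.Agent.C1B.Lip

/-!
# Separation constants: from sums and from squares
-/

set_option autoImplicit false

namespace Pool.C1B

open TopologicalSpace Filter Topology Metric

universe u v

theorem LSep.mono {E : Type u} [NormedAddCommGroup E] [NormedSpace ℝ E] {r s L M : ℝ}
    (h : LSep E r L) (hs : s ≤ r) (hLM : L ≤ M) : LSep E s M := by
  obtain ⟨g, h1, h0, h2, h3, h4⟩ := h
  exact ⟨g, h1, h0.mono hLM, h2, fun x hx => h3 x (hx.trans hs), h4⟩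

theorem norm_bil_le {E : Type u} [NormedAddCommGroup E] [NormedSpace ℝ E] (x y : E) :
    ‖bil x y‖ ≤ ‖x‖ * ‖y‖ := by
  rw [← toC.norm_map, toC_bil]
  exact (norm_mul_le (evalC x) (evalC y)).trans
    (mul_le_mul (norm_evalC_le x) (norm_evalC_le y) (norm_nonneg _) (norm_nonneg _))

theorem norm_Phi_sub_le {E : Type u} [NormedAddCommGroup E] [NormedSpace ℝ E] (x y : E) :
    ‖Phi x - Phi y‖ ≤ (‖x‖ + ‖y‖) * ‖x - y‖ := by
  have e : Phi x - Phi y = bil x (x - y) + bil (x - y) y := by
    have h1 : bil (x - y) y = bil x y - bil y y := by rw [map_sub]; rfl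
    rw [h1, map_sub]
    change bil x x - bil y y = _
    abel
  rw [e]
  refine (norm_add_le _ _).trans ?_
  have h1 := norm_bil_le x (x - y)
  have h2 := norm_bil_le (x - y) y
  calc ‖bil x (x - y)‖ + ‖bil (x - y) y‖ ≤ ‖x‖ * ‖x - y‖ + ‖x - y‖ * ‖y‖ := add_le_add h1 h2
    _ = (‖x‖ + ‖y‖) * ‖x - y‖ := by ring

/-- The separation constant of `E` is at least the square root of that of its square, with
twice the Lipschitz constant. -/
theorem lsep_of_square {E : Type u} [NormedAddCommGroup E] [NormedSpace ℝ E] {r L : ℝ}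
    (hL : 0 ≤ L) (h : LSep (SqSpace E) (r ^ 2) L) : LSep E r (2 * L) := by
  obtain ⟨g, h1, h0, h2, h3, h4⟩ := h
  have hc : ContDiff ℝ 1 (fun x => g (Phi x)) := h1.comp contDiff_Phi
  have hone : ∀ x : E, 1 ≤ ‖x‖ → g (Phi x) = 1 := by
    intro x hx
    apply h4
    rw [norm_Phi]
    exact one_le_pow₀ hx
  refine ⟨fun x => g (Phi x), hc, ?_, fun x => h2 _, fun x hx => h3 _ ?_, hone⟩
  · apply lip_of_norm_fderiv_le (by positivity) hc
    intro x
    by_cases hx : ‖x‖ < 1
    · apply norm_fderiv_le_of_lip' ℝ (by positivity)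
      have hev : ∀ᶠ y in 𝓝 x, ‖y‖ < 1 := continuous_norm.continuousAt.eventually_lt_const hx
      filter_upwards [hev] with y hy
      rw [Real.norm_eq_abs]
      refine (h0 _ _).trans ?_
      have h5 := norm_Phi_sub_le y x
      have h6 : (‖y‖ + ‖x‖) * ‖y - x‖ ≤ 2 * ‖y - x‖ :=
        mul_le_mul_of_nonneg_right (by linarith) (norm_nonneg _)
      calc L * ‖Phi y - Phi x‖ ≤ L * (2 * ‖y - x‖) :=
            mul_le_mul_of_nonneg_left (h5.trans h6) hL
        _ = 2 * L * ‖y - x‖ := by ring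
    · have hmax : IsLocalMax (fun x => g (Phi x)) x := by
        refine Eventually.of_forall fun y => ?_
        change g (Phi y) ≤ g (Phi x)
        rw [hone x (not_lt.1 hx)]
        exact (h2 _).2
      rw [hmax.fderiv_eq_zero, norm_zero]
      positivity
  · rw [norm_Phi]
    exact pow_le_pow_left₀ (norm_nonneg _) hx 2

/-- A Lipschitz bump on an `l2`-sum separates uniformly in all coordinates. -/
theorem lsep_of_lipBump_l2 (X : ℕ → Type u) [∀ n, NormedAddCommGroup (X n)]
    [∀ n, NormedSpace ℝ (X n)] (h : LipBump (lp X 2)) :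
    ∃ r > 0, ∃ L ≥ 0, ∀ n, LSep (X n) r L := by
  obtain ⟨f, hf, ⟨K, hK⟩, ⟨x0, hx0⟩, hb⟩ := h
  obtain ⟨R, hR⟩ := hb.subset_closedBall 0
  have hR' : ∀ z, max R 0 < ‖z‖ → f z = 0 := by
    intro z hz
    by_contra hne
    have := hR (Function.mem_support.2 hne)
    rw [mem_closedBall_zero_iff] at this
    exact absurd ((le_max_left R 0).trans_lt hz) (not_lt.2 this)
  set M : ℝ := max R 0 + ‖x0‖ + 1 with hM
  have hM0 : 0 < M := by positivity
  -- a one dimensional cut-off around one
  set θ : ContDiffBump (1 : ℝ) := ⟨1 / 4, 1 / 2, by norm_num, by norm_num⟩ with hθ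
  have hθc : ContDiff ℝ 1 (θ : ℝ → ℝ) := θ.contDiff
  obtain ⟨C, hC⟩ := hθc.lipschitzWith_of_hasCompactSupport θ.hasCompactSupport (by norm_num)
  have hθ0 : (θ : ℝ → ℝ) 0 = 0 := by
    apply θ.zero_of_le_dist
    rw [Real.dist_eq]; norm_num [hθ]
  have hcont : ContinuousAt (fun z => f z / f x0) x0 := (hf.continuous.div_const _).continuousAt
  have hev : ∀ᶠ z in 𝓝 x0, f z / f x0 ∈ closedBall (1 : ℝ) (1 / 4) := by
    apply hcont.eventually
    change ∀ᶠ t in 𝓝 (f x0 / f x0), t ∈ closedBall (1 : ℝ) (1 / 4)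
    rw [div_self hx0]
    exact closedBall_mem_nhds _ (by norm_num)
  rw [Metric.eventually_nhds_iff] at hev
  obtain ⟨ρ, hρ, hev⟩ := hev
  refine ⟨ρ / (2 * M), by positivity, C * (K * M / |f x0|), by positivity, fun n => ?_⟩
  set ι : X n →L[ℝ] lp X 2 := inj X n with hι
  have hιn : ∀ x, ‖ι x‖ = ‖x‖ := fun x => lp.norm_single (by norm_num) n x
  set w : X n → ℝ := fun x => f (x0 + ι (M • x)) / f x0 with hw
  have hwc : ContDiff ℝ 1 w := by
    refine (hf.comp ?_).div_const _
    exact contDiff_const.add (ι.contDiff.comp (contDiff_const_smul M))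
  refine ⟨fun x => 1 - θ (w x), contDiff_const.sub (hθc.comp hwc), ?_, ?_, ?_, ?_⟩
  · apply Lip.one_sub
    intro x y
    have h1 := hC.dist_le_mul (w x) (w y)
    rw [Real.dist_eq, Real.dist_eq] at h1
    have h2 := hK.dist_le_mul (x0 + ι (M • x)) (x0 + ι (M • y))
    rw [Real.dist_eq, dist_add_left, dist_eq_norm, ← map_sub, hιn, ← smul_sub, norm_smul,
      Real.norm_of_nonneg hM0.le] at h2
    have h3 : |w x - w y| ≤ K * M / |f x0| * ‖x - y‖ := by
      have e : w x - w y = (f (x0 + ι (M • x)) - f (x0 + ι (M • y))) / f x0 := by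
        simp only [hw]; ring
      rw [e, abs_div, div_mul_eq_mul_div]
      refine div_le_div_of_nonneg_right ?_ (abs_nonneg _)
      calc _ ≤ K * (M * ‖x - y‖) := h2
        _ = K * M * ‖x - y‖ := by ring
    calc |θ (w x) - θ (w y)| ≤ C * |w x - w y| := h1
      _ ≤ C * (K * M / |f x0| * ‖x - y‖) := mul_le_mul_of_nonneg_left h3 C.2
      _ = C * (K * M / |f x0|) * ‖x - y‖ := by ring
  · intro x
    have h1 : 0 ≤ θ (w x) := θ.nonneg
    have h2 : θ (w x) ≤ 1 := θ.le_one
    constructor <;> linarith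
  · intro x hx
    have h1 : dist (x0 + ι (M • x)) x0 < ρ := by
      rw [dist_eq_norm, add_sub_cancel_left, hιn, norm_smul, Real.norm_of_nonneg hM0.le]
      calc M * ‖x‖ ≤ M * (ρ / (2 * M)) := mul_le_mul_of_nonneg_left hx hM0.le
        _ = ρ / 2 := by field_simp
        _ < ρ := by linarith
    have h2 := hev h1
    change 1 - θ (w x) = 0
    rw [θ.one_of_mem_closedBall h2]
    norm_num
  · intro x hx
    have h1 : max R 0 < ‖x0 + ι (M • x)‖ := by
      have h2 : ‖ι (M • x)‖ - ‖x0‖ ≤ ‖x0 + ι (M • x)‖ := by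
        have := norm_sub_norm_le (ι (M • x)) (-x0)
        rw [norm_neg, sub_neg_eq_add, add_comm (ι (M • x))] at this
        exact this
      rw [hιn, norm_smul, Real.norm_of_nonneg hM0.le] at h2
      have h3 : M * 1 ≤ M * ‖x‖ := mul_le_mul_of_nonneg_left hx hM0.le
      linarith
    change 1 - θ (w x) = 1
    have h4 : w x = 0 := by simp only [hw]; rw [hR' _ h1, zero_div]
    rw [h4, hθ0]
    norm_num

/-- The class of complete Asplund spaces (generated by `κ` vectors if `K = some κ`), bundled. -/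
structure Sp (K : Option Cardinal.{u}) where
  /-- the underlying space -/
  carrier : Type u
  [i1 : NormedAddCommGroup carrier]
  [i2 : NormedSpace ℝ carrier]
  [i3 : CompleteSpace carrier]
  asp : Asplund carrier
  gen : GenO K carrier

attribute [instance] Sp.i1 Sp.i2 Sp.i3

/-- The admissible bounds: none, or an infinite cardinal. -/
def Adm (K : Option Cardinal.{u}) : Prop := ∀ κ, K = some κ → Cardinal.aleph0 ≤ κ

/-- The square as a member of the class. -/
noncomputable def Sp.square {K : Option Cardinal.{u}} (hK : Adm K) (E : Sp K) : Sp K :=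
  { carrier := SqSpace E.carrier
    asp := asplund_SqSpace E.asp
    gen := fun κ hκ => gen_SqSpace (hK κ hκ) (E.gen κ hκ) }

/-- The `l2`-sum as a member of the class. -/
noncomputable def Sp.l2 {K : Option Cardinal.{u}} (hK : Adm K) (E : ℕ → Sp K) : Sp K :=
  { carrier := lp (fun n => (E n).carrier) 2
    asp := asplund_l2 _ fun n => (E n).asp
    gen := fun κ hκ => gen_l2 κ (hK κ hκ) _ fun n => (E n).gen κ hκ }

/-- A quotient as a member of the class. -/
noncomputable def Sp.quot {K : Option Cardinal.{u}} (E : Sp K) (Y : Submodule ℝ E.carrier)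
    [hY : IsClosed (Y : Set E.carrier)] : Sp K :=
  { carrier := E.carrier ⧸ Y
    asp := asplund_quotient E.asp Y
    gen := fun κ hκ => gen_quotient (E.gen κ hκ) Y }

/-- Bumps on all members give Lipschitz bumps on all members. -/
theorem lipBump_of_bump {K : Option Cardinal.{u}} (hK : Adm K)
    (h : ∀ E : Sp K, Bump E.carrier) (E : Sp K) : LipBump E.carrier :=
  lipBump_of_bump_l2 (h (Sp.l2 hK fun _ => E))

/-- Lipschitz bumps on all members give universal separation constants. -/
theorem universal_lsep {K : Option Cardinal.{u}} (hK : Adm K)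
    (h : ∀ E : Sp K, LipBump E.carrier) :
    ∃ δ > 0, ∃ L > 0, ∀ E : Sp K, LSep E.carrier δ L := by
  by_contra hcon
  push Not at hcon
  have h1 : ∀ n : ℕ, ∃ E : Sp K, ¬ LSep E.carrier (1 / ((n : ℝ) + 1)) ((n : ℝ) + 1) :=
    fun n => hcon _ (by positivity) _ (by positivity)
  choose E hE using h1
  obtain ⟨r, hr, L, hL, hs⟩ := lsep_of_lipBump_l2 (fun n => (E n).carrier) (h (Sp.l2 hK E))
  obtain ⟨n, hn⟩ := exists_nat_one_div_lt hr
  obtain ⟨m, hm⟩ := exists_nat_gt L
  refine hE (max n m) ((hs (max n m)).mono ?_ ?_)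
  · refine le_trans ?_ hn.le
    apply one_div_le_one_div_of_le (by positivity)
    have : (n : ℝ) ≤ ((max n m : ℕ) : ℝ) := Nat.cast_le.2 (le_max_left _ _)
    linarith
  · have : (m : ℝ) ≤ ((max n m : ℕ) : ℝ) := Nat.cast_le.2 (le_max_right _ _)
    linarith

/-- **Amplification.** Universal separation constants can be improved to every radius `r < 1`, with
Lipschitz constant `C / (1 - r)`. -/
theorem lsep_all {K : Option Cardinal.{u}} (hK : Adm K) {δ L : ℝ} (hδ : 0 < δ) (hL : 0 < L)
    (h : ∀ E : Sp K, LSep E.carrier δ L) :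
    ∃ C > 0, ∀ (E : Sp K) (r : ℝ), 0 ≤ r → r < 1 → LSep E.carrier r (C / (1 - r)) := by
  have key : ∀ k : ℕ, ∀ E : Sp K, ∀ r : ℝ, 0 ≤ r → r ^ (2 ^ k) ≤ δ →
      LSep E.carrier r (2 ^ k * L) := by
    intro k
    induction k with
    | zero =>
      intro E r _ hr
      rw [pow_zero, pow_one] at hr
      exact (h E).mono hr (by norm_num)
    | succ k ih =>
      intro E r h0 hr
      have h1 : LSep (E.square hK).carrier (r ^ 2) (2 ^ k * L) := by
        apply ih _ _ (by positivity)
        rw [← pow_mul, ← pow_succ']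
        exact hr
      have h2 := lsep_of_square (by positivity) h1
      refine h2.mono le_rfl (le_of_eq ?_)
      rw [pow_succ]; ring
  set δ' : ℝ := min δ 1 with hδ'
  have hδ'0 : 0 < δ' := lt_min hδ one_pos
  refine ⟨2 * L / δ', by positivity, fun E r h0 h1 => ?_⟩
  have hr1 : 0 < 1 - r := by linarith
  -- the least exponent that works
  have hex : ∃ k : ℕ, 1 / δ' ≤ 2 ^ k * (1 - r) := by
    obtain ⟨k, hk⟩ := pow_unbounded_of_one_lt (1 / δ' / (1 - r)) (one_lt_two (α := ℝ))
    refine ⟨k, ?_⟩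
    rw [div_lt_iff₀ hr1] at hk
    exact hk.le
  classical
  have hk1 := Nat.find_spec hex
  set k := Nat.find hex with hk
  have hpow : r ^ (2 ^ k) ≤ δ := by
    rcases h0.eq_or_lt with rfl | hr0
    · rw [zero_pow (by positivity)]
      exact hδ.le
    · have hb := one_add_mul_le_pow (a := 1 / r - 1) (by
        have : 1 ≤ 1 / r := by rw [le_div_iff₀ hr0]; linarith
        linarith) (2 ^ k)
      have e1 : 1 + (1 / r - 1) = 1 / r := by ring
      rw [e1] at hb
      have h2 : 1 - r ≤ 1 / r - 1 := by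
        rw [le_sub_iff_add_le, le_div_iff₀ hr0]
        nlinarith [sq_nonneg (1 - r)]
      have h3 : 1 / δ' ≤ (1 / r) ^ (2 ^ k) := by
        refine le_trans ?_ hb
        have h4 : ((2 ^ k : ℕ) : ℝ) * (1 - r) ≤ ((2 ^ k : ℕ) : ℝ) * (1 / r - 1) :=
          mul_le_mul_of_nonneg_left h2 (Nat.cast_nonneg _)
        have h5 : ((2 ^ k : ℕ) : ℝ) = (2 : ℝ) ^ k := by push_cast; rfl
        rw [h5] at h4 ⊢
        linarith
      rw [one_div_pow] at h3
      have h6 : r ^ (2 ^ k) ≤ δ' :=
        (one_div_le_one_div hδ'0 (by positivity)).1 h3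
      exact h6.trans (min_le_left _ _)
  refine (key k E r h0 hpow).mono le_rfl ?_
  -- bound of the Lipschitz constant
  have hbound : (2 : ℝ) ^ k * (1 - r) ≤ 2 / δ' := by
    rcases Nat.eq_zero_or_pos k with hk0 | hk0
    · rw [hk0, pow_zero, one_mul, le_div_iff₀ hδ'0]
      have : δ' ≤ 1 := min_le_right _ _
      nlinarith
    · have h7 := Nat.find_min hex (m := k - 1) (by omega)
      rw [not_le] at h7
      have e2 : (2 : ℝ) ^ k = 2 * 2 ^ (k - 1) := by
        rw [← pow_succ']
        congr 1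
        omega
      rw [e2]
      calc 2 * 2 ^ (k - 1) * (1 - r) = 2 * (2 ^ (k - 1) * (1 - r)) := by ring
        _ ≤ 2 * (1 / δ') := by linarith
        _ = 2 / δ' := by ring
  rw [le_div_iff₀ hr1]
  calc 2 ^ k * L * (1 - r) = L * (2 ^ k * (1 - r)) := by ring
    _ ≤ L * (2 / δ') := mul_le_mul_of_nonneg_left hbound hL.le
    _ = 2 * L / δ' := by ring

end Pool.C1B
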