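import Pool.Agent.C1B.Defs

/-!
# A sigma-uniformly-discrete family of `C^1` functions from a well ordering

If for every subspace `Y` of `X` the distance to `Y` can be separated by `C^1` functions
(`SepDist X`), then `X` has countably many uniformly discrete families of `C^1` functions with
values in `[0,1]` and small supports such that every point has, at every scale, a member equal to
one near the point.
-/

set_option autoImplicit false

namespace Pool.C1B

open TopologicalSpace Filter Topology Metric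

universe u v

/-- Distances to subspaces can be separated by `C^1` functions whose Lipschitz constant does not
depend on the subspace. -/
def SepDist (X : Type u) [NormedAddCommGroup X] [NormedSpace ℝ X] : Prop :=
  ∀ (p q : ℝ), 0 < p → p < q → ∃ L : ℝ, 0 ≤ L ∧ ∀ Y : Submodule ℝ X, ∃ G : X → ℝ,
    ContDiff ℝ 1 G ∧ Lip L G ∧
    (∀ x, 0 ≤ G x ∧ G x ≤ 1) ∧ (∀ x, infDist x (Y : Set X) ≤ p → G x = 1) ∧
    (∀ x, q ≤ infDist x (Y : Set X) → G x = 0)

section

variable {X : Type u} [NormedAddCommGroup X] [NormedSpace ℝ X]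

open Classical in
/-- The chosen Lipschitz constant. -/
noncomputable def sepL (h : SepDist X) (p q : ℝ) : ℝ :=
  if hpq : 0 < p ∧ p < q then (h p q hpq.1 hpq.2).choose else 0

open Classical in
/-- A chosen separating function. -/
noncomputable def sepG (h : SepDist X) (Y : Submodule ℝ X) (p q : ℝ) : X → ℝ :=
  if hpq : 0 < p ∧ p < q then ((h p q hpq.1 hpq.2).choose_spec.2 Y).choose else fun _ => 0

theorem sepL_nonneg (h : SepDist X) (p q : ℝ) : 0 ≤ sepL h p q := by
  by_cases hpq : 0 < p ∧ p < q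
  · rw [sepL, dif_pos hpq]
    exact (h p q hpq.1 hpq.2).choose_spec.1
  · rw [sepL, dif_neg hpq]

theorem sepG_spec' (h : SepDist X) (Y : Submodule ℝ X) {p q : ℝ} (hp : 0 < p) (hq : p < q) :
    ContDiff ℝ 1 (sepG h Y p q) ∧ Lip (sepL h p q) (sepG h Y p q) ∧
      (∀ x, 0 ≤ sepG h Y p q x ∧ sepG h Y p q x ≤ 1) ∧
      (∀ x, infDist x (Y : Set X) ≤ p → sepG h Y p q x = 1) ∧
      (∀ x, q ≤ infDist x (Y : Set X) → sepG h Y p q x = 0) := by
  have e : sepG h Y p q = ((h p q hp hq).choose_spec.2 Y).choose := by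
    rw [sepG, dif_pos ⟨hp, hq⟩]
  have e2 : sepL h p q = (h p q hp hq).choose := by
    rw [sepL, dif_pos ⟨hp, hq⟩]
  rw [e, e2]
  exact ((h p q hp hq).choose_spec.2 Y).choose_spec

theorem sepG_spec (h : SepDist X) (Y : Submodule ℝ X) {p q : ℝ} (hp : 0 < p) (hq : p < q) :
    ContDiff ℝ 1 (sepG h Y p q) ∧ (∀ x, 0 ≤ sepG h Y p q x ∧ sepG h Y p q x ≤ 1) ∧
      (∀ x, infDist x (Y : Set X) ≤ p → sepG h Y p q x = 1) ∧
      (∀ x, q ≤ infDist x (Y : Set X) → sepG h Y p q x = 0) :=
  ⟨(sepG_spec' h Y hp hq).1, (sepG_spec' h Y hp hq).2.2⟩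

theorem sepG_contDiff (h : SepDist X) (Y : Submodule ℝ X) (p q : ℝ) :
    ContDiff ℝ 1 (sepG h Y p q) := by
  by_cases hpq : 0 < p ∧ p < q
  · exact (sepG_spec h Y hpq.1 hpq.2).1
  · rw [sepG, dif_neg hpq]; exact contDiff_const

theorem sepG_lip (h : SepDist X) (Y : Submodule ℝ X) (p q : ℝ) :
    Lip (sepL h p q) (sepG h Y p q) := by
  by_cases hpq : 0 < p ∧ p < q
  · exact (sepG_spec' h Y hpq.1 hpq.2).2.1
  · rw [sepG, dif_neg hpq]
    exact (lip_const 0).mono (sepL_nonneg h p q)

theorem sepG_mem (h : SepDist X) (Y : Submodule ℝ X) (p q : ℝ) (x : X) :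
    0 ≤ sepG h Y p q x ∧ sepG h Y p q x ≤ 1 := by
  by_cases hpq : 0 < p ∧ p < q
  · exact (sepG_spec h Y hpq.1 hpq.2).2.1 x
  · rw [sepG, dif_neg hpq]; simp

/-- If the separating function is nonzero then the parameters are admissible and the distance is
small. -/
theorem sepG_ne (h : SepDist X) (Y : Submodule ℝ X) (p q : ℝ) (x : X)
    (hx : sepG h Y p q x ≠ 0) : 0 < p ∧ p < q ∧ infDist x (Y : Set X) < q := by
  by_cases hpq : 0 < p ∧ p < q
  · refine ⟨hpq.1, hpq.2, ?_⟩
    by_contra hcon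
    exact hx ((sepG_spec h Y hpq.1 hpq.2).2.2.2 x (not_lt.1 hcon))
  · rw [sepG, dif_neg hpq] at hx
    exact absurd rfl hx

end

section

variable {X : Type u} [NormedAddCommGroup X] [NormedSpace ℝ X] [LinearOrder X]

/-- The span of the vectors before `c`. -/
def Lo (c : X) : Submodule ℝ X := Submodule.span ℝ (Set.Iio c)

/-- The span of the vectors up to `c`. -/
def Up (c : X) : Submodule ℝ X := Submodule.span ℝ (Set.Iic c)

theorem Up_le_Lo {c d : X} (h : c < d) : Up c ≤ Lo d :=
  Submodule.span_mono fun _ hx => lt_of_le_of_lt hx h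

theorem Up_mono {c d : X} (h : c ≤ d) : Up c ≤ Up d :=
  Submodule.span_mono fun _ hx => le_trans hx h

theorem self_mem_Up (c : X) : c ∈ Up c := Submodule.subset_span (le_refl c)

/-- An element of `Lo c` is zero or belongs to `Up b` for some `b < c`. -/
theorem mem_Lo {c v : X} (hv : v ∈ Lo c) : v = 0 ∨ ∃ b < c, v ∈ Up b := by
  refine Submodule.span_induction (p := fun v _ => v = 0 ∨ ∃ b < c, v ∈ Up b) ?_ ?_ ?_ ?_ hv
  · intro x hx
    exact Or.inr ⟨x, hx, self_mem_Up x⟩
  · exact Or.inl rfl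
  · rintro x y _ _ (rfl | ⟨b, hb, hx⟩) (rfl | ⟨b', hb', hy⟩)
    · exact Or.inl (add_zero 0)
    · rw [zero_add]; exact Or.inr ⟨b', hb', hy⟩
    · rw [add_zero]; exact Or.inr ⟨b, hb, hx⟩
    · rcases le_total b b' with hle | hle
      · exact Or.inr ⟨b', hb', Submodule.add_mem _ (Up_mono hle hx) hy⟩
      · exact Or.inr ⟨b, hb, Submodule.add_mem _ hx (Up_mono hle hy)⟩
  · rintro a x _ (rfl | ⟨b, hb, hx⟩)
    · exact Or.inl (smul_zero a)
    · exact Or.inr ⟨b, hb, Submodule.smul_mem _ _ hx⟩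

theorem mem_Up {c u : X} (hu : u ∈ Up c) : ∃ (a : ℝ), ∃ v ∈ Lo c, u = a • c + v := by
  have h1 : (Set.Iic c : Set X) = insert c (Set.Iio c) := by
    ext x
    simp only [Set.mem_Iic, Set.mem_insert_iff, Set.mem_Iio]
    rw [le_iff_lt_or_eq, or_comm]
  rw [Up, h1, Submodule.mem_span_insert] at hu
  obtain ⟨a, v, hv, h⟩ := hu
  exact ⟨a, v, hv, h⟩

/-- The building block: one where the distance to `Up c` is at most `p` and the distance to
`Lo c` is at least `q`. -/
noncomputable def theta (h : SepDist X) (c : X) (p q : ℝ) (x : X) : ℝ :=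
  sepG h (Up c) p ((2 * p + q) / 3) x * (1 - sepG h (Lo c) ((p + 2 * q) / 3) q x)

/-- The families of functions. -/
noncomputable def fam (h : SepDist X) (s : ℝ) : List (ℚ × ℚ × ℚ) → List X → X → ℝ
  | [], [] => fun x => sepG h ⊥ s (2 * s) x
  | (m :: l), (c :: a) => fun x =>
      theta h c (m.2.1 : ℝ) (m.2.2 : ℝ) x * fam h s l a (x - (m.1 : ℝ) • c)
  | [], (_ :: _) => fun _ => 0
  | (_ :: _), [] => fun _ => 0

theorem theta_contDiff (h : SepDist X) (c : X) (p q : ℝ) : ContDiff ℝ 1 (theta h c p q) :=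
  (sepG_contDiff h _ _ _).mul (contDiff_const.sub (sepG_contDiff h _ _ _))

theorem theta_mem (h : SepDist X) (c : X) (p q : ℝ) (x : X) :
    0 ≤ theta h c p q x ∧ theta h c p q x ≤ 1 := by
  have h1 := sepG_mem h (Up c) p ((2 * p + q) / 3) x
  have h2 := sepG_mem h (Lo c) ((p + 2 * q) / 3) q x
  refine ⟨mul_nonneg h1.1 (by linarith [h2.2]), ?_⟩
  exact mul_le_one₀ h1.2 (by linarith [h2.2]) (by linarith [h2.1])

theorem fam_contDiff (h : SepDist X) (s : ℝ) (l : List (ℚ × ℚ × ℚ)) :
    ∀ a : List X, ContDiff ℝ 1 (fam h s l a) := by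
  induction l with
  | nil =>
    intro a
    cases a with
    | nil => exact sepG_contDiff h _ _ _
    | cons c a => exact contDiff_const
  | cons m l ih =>
    intro a
    cases a with
    | nil => exact contDiff_const
    | cons c a =>
      exact (theta_contDiff h c _ _).mul ((ih a).comp (contDiff_id.sub contDiff_const))

theorem fam_mem (h : SepDist X) (s : ℝ) (l : List (ℚ × ℚ × ℚ)) :
    ∀ (a : List X) (x : X), 0 ≤ fam h s l a x ∧ fam h s l a x ≤ 1 := by
  induction l with
  | nil =>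
    intro a x
    cases a with
    | nil => exact sepG_mem h _ _ _ x
    | cons c a => simp [fam]
  | cons m l ih =>
    intro a x
    cases a with
    | nil => simp [fam]
    | cons c a =>
      have h1 := theta_mem h c (m.2.1 : ℝ) (m.2.2 : ℝ) x
      have h2 := ih a (x - (m.1 : ℝ) • c)
      exact ⟨mul_nonneg h1.1 h2.1, mul_le_one₀ h1.2 h2.1 h2.2⟩

theorem theta_lip (h : SepDist X) (p q : ℝ) : ∃ L : ℝ, 0 ≤ L ∧ ∀ c : X,
    Lip L (theta h c p q) := by
  refine ⟨sepL h p ((2 * p + q) / 3) + sepL h ((p + 2 * q) / 3) q,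
    add_nonneg (sepL_nonneg _ _ _) (sepL_nonneg _ _ _), fun c => ?_⟩
  refine Lip.mul (sepG_lip h _ _ _) (sepG_lip h _ _ _).one_sub ?_ ?_
  · intro x
    have := sepG_mem h (Up c) p ((2 * p + q) / 3) x
    rw [abs_of_nonneg this.1]
    exact this.2
  · intro x
    have := sepG_mem h (Lo c) ((p + 2 * q) / 3) q x
    rw [abs_of_nonneg (by linarith [this.2])]
    linarith [this.1]

theorem fam_lip (h : SepDist X) (s : ℝ) (l : List (ℚ × ℚ × ℚ)) :
    ∃ L : ℝ, 0 ≤ L ∧ ∀ a : List X, Lip L (fam h s l a) := by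
  induction l with
  | nil =>
    refine ⟨sepL h s (2 * s), sepL_nonneg _ _ _, fun a => ?_⟩
    cases a with
    | nil => exact sepG_lip h _ _ _
    | cons c a => exact (lip_const 0).mono (sepL_nonneg _ _ _)
  | cons m l ih =>
    obtain ⟨M, hM, ih⟩ := ih
    obtain ⟨L, hL, hθ⟩ := theta_lip h (m.2.1 : ℝ) (m.2.2 : ℝ)
    refine ⟨L + M, by positivity, fun a => ?_⟩
    cases a with
    | nil => exact (lip_const 0).mono (by positivity)
    | cons c a =>
      refine Lip.mul (g := fun x => fam h s l a (x - (m.1 : ℝ) • c)) (hθ c) ?_ ?_ ?_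
      · intro x y
        have := ih a (x - (m.1 : ℝ) • c) (y - (m.1 : ℝ) • c)
        rwa [sub_sub_sub_cancel_right] at this
      · intro x
        have := theta_mem h c (m.2.1 : ℝ) (m.2.2 : ℝ) x
        rw [abs_of_nonneg this.1]
        exact this.2
      · intro x
        have := fam_mem h s l a (x - (m.1 : ℝ) • c)
        rw [abs_of_nonneg this.1]
        exact this.2

/-- Supports have diameter at most `4 s`. -/
theorem fam_small (h : SepDist X) (s : ℝ) (l : List (ℚ × ℚ × ℚ)) :
    ∀ a : List X, ∃ z : X, ∀ x, fam h s l a x ≠ 0 → ‖x - z‖ < 2 * s := by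
  induction l with
  | nil =>
    intro a
    cases a with
    | nil =>
      refine ⟨0, fun x hx => ?_⟩
      have := (sepG_ne h ⊥ s (2 * s) x hx).2.2
      rw [Submodule.bot_coe, infDist_singleton, dist_zero_right] at this
      rwa [sub_zero]
    | cons c a => exact ⟨0, fun x hx => absurd rfl hx⟩
  | cons m l ih =>
    intro a
    cases a with
    | nil => exact ⟨0, fun x hx => absurd rfl hx⟩
    | cons c a =>
      obtain ⟨z, hz⟩ := ih a
      refine ⟨z + (m.1 : ℝ) • c, fun x hx => ?_⟩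
      have h1 : fam h s l a (x - (m.1 : ℝ) • c) ≠ 0 := right_ne_zero_of_mul hx
      have h2 := hz _ h1
      have e : x - (z + (m.1 : ℝ) • c) = x - (m.1 : ℝ) • c - z := by abel
      rw [e]
      exact h2

theorem theta_ne (h : SepDist X) (c : X) (p q : ℝ) (x : X) (hx : theta h c p q x ≠ 0) :
    p < q ∧ infDist x (Up c : Set X) < (2 * p + q) / 3 ∧
      (p + 2 * q) / 3 < infDist x (Lo c : Set X) := by
  have h1 := sepG_ne h _ _ _ x (left_ne_zero_of_mul hx)
  have h2 : sepG h (Lo c) ((p + 2 * q) / 3) q x ≠ 1 := by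
    intro h3
    exact hx (by rw [theta, h3]; ring)
  have hpq : p < q := by linarith [h1.2.1]
  refine ⟨hpq, h1.2.2, ?_⟩
  by_contra hcon
  exact h2 ((sepG_spec h (Lo c) (by linarith [h1.1]) (by linarith)).2.2.1 x (not_lt.1 hcon))

/-- Points where two different building blocks are nonzero are far apart. -/
theorem theta_disc (h : SepDist X) {c d : X} (hcd : c < d) (p q : ℝ) (x y : X)
    (hx : theta h c p q x ≠ 0) (hy : theta h d p q y ≠ 0) : (q - p) / 3 ≤ ‖x - y‖ := by
  have h1 := (theta_ne h c p q x hx).2.1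
  have h2 := (theta_ne h d p q y hy).2.2
  have h3 : infDist x (Lo d : Set X) ≤ infDist x (Up c : Set X) :=
    infDist_le_infDist_of_subset (Up_le_Lo hcd) ⟨0, (Up c).zero_mem⟩
  have h4 : infDist y (Lo d : Set X) ≤ infDist x (Lo d : Set X) + dist y x :=
    infDist_le_infDist_add_dist
  rw [dist_comm, dist_eq_norm] at h4
  linarith

/-- The families are uniformly discrete. -/
theorem fam_disc (h : SepDist X) (s : ℝ) (l : List (ℚ × ℚ × ℚ)) :
    ∃ δ > 0, ∀ (a b : List X) (x y : X), a ≠ b → fam h s l a x ≠ 0 → fam h s l b y ≠ 0 →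
      δ ≤ ‖x - y‖ := by
  induction l with
  | nil =>
    refine ⟨1, one_pos, ?_⟩
    intro a b x y hab hx hy
    cases a with
    | nil =>
      cases b with
      | nil => exact absurd rfl hab
      | cons d b => exact absurd rfl hy
    | cons c a => exact absurd rfl hx
  | cons m l ih =>
    obtain ⟨δ, hδ, ih⟩ := ih
    by_cases hpq : (m.2.1 : ℝ) < (m.2.2 : ℝ)
    · refine ⟨min δ (((m.2.2 : ℝ) - (m.2.1 : ℝ)) / 3), lt_min hδ (by linarith), ?_⟩
      intro a b x y hab hx hy
      cases a with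
      | nil => exact absurd rfl hx
      | cons c a =>
        cases b with
        | nil => exact absurd rfl hy
        | cons d b =>
          have hx1 : theta h c (m.2.1 : ℝ) (m.2.2 : ℝ) x ≠ 0 := left_ne_zero_of_mul hx
          have hy1 : theta h d (m.2.1 : ℝ) (m.2.2 : ℝ) y ≠ 0 := left_ne_zero_of_mul hy
          have hx2 : fam h s l a (x - (m.1 : ℝ) • c) ≠ 0 := right_ne_zero_of_mul hx
          have hy2 : fam h s l b (y - (m.1 : ℝ) • d) ≠ 0 := right_ne_zero_of_mul hy
          rcases lt_trichotomy c d with hcd | rfl | hcd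
          · exact (min_le_right _ _).trans (theta_disc h hcd _ _ x y hx1 hy1)
          · have hab' : a ≠ b := fun e => hab (by rw [e])
            have := ih a b _ _ hab' hx2 hy2
            rw [sub_sub_sub_cancel_right] at this
            exact (min_le_left _ _).trans this
          · have := theta_disc h hcd _ _ y x hy1 hx1
            rw [norm_sub_rev] at this
            exact (min_le_right _ _).trans this
    · refine ⟨1, one_pos, ?_⟩
      intro a b x y _ hx _
      cases a with
      | nil => exact absurd rfl hx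
      | cons c a =>
        exact absurd (theta_ne h c _ _ x (left_ne_zero_of_mul hx)).1 hpq

/-- A point is good at scale `s` if some member of the families is one near it. -/
def Good (h : SepDist X) (s : ℝ) (x : X) : Prop :=
  ∃ (l : List (ℚ × ℚ × ℚ)) (a : List X), ∀ᶠ y in 𝓝 x, fam h s l a y = 1

theorem good_of_norm_lt (h : SepDist X) {s : ℝ} (hs : 0 < s) {x : X} (hx : ‖x‖ < s) :
    Good h s x := by
  refine ⟨[], [], ?_⟩
  have h1 : ∀ᶠ y in 𝓝 x, ‖y‖ < s := continuous_norm.continuousAt.eventually_lt_const hx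
  filter_upwards [h1] with y hy
  refine (sepG_spec h ⊥ hs (by linarith)).2.2.1 y ?_
  rw [Submodule.bot_coe, infDist_singleton, dist_zero_right]
  exact hy.le

/-- Well-founded induction: all points are good. -/
theorem good_of_infDist [WellFoundedLT X] (h : SepDist X) {s : ℝ} (hs : 0 < s) (c : X) :
    ∀ x : X, infDist x (Up c : Set X) < s → Good h s x := by
  induction c using WellFoundedLT.induction with
  | ind c ih =>
    -- points close to `Lo c` are good
    have hLo : ∀ x : X, infDist x (Lo c : Set X) < s → Good h s x := by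
      intro x hx
      obtain ⟨v, hv, hd⟩ := (infDist_lt_iff ⟨0, (Lo c).zero_mem⟩).1 hx
      rcases mem_Lo hv with rfl | ⟨b, hb, hvb⟩
      · rw [dist_zero_right] at hd
        exact good_of_norm_lt h hs hd
      · exact ih b hb x ((infDist_le_dist_of_mem hvb).trans_lt hd)
    intro x hx
    by_cases hcase : infDist x (Lo c : Set X) < s
    · exact hLo x hcase
    · obtain ⟨p, hp1, hp2⟩ := exists_rat_btwn hx
      obtain ⟨q, hq1, hq2⟩ := exists_rat_btwn hp2
      have hp0 : (0 : ℝ) < (p : ℝ) := infDist_nonneg.trans_lt hp1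
      -- the building block is one near `x`
      have e1 : ∀ᶠ y in 𝓝 x, infDist y (Up c : Set X) < p :=
        (continuous_infDist_pt _).continuousAt.eventually_lt_const hp1
      have e2 : ∀ᶠ y in 𝓝 x, (q : ℝ) < infDist y (Lo c : Set X) :=
        (continuous_infDist_pt _).continuousAt.eventually_const_lt (hq2.trans_le (not_lt.1 hcase))
      have e3 : ∀ᶠ y in 𝓝 x, theta h c (p : ℝ) (q : ℝ) y = 1 := by
        filter_upwards [e1, e2] with y hy1 hy2
        rw [theta, (sepG_spec h (Up c) hp0 (by linarith)).2.2.1 y hy1.le,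
          (sepG_spec h (Lo c) (by linarith) (by linarith)).2.2.2 y hy2.le]
        norm_num
      -- move along `c`
      obtain ⟨w, hw, hd⟩ := (infDist_lt_iff ⟨0, (Up c).zero_mem⟩).1 hx
      obtain ⟨τ, v, hv, rfl⟩ := mem_Up hw
      have e4 : ∃ t : ℚ, dist x ((t : ℝ) • c + v) < s := by
        have hcont : Continuous fun t : ℝ => dist x (t • c + v) := by fun_prop
        have hop : IsOpen {t : ℝ | dist x (t • c + v) < s} := isOpen_lt hcont continuous_const
        exact Rat.denseRange_cast.exists_mem_open hop ⟨τ, hd⟩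
      obtain ⟨t, ht⟩ := e4
      have e5 : infDist (x - (t : ℝ) • c) (Lo c : Set X) < s := by
        refine (infDist_le_dist_of_mem hv).trans_lt ?_
        have e6 : dist (x - (t : ℝ) • c) v = dist x ((t : ℝ) • c + v) := by
          rw [dist_eq_norm, dist_eq_norm]
          congr 1
          abel
        rw [e6]
        exact ht
      obtain ⟨l, a, hla⟩ := hLo _ e5
      refine ⟨(t, p, q) :: l, c :: a, ?_⟩
      have hcont : Continuous fun y : X => y - (t : ℝ) • c := by fun_prop
      have e7 : ∀ᶠ y in 𝓝 x, fam h s l a (y - (t : ℝ) • c) = 1 :=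
        hcont.continuousAt.eventually hla
      filter_upwards [e3, e7] with y hy1 hy2
      change theta h c (p : ℝ) (q : ℝ) y * fam h s l a (y - (t : ℝ) • c) = 1
      rw [hy1, hy2, mul_one]

theorem good_all [WellFoundedLT X] (h : SepDist X) {s : ℝ} (hs : 0 < s) (x : X) :
    Good h s x := by
  refine good_of_infDist h hs x x ?_
  rw [infDist_zero_of_mem (self_mem_Up x)]
  exact hs

end

/-- **The sigma-uniformly-discrete family.** -/
theorem exists_families {X : Type u} [NormedAddCommGroup X] [NormedSpace ℝ X] (h : SepDist X) :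
    ∃ (φ : ℕ → List X → X → ℝ) (δ : ℕ → ℝ) (Λ : ℕ → ℝ), (∀ n, 0 < δ n) ∧
      (∀ n, 0 ≤ Λ n) ∧ (∀ n a, Lip (Λ n) (φ n a)) ∧ (∀ n a, ContDiff ℝ 1 (φ n a)) ∧
      (∀ n a x, 0 ≤ φ n a x ∧ φ n a x ≤ 1) ∧
      (∀ n a b x y, a ≠ b → φ n a x ≠ 0 → φ n b y ≠ 0 → δ n ≤ ‖x - y‖) ∧
      (∀ x : X, ∀ r > 0, ∃ n a, (∀ᶠ y in 𝓝 x, φ n a y = 1) ∧ ∀ y, φ n a y ≠ 0 → ‖y - x‖ < r) := by
  let _ : LinearOrder X := IsWellOrder.linearOrder (WellOrderingRel (α := X))
  have _ : WellFoundedLT X := inferInstanceAs (IsWellFounded X WellOrderingRel)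
  obtain ⟨e, he⟩ := exists_surjective_nat (ℚ × List (ℚ × ℚ × ℚ))
  have hd := fun n => fam_disc h ((e n).1 : ℝ) (e n).2
  choose δ hδ hδ' using hd
  have hl := fun n => fam_lip h ((e n).1 : ℝ) (e n).2
  choose Λ hΛ hΛ' using hl
  refine ⟨fun n a => fam h ((e n).1 : ℝ) (e n).2 a, δ, Λ, hδ, hΛ, hΛ',
    fun n a => fam_contDiff h _ _ a,
    fun n a x => fam_mem h _ _ a x, hδ', ?_⟩
  intro x r hr
  obtain ⟨s, hs0, hs1⟩ := exists_rat_btwn (show (0 : ℝ) < r / 4 by linarith)
  obtain ⟨l, a, hla⟩ := good_all h hs0 x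
  obtain ⟨n, hn⟩ := he (s, l)
  obtain ⟨z, hz⟩ := fam_small h (s : ℝ) l a
  refine ⟨n, a, ?_, ?_⟩
  · change ∀ᶠ y in 𝓝 x, fam h ((e n).1 : ℝ) (e n).2 a y = 1
    rw [hn]
    exact hla
  · intro y hy
    change fam h ((e n).1 : ℝ) (e n).2 a y ≠ 0 at hy
    rw [hn] at hy
    have h1 := hz y hy
    have hx : fam h (s : ℝ) l a x ≠ 0 := by
      rw [hla.self_of_nhds]
      norm_num
    have h2 := hz x hx
    have h3 : ‖y - x‖ ≤ ‖y - z‖ + ‖x - z‖ := by
      have := norm_sub_le (y - z) (x - z)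
      rwa [sub_sub_sub_cancel_right] at this
    linarith

end Pool.C1B
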