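import Pool.Agent.C1B.Quot

/-!
# Lipschitz convex functions from equivalent norms on `E × ℝ`
-/

set_option autoImplicit false

namespace Pool.C1B

open TopologicalSpace Filter Topology Metric

universe u v

/-- The product with a line is Asplund. -/
theorem asplund_prod_real {E : Type u} [NormedAddCommGroup E] [NormedSpace ℝ E]
    (hE : Asplund E) : Asplund (E × ℝ) := by
  intro F hF
  set F1 : Submodule ℝ E := F.map (LinearMap.fst ℝ E ℝ) with hF1
  have hF1s : IsSeparable (F1 : Set E) := by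
    have h1 := hF.image (continuous_fst (X := E) (Y := ℝ))
    have h2 : (F1 : Set E) = Prod.fst '' (F : Set (E × ℝ)) := by
      simp [hF1, Submodule.map_coe]
    rw [h2]
    exact h1
  have hF1d : SeparableSpace (F1 →L[ℝ] ℝ) := hE F1 hF1s
  have hmem : ∀ z : F, (z : E × ℝ).1 ∈ F1 := fun z => ⟨z, z.2, rfl⟩
  set π1 : F →L[ℝ] F1 := ((ContinuousLinearMap.fst ℝ E ℝ).comp F.subtypeL).codRestrict F1 hmem
    with hπ1
  set π2 : F →L[ℝ] ℝ := (ContinuousLinearMap.snd ℝ E ℝ).comp F.subtypeL with hπ2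
  set Ψ : (F1 →L[ℝ] ℝ) × ℝ → (F →L[ℝ] ℝ) := fun p => p.1.comp π1 + p.2 • π2 with hΨ
  have hΨc : Continuous Ψ := by
    have h1 : Continuous fun φ : F1 →L[ℝ] ℝ => φ.comp π1 := by
      have : (fun φ : F1 →L[ℝ] ℝ => φ.comp π1) =
          (ContinuousLinearMap.compL ℝ F F1 ℝ).flip π1 := by
        ext φ x; rfl
      rw [this]
      exact ContinuousLinearMap.continuous _
    exact (h1.comp continuous_fst).add (continuous_snd.smul continuous_const)
  have hΨs : Function.Surjective Ψ := by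
    intro φ
    obtain ⟨ψ, hψ, _⟩ := exists_extension_norm_eq F φ
    refine ⟨((ψ.comp (ContinuousLinearMap.inl ℝ E ℝ)).comp F1.subtypeL, ψ (0, 1)), ?_⟩
    ext z
    have h1 : (z : E × ℝ) = ((z : E × ℝ).1, (0 : ℝ)) + (z : E × ℝ).2 • ((0 : E), (1 : ℝ)) := by
      ext <;> simp
    have h2 := hψ z
    rw [h1, map_add, map_smul] at h2
    rw [← h2]
    simp only [hΨ, hπ1, hπ2, add_apply, smul_apply, ContinuousLinearMap.comp_apply,
      smul_eq_mul]
    rw [mul_comm (ψ (0, 1))]
    rfl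
  exact hΨs.denseRange.separableSpace hΨc

theorem gen_prod_real {κ : Cardinal.{u}} (hκ : Cardinal.aleph0 ≤ κ) {E : Type u}
    [NormedAddCommGroup E] [NormedSpace ℝ E] (hE : Gen κ E) : Gen κ (E × ℝ) := by
  obtain ⟨D, hD, hd⟩ := hE
  refine ⟨(fun x => (x, (0 : ℝ))) '' D ∪ {((0 : E), (1 : ℝ))}, ?_, ?_⟩
  · refine (Cardinal.mk_union_le _ _).trans ?_
    rw [Cardinal.mk_singleton]
    refine (add_le_add (Cardinal.mk_image_le.trans hD) (Cardinal.one_le_aleph0.trans hκ)).trans ?_
    exact (Cardinal.add_eq_self hκ).le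
  · set S : Submodule ℝ (E × ℝ) := Submodule.span ℝ
      ((fun x => (x, (0 : ℝ))) '' D ∪ {((0 : E), (1 : ℝ))}) with hS
    have h1 : ∀ x : E, (x, (0 : ℝ)) ∈ S.topologicalClosure := by
      intro x
      have h2 : Submodule.span ℝ D ≤ S.comap (LinearMap.inl ℝ E ℝ) := by
        rw [Submodule.span_le]
        intro d hd'
        exact Submodule.subset_span (Or.inl ⟨d, hd', rfl⟩)
      have h3 : closure (Submodule.span ℝ D : Set E) ⊆
          {x | (x, (0 : ℝ)) ∈ S.topologicalClosure} :=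
        closure_minimal (fun y hy => S.le_topologicalClosure (h2 hy))
          (S.isClosed_topologicalClosure.preimage (by fun_prop))
      exact h3 (hd x)
    have h4 : ((0 : E), (1 : ℝ)) ∈ S.topologicalClosure :=
      S.le_topologicalClosure (Submodule.subset_span (Or.inr rfl))
    intro z
    have h5 : z = (z.1, (0 : ℝ)) + z.2 • ((0 : E), (1 : ℝ)) := by ext <;> simp
    have h6 : z ∈ S.topologicalClosure := by
      rw [h5]
      exact Submodule.add_mem _ (h1 z.1) (Submodule.smul_mem _ _ h4)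
    exact h6

section

variable {E : Type u} [NormedAddCommGroup E] [NormedSpace ℝ E]

/-- The admissible functionals on `E × ℝ`. -/
def AdmF (g : E → ℝ) (R M : ℝ) : Set (StrongDual ℝ E × ℝ) :=
  {p | ‖p.1‖ ≤ 1 ∧ ∀ x, ‖x‖ ≤ R → |p.1 x + p.2| ≤ g x + M}

theorem admF_bound {g : E → ℝ} (hg0 : g 0 = 0) {R M : ℝ} (hR : 0 ≤ R) (γ : AdmF g R M)
    (z : E × ℝ) : |γ.1.1 z.1 + z.2 * γ.1.2| ≤ ‖z.1‖ + M * |z.2| := by
  have h1 : |γ.1.2| ≤ M := by
    have := γ.2.2 0 (by rw [norm_zero]; exact hR)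
    rwa [map_zero, zero_add, hg0, zero_add] at this
  have h2 : |γ.1.1 z.1| ≤ ‖z.1‖ := by
    have := γ.1.1.le_opNorm z.1
    rw [Real.norm_eq_abs] at this
    exact this.trans (mul_le_of_le_one_left (norm_nonneg _) γ.2.1)
  refine (abs_add_le _ _).trans (add_le_add h2 ?_)
  rw [abs_mul, mul_comm]
  exact mul_le_mul_of_nonneg_right h1 (abs_nonneg _)

/-- The embedding of `E × ℝ` into a space of bounded functions defining the new norm. -/
noncomputable def embJ (g : E → ℝ) (hg0 : g 0 = 0) (R M : ℝ) (hR : 0 ≤ R) (hM : 0 ≤ M) :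
    (E × ℝ) →L[ℝ] lp (fun _ : AdmF g R M => ℝ) ⊤ :=
  LinearMap.mkContinuous
    { toFun := fun z => ⟨fun γ => γ.1.1 z.1 + z.2 * γ.1.2, by
        apply memℓp_infty
        refine ⟨‖z.1‖ + M * |z.2|, ?_⟩
        rintro _ ⟨γ, rfl⟩
        exact admF_bound hg0 hR γ z⟩
      map_add' := by
        intro z w
        ext γ
        simp only [Prod.fst_add, Prod.snd_add, map_add, lp.coeFn_add, Pi.add_apply]
        ring
      map_smul' := by
        intro c z
        ext γ
        simp only [Prod.smul_fst, Prod.smul_snd, map_smul, smul_eq_mul, lp.coeFn_smul,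
          Pi.smul_apply, RingHom.id_apply]
        ring } (1 + M)
    (by
      intro z
      refine lp.norm_le_of_forall_le (by positivity) fun γ => ?_
      refine (admF_bound hg0 hR γ z).trans ?_
      have h1 : ‖z.1‖ ≤ ‖z‖ := norm_fst_le z
      have h2 : |z.2| ≤ ‖z‖ := norm_snd_le z
      calc ‖z.1‖ + M * |z.2| ≤ ‖z‖ + M * ‖z‖ := add_le_add h1 (mul_le_mul_of_nonneg_left h2 hM)
        _ = (1 + M) * ‖z‖ := by ring)

theorem embJ_apply (g : E → ℝ) (hg0 : g 0 = 0) (R M : ℝ) (hR : 0 ≤ R) (hM : 0 ≤ M)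
    (z : E × ℝ) (γ : AdmF g R M) : embJ g hg0 R M hR hM z γ = γ.1.1 z.1 + z.2 * γ.1.2 := rfl

theorem embJ_norm_le (g : E → ℝ) (hg0 : g 0 = 0) (R M : ℝ) (hR : 0 ≤ R) (hM : 0 ≤ M)
    (z : E × ℝ) : ‖embJ g hg0 R M hR hM z‖ ≤ ‖z.1‖ + M * |z.2| :=
  lp.norm_le_of_forall_le (by positivity) fun γ => admF_bound hg0 hR γ z

theorem le_embJ_norm (g : E → ℝ) (hg0 : g 0 = 0) (R M : ℝ) (hR : 0 ≤ R) (hM : 0 ≤ M)
    (z : E × ℝ) (γ : AdmF g R M) : |γ.1.1 z.1 + z.2 * γ.1.2| ≤ ‖embJ g hg0 R M hR hM z‖ :=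
  lp.norm_apply_le_norm (by norm_num) (embJ g hg0 R M hR hM z) γ

/-- The new norm dominates the old one. -/
theorem norm_le_embJ (g : E → ℝ) (hg0 : g 0 = 0) (R : ℝ) (hR : 0 ≤ R)
    (hg : ∀ x, -‖x‖ ≤ g x) (z : E × ℝ) :
    ‖z‖ ≤ ‖embJ g hg0 R (2 * R + 1) hR (by linarith) z‖ := by
  obtain ⟨φ, hφ1, hφ2⟩ := exists_dual_vector'' ℝ z.1
  have hφ2' : φ z.1 = ‖z.1‖ := by simpa using hφ2
  have hadm : ∀ s : ℝ, |s| ≤ 1 → (φ, s) ∈ AdmF g R (2 * R + 1) := by
    intro s hs
    refine ⟨hφ1, fun x hx => ?_⟩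
    have h1 : |φ x| ≤ ‖x‖ := by
      have := φ.le_opNorm x
      rw [Real.norm_eq_abs] at this
      exact this.trans (mul_le_of_le_one_left (norm_nonneg _) hφ1)
    have h2 := hg x
    refine (abs_add_le _ _).trans ?_
    change |φ x| + |s| ≤ _
    linarith
  have h1 : ‖z.1‖ + |z.2| ≤ ‖embJ g hg0 R (2 * R + 1) hR (by linarith) z‖ := by
    rcases le_total 0 z.2 with h0 | h0
    · have := le_embJ_norm g hg0 R (2 * R + 1) hR (by linarith) z
        ⟨(φ, 1), hadm 1 (by norm_num)⟩
      refine le_trans ?_ this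
      change _ ≤ |φ z.1 + z.2 * 1|
      rw [hφ2', mul_one, abs_of_nonneg h0]
      exact le_abs_self _
    · have := le_embJ_norm g hg0 R (2 * R + 1) hR (by linarith) z
        ⟨(φ, -1), hadm (-1) (by norm_num)⟩
      refine le_trans ?_ this
      change _ ≤ |φ z.1 + z.2 * (-1)|
      rw [hφ2', abs_of_nonpos h0]
      refine le_trans (le_of_eq ?_) (le_abs_self _)
      ring
  refine le_trans ?_ h1
  rw [Prod.norm_def]
  exact max_le (by linarith [abs_nonneg z.2]) (by
    rw [Real.norm_eq_abs]; linarith [norm_nonneg z.1])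

/-- The new norm of `(x, 1)` is `g x + M` on the ball of radius `R`. -/
theorem embJ_one (g : E → ℝ) (hg0 : g 0 = 0) (R : ℝ) (hR : 0 ≤ R) (hgl : Lip 1 g)
    (hgc : ConvexOn ℝ Set.univ g) (x : E) (hx : ‖x‖ ≤ R) :
    ‖embJ g hg0 R (2 * R + 1) hR (by linarith) (x, 1)‖ = g x + (2 * R + 1) := by
  have hlow : ∀ y, -‖y‖ ≤ g y := by
    intro y
    have := hgl y 0
    rw [hg0, sub_zero, sub_zero, one_mul] at this
    exact (abs_le.1 this).1
  have hupp : ∀ y, g y ≤ ‖y‖ := by
    intro y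
    have := hgl y 0
    rw [hg0, sub_zero, sub_zero, one_mul] at this
    exact (abs_le.1 this).2
  apply le_antisymm
  · refine lp.norm_le_of_forall_le (by have := hlow x; linarith) fun γ => ?_
    change |γ.1.1 x + 1 * γ.1.2| ≤ _
    rw [one_mul]
    exact γ.2.2 x hx
  · apply le_of_forall_lt_imp_le_of_dense
    intro a0 ha0
    -- a value just below
    set a : ℝ := max a0 (g x + (2 * R + 1) - 1) with ha
    have haM : a < g x + (2 * R + 1) := max_lt ha0 (by linarith)
    have hcont : Continuous g := by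
      have := hgl.lipschitzWith (by norm_num)
      exact this.continuous
    obtain ⟨l, c, hle, heq⟩ := ConvexOn.exists_affine_le_of_lt (𝕜 := ℝ) (s := Set.univ)
      (φ := g) (x := x) (a := a - (2 * R + 1)) (Set.mem_univ x) (by linarith) isClosed_univ
      (hcont.lowerSemicontinuous.lowerSemicontinuousOn _) hgc
    have hle' : ∀ y, l y + c ≤ g y := fun y => hle ⟨y, Set.mem_univ y⟩
    have heq' : l x + c = a - (2 * R + 1) := heq
    have hln : ‖l‖ ≤ 1 := by
      refine ContinuousLinearMap.opNorm_le_bound _ (by norm_num) fun y => ?_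
      have key : ∀ y, l y ≤ ‖y‖ := by
        intro y
        by_contra hcon
        push Not at hcon
        obtain ⟨n, hn⟩ := exists_nat_gt (-c / (l y - ‖y‖))
        rw [div_lt_iff₀ (by linarith)] at hn
        have h1 := hle' ((n : ℝ) • y)
        have h2 := hupp ((n : ℝ) • y)
        rw [map_smul, smul_eq_mul] at h1
        rw [norm_smul, Real.norm_of_nonneg (Nat.cast_nonneg n)] at h2
        nlinarith
      rw [one_mul, Real.norm_eq_abs, abs_le]
      have h1 := key y
      have h2 := key (-y)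
      rw [map_neg, norm_neg] at h2
      constructor <;> linarith
    have hl : ∀ y, |l y| ≤ ‖y‖ := by
      intro y
      have := l.le_opNorm y
      rw [Real.norm_eq_abs] at this
      exact this.trans (mul_le_of_le_one_left (norm_nonneg _) hln)
    have hadm : (l, c + (2 * R + 1)) ∈ AdmF g R (2 * R + 1) := by
      refine ⟨hln, fun y hy => ?_⟩
      change |l y + (c + (2 * R + 1))| ≤ _
      rw [abs_le]
      constructor
      · have h1 := (abs_le.1 (hl (y - x))).1
        rw [map_sub] at h1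
        have h2 : ‖y - x‖ ≤ 2 * R := (norm_sub_le _ _).trans (by linarith)
        have h3 : g x + (2 * R + 1) - 1 ≤ a := le_max_right _ _
        have h4 := hlow x
        have h5 := hlow y
        linarith
      · have := hle' y
        linarith
    have h6 := le_embJ_norm g hg0 R (2 * R + 1) hR (by linarith) (x, 1)
      ⟨(l, c + (2 * R + 1)), hadm⟩
    change |l x + 1 * (c + (2 * R + 1))| ≤ _ at h6
    have h7 : a ≤ |l x + 1 * (c + (2 * R + 1))| := by
      refine le_trans (le_of_eq ?_) (le_abs_self _)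
      linarith
    exact (le_max_left _ _).trans (h7.trans h6)

end

end Pool.C1B
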