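import Pool.Agent.C1B.Defs

/-!
# Uniform approximation of the norm by `C^1` functions with bounded derivative
-/

set_option autoImplicit false

namespace Pool.C1B

open TopologicalSpace Filter Topology Metric

universe u v

/-- The norm of `E` can be approximated uniformly by `C^1` functions with Lipschitz constant `C`. -/
def NormApprox (C : ℝ) (E : Type u) [NormedAddCommGroup E] [NormedSpace ℝ E] : Prop :=
  ∀ ε : ℝ, 0 < ε → ∃ f : E → ℝ, ContDiff ℝ 1 f ∧ Lip C f ∧ ∀ x, |f x - ‖x‖| ≤ ε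

theorem exists_normApprox {E : Type u} [NormedAddCommGroup E] [NormedSpace ℝ E] {C : ℝ}
    (hC : 0 < C) (h : ∀ r : ℝ, 0 ≤ r → r < 1 → LSep E r (C / (1 - r))) (ε : ℝ) (hε : 0 < ε) :
    ∃ f : E → ℝ, ContDiff ℝ 1 f ∧ Lip C f ∧ ∀ x, |f x - ‖x‖| ≤ ε := by
  have hG : ∀ j : ℕ, ∃ G : E → ℝ, ContDiff ℝ 1 G ∧ Lip (C / ε) G ∧ (∀ x, 0 ≤ G x ∧ G x ≤ 1) ∧
      (∀ x, ‖x‖ ≤ j * ε → G x = 0) ∧ (∀ x, (j + 1) * ε ≤ ‖x‖ → G x = 1) := by
    intro j
    have hj : (0 : ℝ) < (j : ℝ) + 1 := by positivity
    have e1 : 1 - (j : ℝ) / ((j : ℝ) + 1) = 1 / ((j : ℝ) + 1) := by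
      rw [eq_div_iff hj.ne', sub_mul, div_mul_cancel₀ _ hj.ne']; ring
    obtain ⟨g, h1, h0, h2, h3, h4⟩ := h ((j : ℝ) / ((j : ℝ) + 1)) (by positivity)
      ((div_lt_one hj).2 (by linarith))
    rw [e1, div_div_eq_mul_div, div_one] at h0
    set t : ℝ := (((j : ℝ) + 1) * ε)⁻¹ with ht
    have ht0 : 0 < t := by positivity
    refine ⟨fun x => g (t • x), h1.comp (contDiff_const_smul t), ?_, fun x => h2 _, ?_, ?_⟩
    · intro x y
      have h5 := h0 (t • x) (t • y)
      rw [← smul_sub, norm_smul, Real.norm_of_nonneg ht0.le] at h5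
      refine h5.trans (le_of_eq ?_)
      simp only [ht]
      field_simp
    · intro x hx
      apply h3
      rw [norm_smul, Real.norm_of_nonneg ht0.le, ht, inv_mul_le_iff₀ (by positivity)]
      calc ‖x‖ ≤ j * ε := hx
        _ = ((j : ℝ) + 1) * ε * (j / ((j : ℝ) + 1)) := by field_simp
    · intro x hx
      apply h4
      rw [norm_smul, Real.norm_of_nonneg ht0.le, ht, le_inv_mul_iff₀ (by positivity), mul_one]
      exact hx
  choose G hGc hGl hG01 hG0 hG1 using hG
  set f : E → ℝ := fun x => ∑ᶠ j, ε * G j x with hf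
  have hfN : ∀ (N : ℕ) (x : E), ‖x‖ ≤ N * ε → f x = ∑ j ∈ Finset.range N, ε * G j x := by
    intro N x hx
    apply finsum_eq_sum_of_support_subset
    intro j hj
    rw [Function.mem_support] at hj
    by_contra hcon
    have hj' : N ≤ j := by
      by_contra h
      exact hcon (by simpa using h)
    apply hj
    rw [hG0 j x ?_, mul_zero]
    refine hx.trans (mul_le_mul_of_nonneg_right ?_ hε.le)
    exact_mod_cast hj'
  have hloc : ∀ x : E, ∃ N : ℕ, ∀ᶠ y in 𝓝 x, f y = ∑ j ∈ Finset.range N, ε * G j y := by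
    intro x
    obtain ⟨N, hN⟩ := exists_nat_gt (‖x‖ / ε)
    rw [div_lt_iff₀ hε] at hN
    refine ⟨N, ?_⟩
    have hev : ∀ᶠ y in 𝓝 x, ‖y‖ < N * ε := continuous_norm.continuousAt.eventually_lt_const hN
    filter_upwards [hev] with y hy using hfN N y hy.le
  have hfc : ContDiff ℝ 1 f := by
    rw [contDiff_iff_contDiffAt]
    intro x
    obtain ⟨N, hN⟩ := hloc x
    have h1 : ContDiff ℝ 1 (fun y => ∑ j ∈ Finset.range N, ε * G j y) :=
      ContDiff.sum fun j _ => contDiff_const.mul (hGc j)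
    exact h1.contDiffAt.congr_of_eventuallyEq hN
  refine ⟨f, hfc, ?_, ?_⟩
  · apply lip_of_norm_fderiv_le hC.le hfc
    intro x
    obtain ⟨N, hN⟩ := hloc x
    have hN' : f =ᶠ[𝓝 x] fun y => ∑ j ∈ Finset.range N, ε * G j y := hN
    rw [hN'.fderiv_eq]
    set m : ℕ := ⌊‖x‖ / ε⌋₊ with hm
    have hz : ∀ j, j ≠ m → fderiv ℝ (G j) x = 0 := by
      intro j hj
      rcases lt_or_gt_of_ne hj with hlt | hgt
      · -- `G j` is maximal at `x`
        have h1 : ((j : ℝ) + 1) * ε ≤ ‖x‖ := by
          have h2 : ((j + 1 : ℕ) : ℝ) ≤ ‖x‖ / ε :=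
            (Nat.cast_le.2 (Nat.succ_le_of_lt hlt)).trans (Nat.floor_le (by positivity))
          rw [le_div_iff₀ hε] at h2
          push_cast at h2
          exact h2
        have hmax : IsLocalMax (G j) x := by
          refine Eventually.of_forall fun y => ?_
          change G j y ≤ G j x
          rw [hG1 j x h1]
          exact (hG01 j y).2
        exact hmax.fderiv_eq_zero
      · have h1 : ‖x‖ ≤ j * ε := by
          have h2 : ‖x‖ / ε < (m : ℝ) + 1 := Nat.lt_floor_add_one _
          rw [div_lt_iff₀ hε] at h2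
          have h3 : (m : ℝ) + 1 ≤ j := by exact_mod_cast hgt
          exact h2.le.trans (mul_le_mul_of_nonneg_right h3 hε.le)
        have hmin : IsLocalMin (G j) x := by
          refine Eventually.of_forall fun y => ?_
          change G j x ≤ G j y
          rw [hG0 j x h1]
          exact (hG01 j y).1
        exact hmin.fderiv_eq_zero
    have hd : HasFDerivAt (fun y => ∑ j ∈ Finset.range N, ε * G j y)
        (∑ j ∈ Finset.range N, ε • fderiv ℝ (G j) x) x := by
      apply HasFDerivAt.fun_sum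
      intro j _
      exact (((hGc j).differentiable (by norm_num)) x).hasFDerivAt.const_mul ε
    rw [hd.fderiv]
    refine (norm_sum_le _ _).trans ?_
    have hterm : ∀ j ∈ Finset.range N, ‖ε • fderiv ℝ (G j) x‖ ≤ if j = m then C else 0 := by
      intro j _
      by_cases hj : j = m
      · rw [if_pos hj, norm_smul, Real.norm_of_nonneg hε.le]
        have h1 := (hGl j).norm_fderiv_le (by positivity) x
        calc ε * ‖fderiv ℝ (G j) x‖ ≤ ε * (C / ε) := mul_le_mul_of_nonneg_left h1 hε.le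
          _ = C := by field_simp
      · rw [if_neg hj, hz j hj, smul_zero, norm_zero]
    refine (Finset.sum_le_sum hterm).trans ?_
    rw [Finset.sum_ite_eq']
    split_ifs
    · exact le_refl _
    · exact hC.le
  · intro x
    set m : ℕ := ⌊‖x‖ / ε⌋₊ with hm
    have h1 : (m : ℝ) * ε ≤ ‖x‖ := by
      have := Nat.floor_le (show 0 ≤ ‖x‖ / ε by positivity)
      rwa [le_div_iff₀ hε] at this
    have h2 : ‖x‖ ≤ ((m + 1 : ℕ) : ℝ) * ε := by
      have := Nat.lt_floor_add_one (‖x‖ / ε)
      rw [div_lt_iff₀ hε] at this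
      push_cast
      exact this.le
    rw [hfN (m + 1) x h2, Finset.sum_range_succ]
    have h3 : ∑ j ∈ Finset.range m, ε * G j x = m * ε := by
      have : ∀ j ∈ Finset.range m, ε * G j x = ε := by
        intro j hj
        rw [hG1 j x ?_, mul_one]
        refine le_trans ?_ h1
        refine mul_le_mul_of_nonneg_right ?_ hε.le
        exact_mod_cast Finset.mem_range.1 hj
      rw [Finset.sum_congr rfl this, Finset.sum_const, Finset.card_range, nsmul_eq_mul]
    rw [h3]
    have h4 := hG01 m x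
    push_cast at h2
    have h5 : 0 ≤ ε * G m x := mul_nonneg hε.le h4.1
    have h6 : ε * G m x ≤ ε := mul_le_of_le_one_right hε.le h4.2
    rw [abs_le]
    constructor <;> nlinarith

end Pool.C1B
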