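import Pool.Agent.C1B.Amp
import Pool.Agent.C1B.Convex
import Pool.Agent.C1B.NormApprox

/-!
# Lipschitz convex functions are uniform limits of uniformly Lipschitz `C^1` functions
-/

set_option autoImplicit false

namespace Pool.C1B

open TopologicalSpace Filter Topology Metric

universe u v

/-- Approximation on a ball, from norm approximation in an equivalent norm on `E × ℝ`. -/
theorem convex_local {K : Option Cardinal.{u}} (hK : Adm K) {C : ℝ}
    (h : ∀ E : Sp K, NormApprox C E.carrier) (E : Sp K) (g : E.carrier → ℝ) (hg0 : g 0 = 0)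
    (hgl : Lip 1 g) (hgc : ConvexOn ℝ Set.univ g) (hC : 0 ≤ C) (R : ℝ) (hR : 0 ≤ R) (ε : ℝ)
    (hε : 0 < ε) :
    ∃ f : E.carrier → ℝ, ContDiff ℝ 1 f ∧ Lip C f ∧ ∀ x, ‖x‖ ≤ R → |f x - g x| ≤ ε := by
  have hlow : ∀ y, -‖y‖ ≤ g y := by
    intro y
    have := hgl y 0
    rw [hg0, sub_zero, sub_zero, one_mul] at this
    exact (abs_le.1 this).1
  have hM : 0 ≤ 2 * R + 1 := by linarith
  set J := embJ g hg0 R (2 * R + 1) hR hM with hJ
  have hJn : ∀ z, ‖z‖ ≤ ‖J z‖ := norm_le_embJ g hg0 R hR hlow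
  have hanti : AntilipschitzWith 1 J := by
    apply AddMonoidHomClass.antilipschitz_of_bound
    intro z
    simpa using hJn z
  set W : Submodule ℝ (lp (fun _ : AdmF g R (2 * R + 1) => ℝ) ⊤) := LinearMap.range
    (J : (E.carrier × ℝ) →ₗ[ℝ] lp (fun _ : AdmF g R (2 * R + 1) => ℝ) ⊤) with hW
  have hWcl : IsClosed (W : Set (lp (fun _ : AdmF g R (2 * R + 1) => ℝ) ⊤)) := by
    have := hanti.isClosed_range J.uniformContinuous
    have e : (W : Set (lp (fun _ : AdmF g R (2 * R + 1) => ℝ) ⊤)) = Set.range J := rfl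
    rw [e]
    exact this
  have hWc : CompleteSpace W := hWcl.completeSpace_coe
  have hmem : ∀ z, J z ∈ W := fun z => ⟨z, rfl⟩
  set π : (E.carrier × ℝ) →L[ℝ] W := J.codRestrict W hmem with hπ
  have hπn : ∀ z, ‖π z‖ = ‖J z‖ := fun z => rfl
  have hπs : Function.Surjective π := by
    rintro ⟨w, z, rfl⟩
    exact ⟨z, rfl⟩
  have hlift : ∀ (w : W) (r : ℝ), ‖w‖ < r → ∃ z, π z = w ∧ ‖z‖ < r := by
    intro w r hr
    obtain ⟨z, rfl⟩ := hπs w
    exact ⟨z, rfl, (hJn z).trans_lt hr⟩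
  set WS : Sp K :=
    { carrier := W
      asp := asplund_of_metric_surj (asplund_prod_real E.asp) π hlift
      gen := fun κ hκ => gen_of_surj (gen_prod_real (hK κ hκ) (E.gen κ hκ)) π hπs } with hWS
  obtain ⟨F, hF1, hF2, hF3⟩ := h WS ε hε
  set π' : (E.carrier × ℝ) →L[ℝ] WS.carrier := π with hπ'
  refine ⟨fun x => F (π' (x, 1)) - (2 * R + 1), ?_, ?_, ?_⟩
  · refine ContDiff.sub (hF1.comp (π'.contDiff.comp ?_)) contDiff_const
    exact contDiff_id.prodMk contDiff_const
  · intro x y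
    have h1 := hF2 (π' (x, 1)) (π' (y, 1))
    rw [sub_sub_sub_cancel_right]
    refine h1.trans (mul_le_mul_of_nonneg_left ?_ hC)
    rw [← map_sub]
    have e : ((x, (1 : ℝ)) - (y, (1 : ℝ)) : E.carrier × ℝ) = (x - y, 0) := by simp
    rw [e]
    have h2 := embJ_norm_le g hg0 R (2 * R + 1) hR hM (x - y, 0)
    simp only [abs_zero, mul_zero, add_zero] at h2
    exact h2
  · intro x hx
    have h1 := hF3 (π' (x, 1))
    have h2 : ‖π' (x, 1)‖ = g x + (2 * R + 1) := embJ_one g hg0 R hR hgl hgc x hx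
    rw [h2] at h1
    have e : F (π' (x, 1)) - (2 * R + 1) - g x = F (π' (x, 1)) - (g x + (2 * R + 1)) := by ring
    rw [e]
    exact h1

/-- The smooth transition is Lipschitz. -/
theorem exists_transition_lip : ∃ S : ℝ, 0 < S ∧
    ∀ s t : ℝ, |Real.smoothTransition s - Real.smoothTransition t| ≤ S * |s - t| := by
  set h : ℝ → ℝ := fun t => Real.smoothTransition t * Real.smoothTransition (2 - t) with hh
  have hc : ContDiff ℝ 1 h := Real.smoothTransition.contDiff.mul
    (Real.smoothTransition.contDiff.comp (contDiff_const.sub contDiff_id))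
  have hs : HasCompactSupport h := by
    refine HasCompactSupport.intro (isCompact_Icc (a := (0 : ℝ)) (b := 2)) fun x hx => ?_
    rw [Set.mem_Icc, not_and_or, not_le, not_le] at hx
    rcases hx with hx | hx
    · simp only [hh, Real.smoothTransition.zero_of_nonpos hx.le, zero_mul]
    · simp only [hh, Real.smoothTransition.zero_of_nonpos (show 2 - x ≤ 0 by linarith), mul_zero]
  obtain ⟨S, hS⟩ := hc.lipschitzWith_of_hasCompactSupport hs (by norm_num)
  have he : ∀ s : ℝ, Real.smoothTransition s = h (min s 1) := by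
    intro s
    rcases le_total s 1 with h1 | h1
    · rw [min_eq_left h1]
      simp only [hh]
      rw [Real.smoothTransition.one_of_one_le (show 1 ≤ 2 - s by linarith), mul_one]
    · rw [min_eq_right h1]
      simp only [hh]
      rw [Real.smoothTransition.one_of_one_le h1, Real.smoothTransition.one_of_one_le le_rfl,
        Real.smoothTransition.one_of_one_le (by norm_num)]
      norm_num
  refine ⟨(S : ℝ) + 1, by positivity, fun s t => ?_⟩
  rw [he s, he t]
  have h1 := hS.dist_le_mul (min s 1) (min t 1)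
  rw [Real.dist_eq, Real.dist_eq] at h1
  have h2 : |min s 1 - min t 1| ≤ |s - t| := abs_min_sub_min_le_max s 1 t 1 |>.trans (by simp)
  calc |h (min s 1) - h (min t 1)| ≤ S * |min s 1 - min t 1| := h1
    _ ≤ S * |s - t| := mul_le_mul_of_nonneg_left h2 S.2
    _ ≤ (S + 1) * |s - t| := mul_le_mul_of_nonneg_right (by linarith) (abs_nonneg _)

/-- Gluing of approximations on balls. -/
theorem glue_balls {E : Type u} [NormedAddCommGroup E] [NormedSpace ℝ E] {C : ℝ} (hC : 0 < C)
    (g : E → ℝ) (hloc : ∀ (R : ℝ), 0 ≤ R → ∀ ε : ℝ, 0 < ε → ∃ f : E → ℝ, ContDiff ℝ 1 f ∧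
      Lip C f ∧ ∀ x, ‖x‖ ≤ R → |f x - g x| ≤ ε) (hn : NormApprox C E) (ε : ℝ) (hε : 0 < ε) :
    ∃ f : E → ℝ, ContDiff ℝ 1 f ∧ Lip (2 * C) f ∧ ∀ x, |f x - g x| ≤ ε := by
  obtain ⟨S, hS, hSl⟩ := exists_transition_lip
  obtain ⟨ρ, hρc, hρl, hρ⟩ := hn 1 one_pos
  set η : ℝ := min ε (1 / (2 * S)) with hη
  have hη0 : 0 < η := lt_min hε (by positivity)
  have hηS : S * (2 * η) ≤ 1 := by
    have h1 : η ≤ 1 / (2 * S) := min_le_right _ _
    rw [le_div_iff₀ (by positivity)] at h1
    linarith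
  have hF : ∀ m : ℕ, ∃ f : E → ℝ, ContDiff ℝ 1 f ∧ Lip C f ∧
      ∀ x, ‖x‖ ≤ (m : ℝ) + 3 → |f x - g x| ≤ η := fun m => hloc _ (by positivity) η hη0
  choose F hFc hFl hFg using hF
  set σ : ℕ → E → ℝ := fun m x => Real.smoothTransition (ρ x - m) with hσ
  have hσc : ∀ m, ContDiff ℝ 1 (σ m) := fun m =>
    Real.smoothTransition.contDiff.comp (hρc.sub contDiff_const)
  have hσl : ∀ m, Lip (S * C) (σ m) := by
    intro m x y
    refine (hSl _ _).trans ?_
    rw [sub_sub_sub_cancel_right, mul_assoc]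
    exact mul_le_mul_of_nonneg_left (hρl x y) hS.le
  have hσ01 : ∀ m x, 0 ≤ σ m x ∧ σ m x ≤ 1 := fun m x =>
    ⟨Real.smoothTransition.nonneg _, Real.smoothTransition.le_one _⟩
  have hσ0 : ∀ (m : ℕ) x, ρ x ≤ m → σ m x = 0 := fun m x hx =>
    Real.smoothTransition.zero_of_nonpos (by linarith)
  have hσ1 : ∀ (m : ℕ) x, (m : ℝ) + 1 ≤ ρ x → σ m x = 1 := fun m x hx =>
    Real.smoothTransition.one_of_one_le (by linarith)
  set A : ℕ → E → ℝ := fun m x => F m x + σ m x * (F (m + 1) x - F m x) with hA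
  have hAc : ∀ m, ContDiff ℝ 1 (A m) := fun m =>
    (hFc m).add ((hσc m).mul ((hFc (m + 1)).sub (hFc m)))
  set f : E → ℝ := fun x => A ⌊ρ x⌋₊ x with hf
  -- description of `f` on strips
  have hstrip : ∀ (j : ℕ) (y : E), ((j : ℝ) ≤ ρ y ∨ j = 0) → ρ y ≤ (j : ℝ) + 1 →
      f y = A j y := by
    intro j y hj hj1
    rcases hj1.lt_or_eq with hlt | heq
    · have : ⌊ρ y⌋₊ = j := by
        rcases hj with hj | rfl
        · rw [Nat.floor_eq_iff ((Nat.cast_nonneg j).trans hj)]
          exact ⟨hj, hlt⟩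
        · rw [Nat.floor_eq_zero]
          simpa using hlt
      simp only [hf, this]
    · have h1 : ρ y = ((j + 1 : ℕ) : ℝ) := by push_cast; exact heq
      have : ⌊ρ y⌋₊ = j + 1 := by rw [h1, Nat.floor_natCast]
      simp only [hf, this, hA]
      rw [hσ0 (j + 1) y h1.le, hσ1 j y heq.ge]
      ring
  have hnorm : ∀ (j : ℕ) (y : E), ρ y ≤ (j : ℝ) + 1 → ‖y‖ ≤ (j : ℝ) + 3 := by
    intro j y hy
    have := (abs_le.1 (hρ y)).1
    linarith
  have hFg' : ∀ (j : ℕ) (y : E), ‖y‖ ≤ (j : ℝ) + 3 → |F (j + 1) y - g y| ≤ η := by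
    intro j y hy
    apply hFg
    push_cast
    linarith
  have hAg : ∀ (j : ℕ) (y : E), ρ y ≤ (j : ℝ) + 1 → |A j y - g y| ≤ η := by
    intro j y hy
    have h1 := hnorm j y hy
    have h2 := hFg j y h1
    have h3 := hFg' j y h1
    have h4 := hσ01 j y
    have e : A j y - g y = (1 - σ j y) * (F j y - g y) + σ j y * (F (j + 1) y - g y) := by
      simp only [hA]; ring
    rw [e]
    refine (abs_add_le _ _).trans ?_
    rw [abs_mul, abs_mul, abs_of_nonneg h4.1, abs_of_nonneg (by linarith [h4.2])]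
    have h5 := mul_le_mul_of_nonneg_left h2 (show 0 ≤ 1 - σ j y by linarith [h4.2])
    have h6 := mul_le_mul_of_nonneg_left h3 h4.1
    nlinarith
  have hAl : ∀ (j : ℕ) (x y : E), ρ x ≤ (j : ℝ) + 1 → |A j y - A j x| ≤ 2 * C * ‖y - x‖ := by
    intro j x y hx
    have h1 := hnorm j x hx
    have h2 := abs_le.1 (hFg j x h1)
    have h3 := abs_le.1 (hFg' j x h1)
    have h4 := hσ01 j y
    have h5 : |F (j + 1) x - F j x| ≤ 2 * η := by
      rw [abs_le]; constructor <;> linarith [h2.1, h2.2, h3.1, h3.2]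
    have e : A j y - A j x = (1 - σ j y) * (F j y - F j x) + σ j y * (F (j + 1) y - F (j + 1) x)
        + (σ j y - σ j x) * (F (j + 1) x - F j x) := by
      simp only [hA]; ring
    rw [e]
    have h6 : |(1 - σ j y) * (F j y - F j x)| ≤ (1 - σ j y) * (C * ‖y - x‖) := by
      rw [abs_mul, abs_of_nonneg (by linarith [h4.2])]
      exact mul_le_mul_of_nonneg_left (hFl j y x) (by linarith [h4.2])
    have h7 : |σ j y * (F (j + 1) y - F (j + 1) x)| ≤ σ j y * (C * ‖y - x‖) := by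
      rw [abs_mul, abs_of_nonneg h4.1]
      exact mul_le_mul_of_nonneg_left (hFl (j + 1) y x) h4.1
    have h8 : |(σ j y - σ j x) * (F (j + 1) x - F j x)| ≤ C * ‖y - x‖ := by
      rw [abs_mul]
      calc |σ j y - σ j x| * |F (j + 1) x - F j x| ≤ (S * C * ‖y - x‖) * (2 * η) :=
            mul_le_mul (hσl j y x) h5 (abs_nonneg _) (by positivity)
        _ = (S * (2 * η)) * (C * ‖y - x‖) := by ring
        _ ≤ 1 * (C * ‖y - x‖) := mul_le_mul_of_nonneg_right hηS (by positivity)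
        _ = C * ‖y - x‖ := one_mul _
    have h9 := abs_add_le ((1 - σ j y) * (F j y - F j x) + σ j y * (F (j + 1) y - F (j + 1) x))
      ((σ j y - σ j x) * (F (j + 1) x - F j x))
    have h10 := abs_add_le ((1 - σ j y) * (F j y - F j x)) (σ j y * (F (j + 1) y - F (j + 1) x))
    nlinarith
  -- smoothness
  have hfc : ContDiff ℝ 1 f := by
    rw [contDiff_iff_contDiffAt]
    intro x
    have hk1 : ρ x < (⌊ρ x⌋₊ : ℝ) + 1 := Nat.lt_floor_add_one _
    rcases Nat.eq_zero_or_pos ⌊ρ x⌋₊ with hk | hk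
    · have hev : ∀ᶠ y in 𝓝 x, ρ y < 1 := by
        apply hρc.continuous.continuousAt.eventually_lt_const
        rw [hk] at hk1
        simpa using hk1
      refine (hAc 0).contDiffAt.congr_of_eventuallyEq ?_
      filter_upwards [hev] with y hy
      exact hstrip 0 y (Or.inr rfl) (by simpa using hy.le)
    · obtain ⟨k, hk'⟩ : ∃ k, ⌊ρ x⌋₊ = k + 1 := ⟨⌊ρ x⌋₊ - 1, by omega⟩
      rw [hk'] at hk1
      have hk2 : ((k + 1 : ℕ) : ℝ) ≤ ρ x := by
        rw [← hk']
        apply Nat.floor_le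
        by_contra hcon
        rw [Nat.floor_of_nonpos (not_le.1 hcon).le] at hk
        exact absurd hk (lt_irrefl _)
      have hev1 : ∀ᶠ y in 𝓝 x, (k : ℝ) < ρ y := by
        apply hρc.continuous.continuousAt.eventually_const_lt
        push_cast at hk2
        linarith
      have hev2 : ∀ᶠ y in 𝓝 x, ρ y < ((k + 1 : ℕ) : ℝ) + 1 :=
        hρc.continuous.continuousAt.eventually_lt_const hk1
      have hc : ContDiff ℝ 1 (fun y => A k y + A (k + 1) y - F (k + 1) y) :=
        ((hAc k).add (hAc (k + 1))).sub (hFc (k + 1))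
      refine hc.contDiffAt.congr_of_eventuallyEq ?_
      filter_upwards [hev1, hev2] with y hy1 hy2
      rcases le_total (ρ y) ((k + 1 : ℕ) : ℝ) with hy | hy
      · rw [hstrip k y (Or.inl hy1.le) (by push_cast at hy; exact hy)]
        simp only [hA]
        rw [hσ0 (k + 1) y hy]
        ring
      · rw [hstrip (k + 1) y (Or.inl hy) hy2.le]
        simp only [hA]
        rw [hσ1 k y (by push_cast at hy; exact hy)]
        ring
  refine ⟨f, hfc, ?_, ?_⟩
  · apply lip_of_norm_fderiv_le (by positivity) hfc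
    intro x
    apply norm_fderiv_le_of_lip' ℝ (by positivity)
    have hk1 : ρ x < (⌊ρ x⌋₊ : ℝ) + 1 := Nat.lt_floor_add_one _
    have hev2 : ∀ᶠ y in 𝓝 x, ρ y < (⌊ρ x⌋₊ : ℝ) + 1 :=
      hρc.continuous.continuousAt.eventually_lt_const hk1
    -- it is enough to find a common strip
    have hcommon : ∀ (j : ℕ) (y : E), ((j : ℝ) ≤ ρ x ∨ j = 0) → ρ x ≤ (j : ℝ) + 1 →
        ((j : ℝ) ≤ ρ y ∨ j = 0) → ρ y ≤ (j : ℝ) + 1 → ‖f y - f x‖ ≤ 2 * C * ‖y - x‖ := by
      intro j y h1 h2 h3 h4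
      rw [hstrip j x h1 h2, hstrip j y h3 h4, Real.norm_eq_abs]
      exact hAl j x y h2
    rcases Nat.eq_zero_or_pos ⌊ρ x⌋₊ with hk | hk
    · filter_upwards [hev2] with y hy
      rw [hk] at hk1 hy
      exact hcommon 0 y (Or.inr rfl) hk1.le (Or.inr rfl) hy.le
    · have hk2 : (⌊ρ x⌋₊ : ℝ) ≤ ρ x := by
        apply Nat.floor_le
        by_contra hcon
        rw [Nat.floor_of_nonpos (not_le.1 hcon).le] at hk
        exact absurd hk (lt_irrefl _)
      rcases hk2.lt_or_eq with hlt | heq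
      · have hev1 : ∀ᶠ y in 𝓝 x, (⌊ρ x⌋₊ : ℝ) < ρ y :=
          hρc.continuous.continuousAt.eventually_const_lt hlt
        filter_upwards [hev1, hev2] with y hy1 hy2
        exact hcommon _ y (Or.inl hk2) hk1.le (Or.inl hy1.le) hy2.le
      · obtain ⟨k, hk'⟩ : ∃ k, ⌊ρ x⌋₊ = k + 1 := ⟨⌊ρ x⌋₊ - 1, by omega⟩
        rw [hk'] at heq hev2 hk1 hk2
        have hev1 : ∀ᶠ y in 𝓝 x, (k : ℝ) < ρ y := by
          apply hρc.continuous.continuousAt.eventually_const_lt
          push_cast at heq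
          linarith
        filter_upwards [hev1, hev2] with y hy1 hy2
        rcases le_total (ρ y) ((k + 1 : ℕ) : ℝ) with hy | hy
        · push_cast at heq hy
          exact hcommon k y (Or.inl (by linarith)) (by linarith) (Or.inl hy1.le) hy
        · exact hcommon (k + 1) y (Or.inl hk2) hk1.le (Or.inl hy) hy2.le
  · intro x
    have h1 := hAg ⌊ρ x⌋₊ x (Nat.lt_floor_add_one _).le
    exact h1.trans (min_le_left _ _)

/-- **Lipschitz convex functions** on all members of the class are uniform limits of `C^1` functions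
with Lipschitz constant `C'`. -/
theorem convex_approx {K : Option Cardinal.{u}} (hK : Adm K) {C : ℝ} (hC : 0 < C)
    (h : ∀ E : Sp K, NormApprox C E.carrier) (E : Sp K) (g : E.carrier → ℝ)
    (hgl : Lip 1 g) (hgc : ConvexOn ℝ Set.univ g) (ε : ℝ) (hε : 0 < ε) :
    ∃ f : E.carrier → ℝ, ContDiff ℝ 1 f ∧ Lip (2 * C) f ∧ ∀ x, |f x - g x| ≤ ε := by
  set g0 : E.carrier → ℝ := fun x => g x - g 0 with hg0
  have h1 : g0 0 = 0 := by simp [hg0]
  have h2 : Lip 1 g0 := by
    intro x y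
    simp only [hg0]
    rw [sub_sub_sub_cancel_right]
    exact hgl x y
  have h3 : ConvexOn ℝ Set.univ g0 := by
    refine ⟨convex_univ, fun x hx y hy a b ha hb hab => ?_⟩
    have h4 := hgc.2 hx hy ha hb hab
    simp only [smul_eq_mul] at h4
    simp only [hg0, smul_eq_mul]
    have h5 : a * g 0 + b * g 0 = g 0 := by rw [← add_mul, hab, one_mul]
    linarith
  obtain ⟨f, hf1, hf2, hf3⟩ := glue_balls hC g0
    (fun R hR ε hε => convex_local hK h E g0 h1 h2 h3 hC.le R hR ε hε) (h E) ε hε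
  refine ⟨fun x => f x + g 0, hf1.add contDiff_const, ?_, ?_⟩
  · intro x y
    rw [add_sub_add_right_eq_sub]
    exact hf2 x y
  · intro x
    have := hf3 x
    simp only [hg0] at this
    have e : f x + g 0 - g x = f x - (g x - g 0) := by ring
    rw [e]
    exact this

end Pool.C1B
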