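import Pool.Agent.C1B.Defs

/-!
# From countably many uniformly discrete families to fine `C^1` approximation
-/

set_option autoImplicit false

namespace Pool.C1B

open TopologicalSpace Filter Topology Metric

universe u v w

section Discrete

variable {X : Type u} [NormedAddCommGroup X] [NormedSpace ℝ X] {I : Type w}
  {Z : Type v} [NormedAddCommGroup Z] [NormedSpace ℝ Z]

/-- The sum of a uniformly discrete family is locally one of its members. -/
theorem finsum_local {δ : ℝ} (hδ : 0 < δ) (ψ : I → X → Z)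
    (hd : ∀ a b x y, a ≠ b → ψ a x ≠ 0 → ψ b y ≠ 0 → δ ≤ ‖x - y‖) (x0 : X) :
    (∀ y ∈ ball x0 (δ / 2), ∑ᶠ a, ψ a y = 0) ∨
      ∃ a, ∀ y ∈ ball x0 (δ / 2), ∑ᶠ b, ψ b y = ψ a y := by
  by_cases h : ∃ a, ∃ y ∈ ball x0 (δ / 2), ψ a y ≠ 0
  · obtain ⟨a, y0, hy0, ha⟩ := h
    right
    refine ⟨a, fun y hy => ?_⟩
    apply finsum_eq_single
    intro b hb
    by_contra hne
    have h1 := hd b a y y0 hb hne ha
    have h2 : dist y y0 < δ := by
      have := dist_triangle_right y y0 x0
      rw [mem_ball] at hy hy0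
      linarith
    rw [dist_eq_norm] at h2
    linarith
  · left
    intro y hy
    have : ∀ a, ψ a y = 0 := by
      intro a
      by_contra hne
      exact h ⟨a, y, hy, hne⟩
    simp [this]

theorem contDiff_finsum_discrete {δ : ℝ} (hδ : 0 < δ) (ψ : I → X → Z)
    (hc : ∀ a, ContDiff ℝ 1 (ψ a))
    (hd : ∀ a b x y, a ≠ b → ψ a x ≠ 0 → ψ b y ≠ 0 → δ ≤ ‖x - y‖) :
    ContDiff ℝ 1 (fun x => ∑ᶠ a, ψ a x) := by
  rw [contDiff_iff_contDiffAt]
  intro x0
  have hball : ball x0 (δ / 2) ∈ 𝓝 x0 := ball_mem_nhds _ (by linarith)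
  rcases finsum_local hδ ψ hd x0 with h | ⟨a, h⟩
  · refine (contDiffAt_const (c := (0 : Z))).congr_of_eventuallyEq ?_
    filter_upwards [hball] with y hy using h y hy
  · refine (hc a).contDiffAt.congr_of_eventuallyEq ?_
    filter_upwards [hball] with y hy using h y hy

theorem finsum_point {δ : ℝ} (hδ : 0 < δ) (ψ : I → X → Z)
    (hd : ∀ a b x y, a ≠ b → ψ a x ≠ 0 → ψ b y ≠ 0 → δ ≤ ‖x - y‖) (x : X) (a : I)
    (ha : ψ a x ≠ 0) : ∑ᶠ b, ψ b x = ψ a x := by
  apply finsum_eq_single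
  intro b hb
  by_contra hne
  have := hd b a x x hb hne ha
  rw [sub_self, norm_zero] at this
  linarith

end Discrete

theorem telescope (S : ℕ → ℝ) (N : ℕ) :
    ∑ n ∈ Finset.range N, (∏ m ∈ Finset.range n, (1 - S m)) * S n =
      1 - ∏ m ∈ Finset.range N, (1 - S m) := by
  induction N with
  | zero => simp
  | succ N ih => rw [Finset.sum_range_succ, Finset.prod_range_succ, ih]; ring

/-- **Fine `C^1` approximation from discrete families.** -/
theorem fine_approx {X : Type u} [NormedAddCommGroup X] [NormedSpace ℝ X] {I : Type u}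
    (φ : ℕ → I → X → ℝ)
    (δ : ℕ → ℝ) (hδ : ∀ n, 0 < δ n) (hφ : ∀ n a, ContDiff ℝ 1 (φ n a))
    (h01 : ∀ n a x, 0 ≤ φ n a x ∧ φ n a x ≤ 1)
    (hdisc : ∀ n a b x y, a ≠ b → φ n a x ≠ 0 → φ n b y ≠ 0 → δ n ≤ ‖x - y‖)
    (hcov : ∀ x : X, ∀ r > 0, ∃ n a, (∀ᶠ y in 𝓝 x, φ n a y = 1) ∧
      ∀ y, φ n a y ≠ 0 → ‖y - x‖ < r)
    {Y : Type v} [NormedAddCommGroup Y] [NormedSpace ℝ Y] (U : Set X) (hU : IsOpen U)
    (f : X → Y) (hf : ContinuousOn f U) (ε : X → ℝ) (hε : ContinuousOn ε U)
    (hpos : ∀ x ∈ U, 0 < ε x) :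
    ∃ g : X → Y, ContDiffOn ℝ 1 g U ∧ ∀ x ∈ U, ‖g x - f x‖ < ε x := by
  classical
  -- admissible indices and the chosen values
  set A : ℕ → I → Prop := fun n a => (∀ x, φ n a x ≠ 0 → x ∈ U) ∧
    ∃ y : Y, ∀ x, φ n a x ≠ 0 → ‖y - f x‖ ≤ ε x / 2 with hA
  set v : ℕ → I → Y := fun n a => if h : A n a then h.2.choose else 0 with hv
  have hvs : ∀ n a, A n a → ∀ x, φ n a x ≠ 0 → ‖v n a - f x‖ ≤ ε x / 2 := by
    intro n a h x hx
    have e : v n a = h.2.choose := by simp only [hv]; rw [dif_pos h]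
    rw [e]
    exact h.2.choose_spec x hx
  set ψ : ℕ → I → X → ℝ := fun n a x => if A n a then φ n a x else 0 with hψ
  have hψn : ∀ n a x, ψ n a x ≠ 0 → A n a ∧ φ n a x ≠ 0 := by
    intro n a x h
    by_cases hAa : A n a
    · refine ⟨hAa, ?_⟩
      simpa only [hψ, if_pos hAa] using h
    · simp only [hψ, if_neg hAa] at h
      exact absurd rfl h
  have hψe : ∀ n a x, A n a → ψ n a x = φ n a x := by
    intro n a x h
    simp only [hψ, if_pos h]
  have hψc : ∀ n a, ContDiff ℝ 1 (ψ n a) := by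
    intro n a
    by_cases hAa : A n a
    · have : ψ n a = φ n a := by
        funext x; exact hψe n a x hAa
      rw [this]
      exact hφ n a
    · have : ψ n a = fun _ => 0 := by
        funext x; simp only [hψ, if_neg hAa]
      rw [this]
      exact contDiff_const
  have hψd : ∀ n a b x y, a ≠ b → ψ n a x ≠ 0 → ψ n b y ≠ 0 → δ n ≤ ‖x - y‖ :=
    fun n a b x y hab hx hy => hdisc n a b x y hab (hψn n a x hx).2 (hψn n b y hy).2
  set χ : ℕ → I → X → Y := fun n a x => ψ n a x • v n a with hχ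
  have hχn : ∀ n a x, χ n a x ≠ 0 → ψ n a x ≠ 0 := by
    intro n a x h h0
    exact h (by simp only [hχ, h0, zero_smul])
  have hχc : ∀ n a, ContDiff ℝ 1 (χ n a) := fun n a => (hψc n a).smul contDiff_const
  have hχd : ∀ n a b x y, a ≠ b → χ n a x ≠ 0 → χ n b y ≠ 0 → δ n ≤ ‖x - y‖ :=
    fun n a b x y hab hx hy => hψd n a b x y hab (hχn n a x hx) (hχn n b y hy)
  set S : ℕ → X → ℝ := fun n x => ∑ᶠ a, ψ n a x with hS
  set G : ℕ → X → Y := fun n x => ∑ᶠ a, χ n a x with hG
  have hSc : ∀ n, ContDiff ℝ 1 (S n) := fun n =>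
    contDiff_finsum_discrete (hδ n) (ψ n) (hψc n) (hψd n)
  have hGc : ∀ n, ContDiff ℝ 1 (G n) := fun n =>
    contDiff_finsum_discrete (hδ n) (χ n) (hχc n) (hχd n)
  -- pointwise description
  have hSG : ∀ n x, (S n x = 0 ∧ G n x = 0) ∨
      ∃ a, A n a ∧ φ n a x ≠ 0 ∧ S n x = φ n a x ∧ G n x = φ n a x • v n a := by
    intro n x
    by_cases h : ∃ a, ψ n a x ≠ 0
    · obtain ⟨a, ha⟩ := h
      have h1 := hψn n a x ha
      right
      refine ⟨a, h1.1, h1.2, ?_, ?_⟩
      · rw [← hψe n a x h1.1]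
        exact finsum_point (hδ n) (ψ n) (hψd n) x a ha
      · have h2 : ∀ b, b ≠ a → χ n b x = 0 := by
          intro b hb
          by_contra hne
          have := hψd n b a x x hb (hχn n b x hne) ha
          rw [sub_self, norm_zero] at this
          linarith [hδ n]
        have h3 : G n x = χ n a x := finsum_eq_single _ a h2
        rw [h3]
        simp only [hχ]
        rw [hψe n a x h1.1]
    · left
      have h1 : ∀ a, ψ n a x = 0 := by
        intro a
        by_contra hne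
        exact h ⟨a, hne⟩
      constructor
      · simp only [hS, h1, finsum_zero]
      · simp only [hG, hχ, h1, zero_smul, finsum_zero]
  have hS01 : ∀ n x, 0 ≤ S n x ∧ S n x ≤ 1 := by
    intro n x
    rcases hSG n x with ⟨h, _⟩ | ⟨a, _, _, h, _⟩
    · rw [h]; norm_num
    · rw [h]; exact h01 n a x
  have hGf : ∀ n x, ‖G n x - S n x • f x‖ ≤ S n x * (ε x / 2) := by
    intro n x
    rcases hSG n x with ⟨h1, h2⟩ | ⟨a, hAa, hne, h1, h2⟩
    · rw [h1, h2]; simp
    · rw [h1, h2, ← smul_sub, norm_smul, Real.norm_of_nonneg (h01 n a x).1]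
      exact mul_le_mul_of_nonneg_left (hvs n a hAa x hne) (h01 n a x).1
  -- weights and the approximation
  set W : ℕ → X → ℝ := fun n x => ∏ m ∈ Finset.range n, (1 - S m x) with hW
  have hWc : ∀ n, ContDiff ℝ 1 (W n) := fun n =>
    contDiff_prod fun m _ => contDiff_const.sub (hSc m)
  have hW0 : ∀ n x, 0 ≤ W n x := fun n x =>
    Finset.prod_nonneg fun m _ => by linarith [(hS01 m x).2]
  set g : X → Y := fun x => ∑ᶠ n, W n x • G n x with hg
  -- local structure
  have hloc : ∀ x ∈ U, ∃ N : ℕ, ∀ᶠ y in 𝓝 x, (∀ n, N ≤ n → W n y = 0) := by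
    intro x hx
    have hfx : ContinuousAt f x := hf.continuousAt (hU.mem_nhds hx)
    have hεx : ContinuousAt ε x := hε.continuousAt (hU.mem_nhds hx)
    have h1 : ContinuousAt (fun y => ε y / 2 - ‖f x - f y‖) x :=
      (hεx.div_const 2).sub (continuousAt_const.sub hfx).norm
    have h2 : ∀ᶠ y in 𝓝 x, 0 < ε y / 2 - ‖f x - f y‖ := by
      apply h1.eventually_const_lt
      change 0 < ε x / 2 - ‖f x - f x‖
      rw [sub_self, norm_zero, sub_zero]
      linarith [hpos x hx]
    obtain ⟨r, hr, hrs⟩ := Metric.eventually_nhds_iff.1 (h2.and (hU.mem_nhds hx))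
    obtain ⟨n, a, hna, hsm⟩ := hcov x r hr
    have hAa : A n a := by
      refine ⟨fun y hy => ?_, f x, fun y hy => ?_⟩
      · exact (hrs (by rw [dist_eq_norm]; exact hsm y hy)).2
      · have := (hrs (by rw [dist_eq_norm]; exact hsm y hy)).1
        linarith
    refine ⟨n + 1, ?_⟩
    filter_upwards [hna] with y hy k hk
    have hψ1 : ψ n a y = 1 := by rw [hψe n a y hAa, hy]
    have hSy : S n y = 1 := by
      have h3 : S n y = ψ n a y :=
        finsum_point (hδ n) (ψ n) (hψd n) y a (by rw [hψ1]; norm_num)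
      rw [h3, hψ1]
    apply Finset.prod_eq_zero (Finset.mem_range.2 (by omega : n < k))
    rw [hSy, sub_self]
  have hgN : ∀ (N : ℕ) (y : X), (∀ n, N ≤ n → W n y = 0) →
      g y = ∑ n ∈ Finset.range N, W n y • G n y := by
    intro N y hy
    apply finsum_eq_sum_of_support_subset
    intro n hn
    rw [Function.mem_support] at hn
    by_contra hcon
    have hn' : N ≤ n := by
      by_contra h
      exact hcon (by simpa using h)
    exact hn (by rw [hy n hn', zero_smul])
  refine ⟨g, ?_, ?_⟩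
  · intro x hx
    apply ContDiffAt.contDiffWithinAt
    obtain ⟨N, hN⟩ := hloc x hx
    have h1 : ContDiffAt ℝ 1 (fun y => ∑ n ∈ Finset.range N, W n y • G n y) x :=
      ContDiff.contDiffAt (ContDiff.sum fun n _ => (hWc n).smul (hGc n))
    refine h1.congr_of_eventuallyEq ?_
    filter_upwards [hN] with y hy using hgN N y hy
  · intro x hx
    obtain ⟨N, hN⟩ := hloc x hx
    have hNx := hN.self_of_nhds
    have h1 := hgN N x hNx
    have h2 := telescope (fun n => S n x) N
    have h3 : W N x = 0 := hNx N (le_refl N)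
    have h4 : ∑ n ∈ Finset.range N, W n x * S n x = 1 := by
      have : ∑ n ∈ Finset.range N, W n x * S n x = 1 - W N x := h2
      rw [this, h3, sub_zero]
    have h5 : g x - f x = ∑ n ∈ Finset.range N, W n x • (G n x - S n x • f x) := by
      simp only [smul_sub, Finset.sum_sub_distrib, smul_smul]
      rw [← Finset.sum_smul, h4, one_smul, h1]
    rw [h5]
    refine (norm_sum_le _ _).trans_lt ?_
    have h6 : ∑ n ∈ Finset.range N, ‖W n x • (G n x - S n x • f x)‖ ≤
        ∑ n ∈ Finset.range N, W n x * S n x * (ε x / 2) := by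
      apply Finset.sum_le_sum
      intro n _
      rw [norm_smul, Real.norm_of_nonneg (hW0 n x), mul_assoc]
      exact mul_le_mul_of_nonneg_left (hGf n x) (hW0 n x)
    rw [← Finset.sum_mul, h4, one_mul] at h6
    linarith [hpos x hx]

end Pool.C1B
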