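import Pool.Agent.C1B.Glue

/-!
# Closed sets as zero sets of Lipschitz `C^1` functions
-/

set_option autoImplicit false

namespace Pool.C1B

open TopologicalSpace Filter Topology Metric

universe u v w

theorem summable_half : Summable fun n : ℕ => (1 / 2 : ℝ) ^ (n + 1) :=
  (summable_nat_add_iff 1).2 (summable_geometric_of_lt_one (by norm_num) (by norm_num))

theorem tsum_half : ∑' n : ℕ, (1 / 2 : ℝ) ^ (n + 1) = 1 := by
  have h := tsum_geometric_two' (1 : ℝ)
  have e : (fun n : ℕ => (1 / 2 : ℝ) ^ (n + 1)) = fun n : ℕ => (1 : ℝ) / 2 / 2 ^ n := by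
    funext n
    rw [pow_succ, one_div_pow]
    field_simp
  rw [e]
  exact h

/-- **Closed sets are zero sets** if there are enough discrete families of uniformly Lipschitz
`C^1` functions. -/
theorem exists_zeroSet {X : Type u} [NormedAddCommGroup X] [NormedSpace ℝ X] {I : Type u}
    (φ : ℕ → I → X → ℝ) (δ Λ : ℕ → ℝ) (hδ : ∀ n, 0 < δ n) (hΛ : ∀ n, 0 ≤ Λ n)
    (hlip : ∀ n a, Lip (Λ n) (φ n a)) (hφ : ∀ n a, ContDiff ℝ 1 (φ n a))
    (h01 : ∀ n a x, 0 ≤ φ n a x ∧ φ n a x ≤ 1)
    (hdisc : ∀ n a b x y, a ≠ b → φ n a x ≠ 0 → φ n b y ≠ 0 → δ n ≤ ‖x - y‖)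
    (hcov : ∀ x : X, ∀ r > 0, ∃ n a, (∀ᶠ y in 𝓝 x, φ n a y = 1) ∧
      ∀ y, φ n a y ≠ 0 → ‖y - x‖ < r)
    (F : Set X) (hF : IsClosed F) :
    ∃ f : X → ℝ, ContDiff ℝ 1 f ∧ LipschitzWith 1 f ∧ (∀ x, 0 ≤ f x ∧ f x ≤ 1) ∧
      ∀ x, f x = 0 ↔ x ∈ F := by
  classical
  set A : ℕ → I → Prop := fun n a => ∀ x, φ n a x ≠ 0 → x ∉ F with hA
  set ψ : ℕ → I → X → ℝ := fun n a x => if A n a then φ n a x else 0 with hψ
  have hψe : ∀ n a x, A n a → ψ n a x = φ n a x := by
    intro n a x h
    simp only [hψ, if_pos h]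
  have hψz : ∀ n a x, ¬ A n a → ψ n a x = 0 := by
    intro n a x h
    simp only [hψ, if_neg h]
  have hψn : ∀ n a x, ψ n a x ≠ 0 → A n a ∧ φ n a x ≠ 0 := by
    intro n a x h
    by_cases hAa : A n a
    · exact ⟨hAa, by rwa [hψe n a x hAa] at h⟩
    · exact absurd (hψz n a x hAa) h
  have hψ01 : ∀ n a x, 0 ≤ ψ n a x ∧ ψ n a x ≤ 1 := by
    intro n a x
    by_cases hAa : A n a
    · rw [hψe n a x hAa]; exact h01 n a x
    · rw [hψz n a x hAa]; norm_num
  have hψc : ∀ n a, ContDiff ℝ 1 (ψ n a) := by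
    intro n a
    by_cases hAa : A n a
    · have : ψ n a = φ n a := by
        funext x; exact hψe n a x hAa
      rw [this]
      exact hφ n a
    · have : ψ n a = fun _ => 0 := by
        funext x; exact hψz n a x hAa
      rw [this]
      exact contDiff_const
  have hψl : ∀ n a, Lip (Λ n) (ψ n a) := by
    intro n a
    by_cases hAa : A n a
    · have : ψ n a = φ n a := by
        funext x; exact hψe n a x hAa
      rw [this]
      exact hlip n a
    · have : ψ n a = fun _ => 0 := by
        funext x; exact hψz n a x hAa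
      rw [this]
      exact (lip_const 0).mono (hΛ n)
  have hψd : ∀ n a b x y, a ≠ b → ψ n a x ≠ 0 → ψ n b y ≠ 0 → δ n ≤ ‖x - y‖ :=
    fun n a b x y hab hx hy => hdisc n a b x y hab (hψn n a x hx).2 (hψn n b y hy).2
  set S : ℕ → X → ℝ := fun n x => ∑ᶠ a, ψ n a x with hS
  have hSc : ∀ n, ContDiff ℝ 1 (S n) := fun n =>
    contDiff_finsum_discrete (hδ n) (ψ n) (hψc n) (hψd n)
  have hSpt : ∀ n a x, ψ n a x ≠ 0 → S n x = ψ n a x := fun n a x h =>
    finsum_point (hδ n) (ψ n) (hψd n) x a h
  have hSz : ∀ n x, (∀ a, ψ n a x = 0) → S n x = 0 := by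
    intro n x h
    simp only [hS, h, finsum_zero]
  have hS01 : ∀ n x, 0 ≤ S n x ∧ S n x ≤ 1 := by
    intro n x
    by_cases h : ∃ a, ψ n a x ≠ 0
    · obtain ⟨a, ha⟩ := h
      rw [hSpt n a x ha]
      exact hψ01 n a x
    · push Not at h
      rw [hSz n x h]
      norm_num
  set M : ℕ → ℝ := fun n => max (Λ n) (1 / δ n) with hM
  have hM0 : ∀ n, 0 ≤ M n := fun n => (hΛ n).trans (le_max_left _ _)
  have hSl : ∀ n, Lip (M n) (S n) := by
    intro n x y
    by_cases hx : ∃ a, ψ n a x ≠ 0
    · obtain ⟨a, ha⟩ := hx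
      by_cases hy : ∃ b, ψ n b y ≠ 0
      · obtain ⟨b, hb⟩ := hy
        by_cases hab : a = b
        · subst hab
          rw [hSpt n a x ha, hSpt n a y hb]
          exact (hψl n a).mono (le_max_left _ _) x y
        · have h1 := hψd n a b x y hab ha hb
          have h2 : |S n x - S n y| ≤ 1 := by
            rw [abs_le]
            constructor <;> linarith [(hS01 n x).1, (hS01 n x).2, (hS01 n y).1, (hS01 n y).2]
          have h3 : 1 ≤ 1 / δ n * ‖x - y‖ := by
            rw [div_mul_eq_mul_div, one_mul, le_div_iff₀ (hδ n), one_mul]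
            exact h1
          exact h2.trans (h3.trans (mul_le_mul_of_nonneg_right (le_max_right _ _)
            (norm_nonneg _)))
      · push Not at hy
        rw [hSpt n a x ha, hSz n y hy, ← hy a]
        exact (hψl n a).mono (le_max_left _ _) x y
    · push Not at hx
      by_cases hy : ∃ b, ψ n b y ≠ 0
      · obtain ⟨b, hb⟩ := hy
        rw [hSz n x hx, hSpt n b y hb, ← hx b]
        exact (hψl n b).mono (le_max_left _ _) x y
      · push Not at hy
        rw [hSz n x hx, hSz n y hy, sub_zero, abs_zero]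
        exact mul_nonneg (hM0 n) (norm_nonneg _)
  -- coefficients
  set c : ℕ → ℝ := fun n => (1 / 2) ^ (n + 1) / (1 + M n) with hc
  have hc0 : ∀ n, 0 < c n := fun n => by
    have := hM0 n
    positivity
  have hc1 : ∀ n, c n ≤ (1 / 2) ^ (n + 1) := fun n => by
    apply div_le_self (by positivity)
    linarith [hM0 n]
  have hcM : ∀ n, c n * M n ≤ (1 / 2) ^ (n + 1) := fun n => by
    have h1 := hM0 n
    simp only [hc]
    rw [div_mul_eq_mul_div, div_le_iff₀ (by positivity)]
    have : (0 : ℝ) < (1 / 2) ^ (n + 1) := by positivity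
    nlinarith
  have hb0 : ∀ n x, |c n * S n x| ≤ (1 / 2) ^ (n + 1) := by
    intro n x
    rw [abs_of_nonneg (mul_nonneg (hc0 n).le (hS01 n x).1)]
    exact (mul_le_of_le_one_right (hc0 n).le (hS01 n x).2).trans (hc1 n)
  have hsum : ∀ x, Summable fun n => c n * S n x := fun x =>
    Summable.of_norm_bounded summable_half fun n => hb0 n x
  refine ⟨fun x => ∑' n, c n * S n x, ?_, ?_, ?_, ?_⟩
  · have := contDiff_tsum (𝕜 := ℝ) (N := 1) (f := fun n x => c n * S n x)
      (v := fun _ n => (1 / 2 : ℝ) ^ (n + 1)) (fun n => contDiff_const.mul (hSc n))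
      (fun _ _ => summable_half) (fun k n x hk => by
        have hk' : k ≤ 1 := by exact_mod_cast hk
        interval_cases k
        · rw [norm_iteratedFDeriv_zero]
          exact hb0 n x
        · rw [norm_iteratedFDeriv_one]
          have hl : Lip (c n * M n) (fun x => c n * S n x) := by
            intro x y
            rw [← mul_sub, abs_mul, abs_of_pos (hc0 n), mul_assoc]
            exact mul_le_mul_of_nonneg_left (hSl n x y) (hc0 n).le
          exact (hl.norm_fderiv_le (mul_nonneg (hc0 n).le (hM0 n)) x).trans (hcM n))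
    exact this
  · have h1 : Lip 1 (fun x => ∑' n, c n * S n x) := by
      intro x y
      rw [← (hsum x).tsum_sub (hsum y)]
      have h2 : ∀ n, ‖c n * S n x - c n * S n y‖ ≤ (1 / 2) ^ (n + 1) * ‖x - y‖ := by
        intro n
        rw [← mul_sub, Real.norm_eq_abs, abs_mul, abs_of_pos (hc0 n)]
        calc c n * |S n x - S n y| ≤ c n * (M n * ‖x - y‖) :=
              mul_le_mul_of_nonneg_left (hSl n x y) (hc0 n).le
          _ = c n * M n * ‖x - y‖ := by ring
          _ ≤ (1 / 2) ^ (n + 1) * ‖x - y‖ :=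
              mul_le_mul_of_nonneg_right (hcM n) (norm_nonneg _)
      have h3 := tsum_of_norm_bounded (summable_half.mul_right ‖x - y‖).hasSum h2
      rw [tsum_mul_right, tsum_half, Real.norm_eq_abs] at h3
      exact h3
    have h4 := h1.lipschitzWith (by norm_num)
    exact h4
  · intro x
    constructor
    · exact tsum_nonneg fun n => mul_nonneg (hc0 n).le (hS01 n x).1
    · have h3 := (hsum x).tsum_le_tsum (fun n => (le_abs_self _).trans (hb0 n x)) summable_half
      rw [tsum_half] at h3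
      exact h3
  · intro x
    constructor
    · intro h0
      by_contra hx
      obtain ⟨r, hr, hrs⟩ := Metric.isOpen_iff.1 hF.isOpen_compl x hx
      obtain ⟨n, a, hna, hsm⟩ := hcov x r hr
      have hAa : A n a := by
        intro y hy
        exact hrs (by rw [mem_ball, dist_eq_norm]; exact hsm y hy)
      have h1 : ψ n a x = 1 := by rw [hψe n a x hAa]; exact hna.self_of_nhds
      have h2 : S n x = 1 := by rw [hSpt n a x (by rw [h1]; norm_num), h1]
      have h3 : c n * S n x ≤ ∑' n, c n * S n x :=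
        (hsum x).le_tsum n fun m _ => mul_nonneg (hc0 m).le (hS01 m x).1
      rw [h2, mul_one] at h3
      have h4 := hc0 n
      linarith
    · intro hx
      have h1 : ∀ n, S n x = 0 := by
        intro n
        apply hSz
        intro a
        by_contra hne
        have h2 := hψn n a x hne
        exact h2.1 x h2.2 hx
      change ∑' n, c n * S n x = 0
      simp only [h1, mul_zero, tsum_zero]

end Pool.C1B
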