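import Pool.Agent.C1B.Amp
import Pool.Agent.C1B.Chain
import Pool.Agent.C1B.Glue
import Pool.Agent.C1B.ZeroSet
import Pool.Agent.C1B.NormApprox
import Pool.Agent.C1B.ConvexGlue

/-!
# From bumps on all Asplund spaces to fine approximation on all Asplund spaces
-/

set_option autoImplicit false

namespace Pool.C1B

open TopologicalSpace Filter Topology Metric

universe u v

/-- Every closed subset of `E` is the zero set of a `1`-Lipschitz `C^1` function `E → [0,1]`. -/
def ZeroSets (E : Type u) [NormedAddCommGroup E] [NormedSpace ℝ E] : Prop :=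
  ∀ F : Set E, IsClosed F → ∃ f : E → ℝ, ContDiff ℝ 1 f ∧ LipschitzWith 1 f ∧
    (∀ x, 0 ≤ f x ∧ f x ≤ 1) ∧ ∀ x, f x = 0 ↔ x ∈ F

/-- Fine `C^1` approximation of continuous maps on open subsets. -/
def FineApprox (E : Type u) [NormedAddCommGroup E] [NormedSpace ℝ E] : Prop :=
  ∀ (Y : Type v) [NormedAddCommGroup Y] [NormedSpace ℝ Y] (U : Set E) (f : E → Y) (ε : E → ℝ),
    IsOpen U → ContinuousOn f U → ContinuousOn ε U → (∀ x ∈ U, 0 < ε x) →
      ∃ g : E → Y, ContDiffOn ℝ 1 g U ∧ ∀ x ∈ U, ‖g x - f x‖ < ε x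

/-- Bumps on all members of the class give the universal separation functions. -/
theorem lsep_of_bump {K : Option Cardinal.{u}} (hK : Adm K) (h : ∀ E : Sp K, Bump E.carrier) :
    ∃ C > 0, ∀ (E : Sp K) (r : ℝ), 0 ≤ r → r < 1 → LSep E.carrier r (C / (1 - r)) := by
  obtain ⟨δ, hδ, L, hL, hs⟩ := universal_lsep hK (fun E => lipBump_of_bump hK h E)
  exact lsep_all hK hδ hL hs

/-- Separation of distances to subspaces from separation in the quotients. -/
theorem sepDist_of_all {K : Option Cardinal.{u}} {C : ℝ} (hC : 0 < C)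
    (h : ∀ (E : Sp K) (r : ℝ), 0 ≤ r → r < 1 → LSep E.carrier r (C / (1 - r)))
    (E : Sp K) : SepDist E.carrier := by
  intro p q hp hpq
  have hq : 0 < q := hp.trans hpq
  have hr1 : p / q < 1 := (div_lt_one hq).2 hpq
  refine ⟨C / (1 - p / q) * q⁻¹, by
    have : 0 < 1 - p / q := by linarith
    positivity, fun Y => ?_⟩
  have hcl : IsClosed ((Y.topologicalClosure : Submodule ℝ E.carrier) : Set E.carrier) :=
    Y.isClosed_topologicalClosure
  obtain ⟨g, hg1, hg0, hg2, hg3, hg4⟩ := h (Sp.quot E Y.topologicalClosure) (p / q)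
    (by positivity) hr1
  set π : E.carrier →L[ℝ] (Sp.quot E Y.topologicalClosure).carrier :=
    LinearMap.mkContinuous Y.topologicalClosure.mkQ 1 (norm_mk_le Y.topologicalClosure) with hπ
  have hnorm : ∀ x, ‖π x‖ = infDist x (Y : Set E.carrier) := by
    intro x
    have h1 : ‖π x‖ = infDist x ((Y.topologicalClosure : Submodule ℝ E.carrier) :
      Set E.carrier) := norm_mk_eq_infDist Y.topologicalClosure x
    rw [h1, Submodule.topologicalClosure_coe, infDist_closure]
  have hπ1 : ∀ x, ‖π x‖ ≤ ‖x‖ := by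
    intro x
    have := norm_mk_le Y.topologicalClosure x
    rw [one_mul] at this
    exact this
  refine ⟨fun x => 1 - g (q⁻¹ • π x), ?_, ?_, ?_, ?_, ?_⟩
  · refine contDiff_const.sub (hg1.comp ?_)
    exact (contDiff_const_smul q⁻¹).comp π.contDiff
  · apply Lip.one_sub
    intro x y
    refine (hg0 (q⁻¹ • π x) (q⁻¹ • π y)).trans ?_
    rw [← smul_sub, ← map_sub, norm_smul, Real.norm_of_nonneg (by positivity), mul_assoc]
    have : 0 < 1 - p / q := by linarith
    refine mul_le_mul_of_nonneg_left ?_ (by positivity)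
    exact mul_le_mul_of_nonneg_left (hπ1 _) (by positivity)
  · intro x
    have := hg2 (q⁻¹ • π x)
    constructor <;> linarith [this.1, this.2]
  · intro x hx
    change 1 - g (q⁻¹ • π x) = 1
    rw [hg3 _ ?_]
    · norm_num
    · rw [norm_smul, norm_inv, Real.norm_of_nonneg hq.le, hnorm, div_eq_inv_mul]
      exact mul_le_mul_of_nonneg_left hx (by positivity)
  · intro x hx
    change 1 - g (q⁻¹ • π x) = 0
    rw [hg4 _ ?_]
    · norm_num
    · rw [norm_smul, norm_inv, Real.norm_of_nonneg hq.le, hnorm, ← div_eq_inv_mul, le_div_iff₀ hq]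
      linarith

/-- Bumps on all members give approximation of Lipschitz convex functions on all members. -/
theorem convexApprox_of_bump {K : Option Cardinal.{u}} (hK : Adm K)
    (h : ∀ E : Sp K, Bump E.carrier) : ∃ C : NNReal, ∀ (E : Sp K) (g : E.carrier → ℝ),
      ConvexOn ℝ Set.univ g → LipschitzWith 1 g → ∀ ε : ℝ, 0 < ε →
        ∃ f : E.carrier → ℝ, ContDiff ℝ 1 f ∧ LipschitzWith C f ∧ ∀ x, |f x - g x| ≤ ε := by
  obtain ⟨C, hC, hs⟩ := lsep_of_bump hK h
  have hn : ∀ E : Sp K, NormApprox C E.carrier := fun E ε hε => exists_normApprox hC (hs E) ε hε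
  refine ⟨⟨2 * C, by positivity⟩, fun E g hgc hgl ε hε => ?_⟩
  obtain ⟨f, h1, h2, h3⟩ := convex_approx hK hC hn E g (by
    have := Lip.of_lipschitzWith hgl
    simpa using this) hgc ε hε
  exact ⟨f, h1, h2.lipschitzWith (by positivity), h3⟩

/-- Bumps on all members of the class give zero set functions on all members. -/
theorem zeroSets_of_bump {K : Option Cardinal.{u}} (hK : Adm K)
    (h : ∀ E : Sp K, Bump E.carrier) (E : Sp K) : ZeroSets E.carrier := by
  obtain ⟨C, hC, hs⟩ := lsep_of_bump hK h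
  obtain ⟨φ, d, Λ, h1, h2, h3, h4, h5, h6, h7⟩ := exists_families (sepDist_of_all hC hs E)
  exact fun F hF => exists_zeroSet φ d Λ h1 h2 h3 h4 h5 h6 h7 F hF

/-- Bumps on all members of the class give fine approximation on all members. -/
theorem fineApprox_of_bump {K : Option Cardinal.{u}} (hK : Adm K)
    (h : ∀ E : Sp K, Bump E.carrier) (E : Sp K) : FineApprox.{u, v} E.carrier := by
  obtain ⟨C, hC, hs⟩ := lsep_of_bump hK h
  obtain ⟨φ, d, Λ, h1, h2, h3, h4, h5, h6, h7⟩ := exists_families (sepDist_of_all hC hs E)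
  intro Y _ _ U f ε hU hf hε hpos
  exact fine_approx φ d h1 h4 h5 h6 h7 U hU f hf ε hε hpos

/-- A function close to the norm gives a bump. -/
theorem bump_of_close {E : Type u} [NormedAddCommGroup E] [NormedSpace ℝ E] (f : E → ℝ)
    (hf : ContDiff ℝ 1 f) (h : ∀ x, |f x - ‖x‖| ≤ 1 / 2) : Bump E := by
  refine ⟨fun x => Real.smoothTransition (2 - f x),
    Real.smoothTransition.contDiff.comp (contDiff_const.sub hf), ⟨0, ?_⟩, ?_⟩
  · have h1 := abs_le.1 (h 0)
    rw [norm_zero] at h1
    change Real.smoothTransition (2 - f 0) ≠ 0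
    rw [Real.smoothTransition.one_of_one_le (by linarith [h1.2])]
    norm_num
  · rw [isBounded_iff_subset_closedBall (0 : E)]
    refine ⟨3, fun x hx => ?_⟩
    rw [mem_closedBall_zero_iff]
    by_contra hcon
    push Not at hcon
    apply Function.mem_support.1 hx
    have h1 := abs_le.1 (h x)
    exact Real.smoothTransition.zero_of_nonpos (by linarith [h1.1])

theorem lipBump_of_zeroSets {E : Type u} [NormedAddCommGroup E] [NormedSpace ℝ E]
    (h : ZeroSets E) : ∃ f : E → ℝ, ContDiff ℝ 1 f ∧ LipschitzWith 1 f ∧ (∃ x, f x ≠ 0) ∧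
      Bornology.IsBounded (Function.support f) := by
  obtain ⟨f, h1, h0, _, h2⟩ := h (ball (0 : E) 1)ᶜ isOpen_ball.isClosed_compl
  refine ⟨f, h1, h0, ⟨0, ?_⟩, ?_⟩
  · intro h0
    have := (h2 0).1 h0
    exact this (mem_ball_self one_pos)
  · refine (isBounded_ball (x := (0 : E)) (r := 1)).subset ?_
    intro x hx
    by_contra hcon
    exact Function.mem_support.1 hx ((h2 x).2 hcon)

/-- Fine approximation gives a bump. -/
theorem bump_of_fineApprox {E : Type u} [NormedAddCommGroup E] [NormedSpace ℝ E]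
    (h : FineApprox.{u, v} E) : Bump E := by
  obtain ⟨g, hg1, hg2⟩ := h (ULift.{v} ℝ) Set.univ (fun x => ULift.up ‖x‖) (fun _ => 1 / 2)
    isOpen_univ (by
      apply Continuous.continuousOn
      exact continuous_uliftUp.comp continuous_norm)
    continuousOn_const (fun _ _ => by norm_num)
  rw [contDiffOn_univ] at hg1
  set e : ULift.{v} ℝ →L[ℝ] ℝ :=
    ((ContinuousLinearEquiv.ulift : ULift.{v} ℝ ≃L[ℝ] ℝ) : ULift.{v} ℝ →L[ℝ] ℝ) with he
  refine bump_of_close (fun x => e (g x)) (e.contDiff.comp hg1) fun x => ?_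
  have h1 := hg2 x (Set.mem_univ x)
  have h2 : ‖g x - ULift.up ‖x‖‖ = |e (g x) - ‖x‖| := rfl
  rw [h2] at h1
  exact h1.le

end Pool.C1B
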