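import Mathlib

/-!
# Smooth bumps on Asplund spaces: the notions used in `Pool/Agent/C1B`

* `Asplund E` : every separable subspace of `E` has separable dual (word for word the form used in
  the frozen statement of MP_0d212c_an).
* `Gen κ E` : `E` is the closed linear span of a set of at most `κ` vectors (for an infinite
  cardinal `κ` this says that the density of `E` is at most `κ`).
* `Bump E`, `LipBump E` : `E` has a `C^1` bump, a Lipschitz `C^1` bump.
* `Lip L f` : `f` is Lipschitz with constant `L`.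
* `LSep E r L` : a `C^1` function on `E`, Lipschitz with constant `L`, with values in `[0,1]`, is
  `0` on the ball of radius `r` and `1` off the open unit ball.
-/

set_option autoImplicit false

namespace Pool.C1B

open TopologicalSpace

universe u v

/-- Asplund space: separable subspaces have separable duals. -/
def Asplund (E : Type u) [NormedAddCommGroup E] [NormedSpace ℝ E] : Prop :=
  ∀ F : Submodule ℝ E, TopologicalSpace.IsSeparable (F : Set E) →
    TopologicalSpace.SeparableSpace (F →L[ℝ] ℝ)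

/-- `E` is the closed linear span of a set of at most `κ` vectors. -/
def Gen (κ : Cardinal.{u}) (E : Type u) [NormedAddCommGroup E] [NormedSpace ℝ E] : Prop :=
  ∃ D : Set E, Cardinal.mk D ≤ κ ∧ Dense ((Submodule.span ℝ D : Submodule ℝ E) : Set E)

/-- A `C^1` bump, as in the frozen statement. -/
def Bump (E : Type u) [NormedAddCommGroup E] [NormedSpace ℝ E] : Prop :=
  ∃ f : E → ℝ, ContDiff ℝ 1 f ∧ (∃ x, f x ≠ 0) ∧ Bornology.IsBounded (Function.support f)

/-- A Lipschitz `C^1` bump. -/
def LipBump (E : Type u) [NormedAddCommGroup E] [NormedSpace ℝ E] : Prop :=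
  ∃ f : E → ℝ, ContDiff ℝ 1 f ∧ (∃ K : NNReal, LipschitzWith K f) ∧ (∃ x, f x ≠ 0) ∧
    Bornology.IsBounded (Function.support f)

/-- Lipschitz with constant `L`. -/
def Lip {E : Type u} [NormedAddCommGroup E] (L : ℝ) (f : E → ℝ) : Prop :=
  ∀ x y, |f x - f y| ≤ L * ‖x - y‖

/-- A Lipschitz `C^1` function separating the ball of radius `r` from the complement of the unit
ball. -/
def LSep (E : Type u) [NormedAddCommGroup E] [NormedSpace ℝ E] (r L : ℝ) : Prop :=
  ∃ g : E → ℝ, ContDiff ℝ 1 g ∧ Lip L g ∧ (∀ x, 0 ≤ g x ∧ g x ≤ 1) ∧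
    (∀ x, ‖x‖ ≤ r → g x = 0) ∧ (∀ x, 1 ≤ ‖x‖ → g x = 1)

/-- Generation by at most `κ` vectors if `K = some κ`, no condition if `K = none`. -/
def GenO (K : Option Cardinal.{u}) (E : Type u) [NormedAddCommGroup E] [NormedSpace ℝ E] : Prop :=
  ∀ κ, K = some κ → Gen κ E

section Lip

variable {E : Type u} [NormedAddCommGroup E]

theorem Lip.mono {L M : ℝ} {f : E → ℝ} (h : Lip L f) (hLM : L ≤ M) : Lip M f := fun x y =>
  (h x y).trans (mul_le_mul_of_nonneg_right hLM (norm_nonneg _))

theorem lip_const (c : ℝ) : Lip (E := E) 0 (fun _ => c) := fun x y => by simp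

theorem Lip.of_lipschitzWith {K : NNReal} {f : E → ℝ} (h : LipschitzWith K f) :
    Lip (K : ℝ) f := fun x y => by
  have := h.dist_le_mul x y
  rwa [Real.dist_eq, dist_eq_norm] at this

theorem Lip.lipschitzWith {L : ℝ} (hL : 0 ≤ L) {f : E → ℝ} (h : Lip L f) :
    LipschitzWith ⟨L, hL⟩ f :=
  LipschitzWith.of_dist_le_mul fun x y => by
    rw [Real.dist_eq, dist_eq_norm]
    exact h x y

/-- Products of Lipschitz functions with values in `[0,1]`. -/
theorem Lip.mul {L M : ℝ} {f g : E → ℝ} (hf : Lip L f) (hg : Lip M g)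
    (hf1 : ∀ x, |f x| ≤ 1) (hg1 : ∀ x, |g x| ≤ 1) : Lip (L + M) (fun x => f x * g x) := by
  intro x y
  have e : f x * g x - f y * g y = (f x - f y) * g x + f y * (g x - g y) := by ring
  rw [e]
  refine (abs_add_le _ _).trans ?_
  rw [abs_mul, abs_mul, add_mul]
  refine add_le_add ?_ ?_
  · calc |f x - f y| * |g x| ≤ |f x - f y| * 1 :=
          mul_le_mul_of_nonneg_left (hg1 x) (abs_nonneg _)
      _ ≤ L * ‖x - y‖ := by rw [mul_one]; exact hf x y
  · calc |f y| * |g x - g y| ≤ 1 * |g x - g y| :=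
          mul_le_mul_of_nonneg_right (hf1 y) (abs_nonneg _)
      _ ≤ M * ‖x - y‖ := by rw [one_mul]; exact hg x y

theorem Lip.one_sub {L : ℝ} {f : E → ℝ} (hf : Lip L f) : Lip L (fun x => 1 - f x) := by
  intro x y
  have e : 1 - f x - (1 - f y) = -(f x - f y) := by ring
  rw [e, abs_neg]
  exact hf x y

theorem Lip.norm_fderiv_le [NormedSpace ℝ E] {L : ℝ} (hL : 0 ≤ L) {f : E → ℝ} (h : Lip L f)
    (x : E) : ‖fderiv ℝ f x‖ ≤ L := by
  apply norm_fderiv_le_of_lip' ℝ hL
  exact Filter.Eventually.of_forall fun y => h y x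

theorem lip_of_norm_fderiv_le [NormedSpace ℝ E] {L : ℝ} (hL : 0 ≤ L) {f : E → ℝ}
    (hf : ContDiff ℝ 1 f) (h : ∀ x, ‖fderiv ℝ f x‖ ≤ L) : Lip L f := by
  intro x y
  have h1 : Differentiable ℝ f := hf.differentiable (by norm_num)
  have := Convex.norm_image_sub_le_of_norm_fderiv_le (𝕜 := ℝ) (f := f) (C := L) (s := Set.univ)
    (x := y) (y := x) (fun z _ => h1 z) (fun z _ => h z) convex_univ (Set.mem_univ _)
    (Set.mem_univ _)
  rwa [Real.norm_eq_abs] at this

end Lip

end Pool.C1B
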