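import Pool.Agent.C1B.Defs

/-!
# Density and generation
-/

set_option autoImplicit false

namespace Pool.C1B

open TopologicalSpace Filter Topology Cardinal

universe u v

/-- The density of `E` is at most `κ` (no condition if `κ = ⊤`). -/
def DensityLE (κ : WithTop Cardinal.{u}) (E : Type u) [TopologicalSpace E] : Prop :=
  ∃ D : Set E, Dense D ∧ ((Cardinal.mk D : Cardinal.{u}) : WithTop Cardinal.{u}) ≤ κ

theorem mk_finsupp_rat_le {α : Type u} {κ : Cardinal.{u}} (hκ : ℵ₀ ≤ κ) (h : #α ≤ κ) :
    #(α →₀ ℚ) ≤ κ := by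
  rcases isEmpty_or_nonempty α with hα | hα
  · have : #(α →₀ ℚ) = 1 := by
      rw [Cardinal.eq_one_iff_unique]
      exact ⟨⟨fun a b => Finsupp.ext fun x => (hα.false x).elim⟩, ⟨0⟩⟩
    rw [this]
    exact Cardinal.one_le_aleph0.trans hκ
  · rw [Cardinal.mk_finsupp_lift_of_infinite', Cardinal.lift_uzero]
    refine max_le h ?_
    have : #ℚ = ℵ₀ := by simp
    rw [this, Cardinal.lift_aleph0]
    exact hκ

/-- A generated space has a dense subset of the same cardinality. -/
theorem dense_of_gen {κ : Cardinal.{u}} (hκ : ℵ₀ ≤ κ) {E : Type u} [NormedAddCommGroup E]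
    [NormedSpace ℝ E] (h : Gen κ E) : ∃ D : Set E, Dense D ∧ #D ≤ κ := by
  obtain ⟨D, hD, hd⟩ := h
  set L : (D →₀ ℚ) → E := fun l => l.sum fun d q => (q : ℝ) • (d : E) with hL
  have hLadd : ∀ l m, L (l + m) = L l + L m := by
    intro l m
    apply Finsupp.sum_add_index'
    · intro d; simp
    · intro d q r; push_cast; rw [add_smul]
  have hLzero : L 0 = 0 := Finsupp.sum_zero_index
  have hLsmul : ∀ (q : ℚ) l, L (q • l) = (q : ℝ) • L l := by
    intro q l
    simp only [hL]
    rw [Finsupp.sum_smul_index' (by intro d; simp), Finsupp.sum, Finsupp.sum, Finset.smul_sum]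
    apply Finset.sum_congr rfl
    intro d _
    rw [smul_smul, smul_eq_mul]
    push_cast
    rfl
  refine ⟨Set.range L, ?_, Cardinal.mk_range_le.trans (mk_finsupp_rat_le hκ hD)⟩
  -- the closure of the range contains the span
  have hspan : ((Submodule.span ℝ D : Submodule ℝ E) : Set E) ⊆ closure (Set.range L) := by
    intro v hv
    refine Submodule.span_induction (p := fun v _ => v ∈ closure (Set.range L)) ?_ ?_ ?_ ?_ hv
    · intro x hx
      apply subset_closure
      refine ⟨Finsupp.single ⟨x, hx⟩ 1, ?_⟩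
      simp only [hL]
      rw [Finsupp.sum_single_index (by simp)]
      simp
    · exact subset_closure ⟨0, hLzero⟩
    · intro x y _ _ hx hy
      exact map_mem_closure₂ continuous_add hx hy (by
        rintro _ ⟨l, rfl⟩ _ ⟨m, rfl⟩
        exact ⟨l + m, hLadd l m⟩)
    · intro a x _ hx
      have h1 : a ∈ closure (Set.range ((↑) : ℚ → ℝ)) := Rat.denseRange_cast a
      exact map_mem_closure₂ (f := fun (a : ℝ) (x : E) => a • x) continuous_smul h1 hx (by
        rintro _ ⟨q, rfl⟩ _ ⟨l, rfl⟩
        exact ⟨q • l, hLsmul q l⟩)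
  intro x
  exact closure_minimal hspan isClosed_closure (hd x)

/-- The two ways to bound the size of a space agree. -/
theorem exists_option (κ : WithTop Cardinal.{u}) (hκ : ((ℵ₀ : Cardinal.{u}) :
    WithTop Cardinal.{u}) ≤ κ) :
    ∃ K : Option Cardinal.{u}, (∀ c, K = some c → ℵ₀ ≤ c) ∧
      ∀ (E : Type u) [NormedAddCommGroup E] [NormedSpace ℝ E], DensityLE κ E ↔ GenO K E := by
  induction κ using WithTop.recTopCoe with
  | top =>
    refine ⟨none, fun c hc => by simp at hc, fun E _ _ => ?_⟩
    constructor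
    · intro _ c hc
      simp at hc
    · intro _
      exact ⟨Set.univ, dense_univ, le_top⟩
  | coe c =>
    have hc : ℵ₀ ≤ c := WithTop.coe_le_coe.1 hκ
    refine ⟨some c, fun c' hc' => by
      rw [Option.some.injEq] at hc'
      rw [← hc']
      exact hc, fun E _ _ => ?_⟩
    constructor
    · rintro ⟨D, hD, hle⟩ c' hc'
      rw [Option.some.injEq] at hc'
      rw [← hc']
      exact ⟨D, WithTop.coe_le_coe.1 hle, hD.mono Submodule.subset_span⟩
    · intro h
      obtain ⟨D, hD, hle⟩ := dense_of_gen hc (h c rfl)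
      exact ⟨D, hD, WithTop.coe_le_coe.2 hle⟩

end Pool.C1B
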