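import Pool.Agent.C1B.Lip

/-!
# A Lipschitz `C^1` bump on `X` gives a Lipschitz `C^1` bump on every `l2`-sum of copies of `X`
-/

set_option autoImplicit false

namespace Pool.C1B

open TopologicalSpace Filter Topology Metric

universe u v

/-- A Lipschitz bump gives a Lipschitz separation of two balls. -/
theorem lsep_of_lipBump {X : Type u} [NormedAddCommGroup X] [NormedSpace ℝ X] (h : LipBump X) :
    ∃ r > 0, ∃ L ≥ 0, LSep X r L := by
  obtain ⟨f, hf, ⟨K, hK⟩, ⟨x0, hx0⟩, hb⟩ := h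
  obtain ⟨R, hR⟩ := hb.subset_closedBall 0
  have hR' : ∀ z, max R 0 < ‖z‖ → f z = 0 := by
    intro z hz
    by_contra hne
    have := hR (Function.mem_support.2 hne)
    rw [mem_closedBall_zero_iff] at this
    exact absurd ((le_max_left R 0).trans_lt hz) (not_lt.2 this)
  set M : ℝ := max R 0 + ‖x0‖ + 1 with hM
  have hM0 : 0 < M := by positivity
  set θ : ContDiffBump (1 : ℝ) := ⟨1 / 4, 1 / 2, by norm_num, by norm_num⟩ with hθ
  have hθc : ContDiff ℝ 1 (θ : ℝ → ℝ) := θ.contDiff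
  obtain ⟨C, hC⟩ := hθc.lipschitzWith_of_hasCompactSupport θ.hasCompactSupport (by norm_num)
  have hθ0 : (θ : ℝ → ℝ) 0 = 0 := by
    apply θ.zero_of_le_dist
    rw [Real.dist_eq]; norm_num [hθ]
  have hcont : ContinuousAt (fun z => f z / f x0) x0 := (hf.continuous.div_const _).continuousAt
  have hev : ∀ᶠ z in 𝓝 x0, f z / f x0 ∈ closedBall (1 : ℝ) (1 / 4) := by
    apply hcont.eventually
    change ∀ᶠ t in 𝓝 (f x0 / f x0), t ∈ closedBall (1 : ℝ) (1 / 4)
    rw [div_self hx0]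
    exact closedBall_mem_nhds _ (by norm_num)
  rw [Metric.eventually_nhds_iff] at hev
  obtain ⟨ρ, hρ, hev⟩ := hev
  refine ⟨ρ / (2 * M), by positivity, C * (K * M / |f x0|), by positivity, ?_⟩
  set w : X → ℝ := fun x => f (x0 + M • x) / f x0 with hw
  have hwc : ContDiff ℝ 1 w := by
    refine (hf.comp ?_).div_const _
    exact contDiff_const.add (contDiff_const_smul M)
  refine ⟨fun x => 1 - θ (w x), contDiff_const.sub (hθc.comp hwc), ?_, ?_, ?_, ?_⟩
  · apply Lip.one_sub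
    intro x y
    have h1 := hC.dist_le_mul (w x) (w y)
    rw [Real.dist_eq, Real.dist_eq] at h1
    have h2 := hK.dist_le_mul (x0 + M • x) (x0 + M • y)
    rw [Real.dist_eq, dist_add_left, dist_eq_norm, ← smul_sub, norm_smul,
      Real.norm_of_nonneg hM0.le] at h2
    have h3 : |w x - w y| ≤ K * M / |f x0| * ‖x - y‖ := by
      have e : w x - w y = (f (x0 + M • x) - f (x0 + M • y)) / f x0 := by
        simp only [hw]; ring
      rw [e, abs_div, div_mul_eq_mul_div]
      refine div_le_div_of_nonneg_right ?_ (abs_nonneg _)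
      calc _ ≤ K * (M * ‖x - y‖) := h2
        _ = K * M * ‖x - y‖ := by ring
    calc |θ (w x) - θ (w y)| ≤ C * |w x - w y| := h1
      _ ≤ C * (K * M / |f x0| * ‖x - y‖) := mul_le_mul_of_nonneg_left h3 C.2
      _ = C * (K * M / |f x0|) * ‖x - y‖ := by ring
  · intro x
    have h1 : 0 ≤ θ (w x) := θ.nonneg
    have h2 : θ (w x) ≤ 1 := θ.le_one
    constructor <;> linarith
  · intro x hx
    have h1 : dist (x0 + M • x) x0 < ρ := by
      rw [dist_eq_norm, add_sub_cancel_left, norm_smul, Real.norm_of_nonneg hM0.le]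
      calc M * ‖x‖ ≤ M * (ρ / (2 * M)) := mul_le_mul_of_nonneg_left hx hM0.le
        _ = ρ / 2 := by field_simp
        _ < ρ := by linarith
    have h2 := hev h1
    have h3 : θ (w x) = 1 := θ.one_of_mem_closedBall h2
    change 1 - θ (w x) = 0
    rw [h3, sub_self]
  · intro x hx
    have h1 : f (x0 + M • x) = 0 := by
      apply hR'
      have h2 : ‖M • x‖ - ‖x0‖ ≤ ‖x0 + M • x‖ := by
        have h3 := norm_sub_norm_le (M • x) (-x0)
        rw [norm_neg, sub_neg_eq_add, add_comm (M • x)] at h3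
        exact h3
      rw [norm_smul, Real.norm_of_nonneg hM0.le] at h2
      have h3 : M * 1 ≤ M * ‖x‖ := mul_le_mul_of_nonneg_left hx hM0.le
      rw [mul_one] at h3
      have h4 : M = max R 0 + ‖x0‖ + 1 := hM
      linarith
    have h2 : w x = 0 := by simp only [hw, h1, zero_div]
    change 1 - θ (w x) = 1
    rw [h2, hθ0, sub_zero]

/-- A `C^1` function comparable to the square of the norm near zero, with derivative at most
a multiple of the norm. -/
theorem exists_quadratic_like {X : Type u} [NormedAddCommGroup X] [NormedSpace ℝ X] {r L : ℝ}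
    (hr : 0 < r) (hL : 0 ≤ L) (h : LSep X r L) :
    ∃ (F : X → ℝ) (C : ℝ), 0 ≤ C ∧ ContDiff ℝ 1 F ∧ F 0 = 0 ∧ (∀ x, 0 ≤ F x) ∧
      (∀ x, ‖x‖ ≤ 1 → ‖x‖ ^ 2 / 4 ≤ F x) ∧ (∀ x, 1 ≤ ‖x‖ → 1 / 4 ≤ F x) ∧
      (∀ x, ‖fderiv ℝ F x‖ ≤ C * ‖x‖) := by
  obtain ⟨g, hgc, hgl, hg01, hg0, hg1⟩ := h
  set G : ℕ → X → ℝ := fun n x => (1 / 4) ^ n * g ((2 : ℝ) ^ n • x) with hG
  have hGc : ∀ n, ContDiff ℝ 1 (G n) := fun n =>
    contDiff_const.mul (hgc.comp (contDiff_const_smul _))
  have hG0 : ∀ n x, 0 ≤ G n x := fun n x => mul_nonneg (by positivity) (hg01 _).1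
  have hGle : ∀ n x, G n x ≤ (1 / 4) ^ n := fun n x =>
    mul_le_of_le_one_right (by positivity) (hg01 _).2
  have hGl : ∀ n, Lip ((1 / 2) ^ n * L) (G n) := by
    intro n x y
    have h1 := hgl ((2 : ℝ) ^ n • x) ((2 : ℝ) ^ n • y)
    rw [← smul_sub, norm_smul, Real.norm_of_nonneg (by positivity)] at h1
    have e : G n x - G n y = (1 / 4) ^ n * (g ((2 : ℝ) ^ n • x) - g ((2 : ℝ) ^ n • y)) := by
      simp only [hG]; ring
    rw [e, abs_mul, abs_of_nonneg (by positivity)]
    calc (1 / 4 : ℝ) ^ n * |g ((2 : ℝ) ^ n • x) - g ((2 : ℝ) ^ n • y)|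
        ≤ (1 / 4) ^ n * (L * (2 ^ n * ‖x - y‖)) := mul_le_mul_of_nonneg_left h1 (by positivity)
      _ = ((1 / 4) * 2) ^ n * L * ‖x - y‖ := by rw [mul_pow]; ring
      _ = (1 / 2) ^ n * L * ‖x - y‖ := by norm_num
  have hsum4 : Summable fun n : ℕ => (1 / 4 : ℝ) ^ n :=
    summable_geometric_of_lt_one (by norm_num) (by norm_num)
  have hsum2 : Summable fun n : ℕ => (1 / 2 : ℝ) ^ n * L :=
    (summable_geometric_of_lt_one (by norm_num) (by norm_num)).mul_right L
  have hGs : ∀ x, Summable fun n => G n x := fun x =>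
    Summable.of_nonneg_of_le (fun n => hG0 n x) (fun n => hGle n x) hsum4
  set F : X → ℝ := fun x => ∑' n, G n x with hF
  have hd1 : ∀ n x, ‖fderiv ℝ (G n) x‖ ≤ (1 / 2) ^ n * L := fun n x =>
    (hGl n).norm_fderiv_le (by positivity) x
  have hFc : ContDiff ℝ 1 F := by
    apply contDiff_tsum (v := fun k n => if k = 0 then (1 / 4 : ℝ) ^ n else (1 / 2) ^ n * L) hGc
    · intro k hk
      by_cases hk0 : k = 0
      · simpa [hk0] using hsum4
      · simpa [hk0] using hsum2
    · intro k n x hk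
      by_cases hk0 : k = 0
      · subst hk0
        rw [norm_iteratedFDeriv_zero, if_pos rfl, Real.norm_of_nonneg (hG0 n x)]
        exact hGle n x
      · have hk1 : k = 1 := by
          have : k ≤ 1 := by exact_mod_cast hk
          omega
        subst hk1
        rw [norm_iteratedFDeriv_one, if_neg (by norm_num)]
        exact hd1 n x
  have hFl : Lip (2 * L) F := by
    intro x y
    have h1 : F x - F y = ∑' n, (G n x - G n y) := ((hGs x).tsum_sub (hGs y)).symm
    rw [h1]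
    have hs : Summable fun n : ℕ => (1 / 2 : ℝ) ^ n * L * ‖x - y‖ := hsum2.mul_right _
    have h2 : ∀ n, ‖G n x - G n y‖ ≤ (1 / 2 : ℝ) ^ n * L * ‖x - y‖ := fun n => by
      rw [Real.norm_eq_abs]; exact hGl n x y
    have h3 := tsum_of_norm_bounded hs.hasSum h2
    rw [Real.norm_eq_abs] at h3
    refine h3.trans (le_of_eq ?_)
    rw [tsum_mul_right, tsum_mul_right, tsum_geometric_of_lt_one (by norm_num) (by norm_num)]
    norm_num
  have hFpos : ∀ x, 0 ≤ F x := fun x => tsum_nonneg fun n => hG0 n x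
  have hF0 : F 0 = 0 := by
    simp only [hF, hG, smul_zero]
    rw [hg0 0 (by rw [norm_zero]; exact hr.le)]
    simp
  -- self-similarity
  have hself : ∀ x, F x = g x + 1 / 4 * F ((2 : ℝ) • x) := by
    intro x
    have h1 : F x = G 0 x + ∑' n, G (n + 1) x := (hGs x).tsum_eq_zero_add
    have h2 : ∀ n, G (n + 1) x = 1 / 4 * G n ((2 : ℝ) • x) := by
      intro n
      simp only [hG, smul_smul, pow_succ]
      ring
    rw [h1]
    simp only [h2]
    rw [tsum_mul_left]
    congr 1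
    simp [hG]
  have hbig : ∀ x, 1 ≤ ‖x‖ → F x = 4 / 3 := by
    intro x hx
    have h1 : ∀ n, G n x = (1 / 4) ^ n := by
      intro n
      simp only [hG]
      rw [hg1, mul_one]
      rw [norm_smul, Real.norm_of_nonneg (by positivity)]
      calc (1 : ℝ) = 1 * 1 := (one_mul 1).symm
        _ ≤ 2 ^ n * ‖x‖ := mul_le_mul (one_le_pow₀ (by norm_num)) hx (by norm_num) (by positivity)
    simp only [hF, h1]
    rw [tsum_geometric_of_lt_one (by norm_num) (by norm_num)]
    norm_num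
  refine ⟨F, 2 * L / r, by positivity, hFc, hF0, hFpos, ?_, ?_, ?_⟩
  · -- the lower bound
    have key : ∀ n : ℕ, ∀ x : X, ‖x‖ ≤ 1 → 1 ≤ 2 ^ n * ‖x‖ → ‖x‖ ^ 2 / 4 ≤ F x := by
      intro n
      induction n with
      | zero =>
        intro x hx h1
        rw [pow_zero, one_mul] at h1
        rw [hbig x h1]
        nlinarith [norm_nonneg x]
      | succ n ih =>
        intro x hx h1
        rw [hself x]
        have h2 := (hg01 x).1
        have h3 : ‖(2 : ℝ) • x‖ = 2 * ‖x‖ := by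
          rw [norm_smul, Real.norm_of_nonneg (by norm_num)]
        by_cases h4 : ‖(2 : ℝ) • x‖ ≤ 1
        · have h5 := ih ((2 : ℝ) • x) h4 (by rw [h3]; rw [pow_succ] at h1; linarith)
          rw [h3] at h5
          nlinarith
        · push Not at h4
          rw [hbig _ h4.le]
          nlinarith [norm_nonneg x]
    intro x hx
    rcases eq_or_ne x 0 with rfl | hx0
    · rw [norm_zero, hF0]; norm_num
    · have hpos : 0 < ‖x‖ := norm_pos_iff.2 hx0
      obtain ⟨n, hn⟩ := pow_unbounded_of_one_lt (1 / ‖x‖) (show (1 : ℝ) < 2 by norm_num)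
      refine key n x hx ?_
      rw [div_lt_iff₀ hpos] at hn
      exact hn.le
  · intro x hx
    rw [hbig x hx]
    norm_num
  · have key : ∀ n : ℕ, ∀ x : X, r ≤ 2 ^ n * ‖x‖ → ‖fderiv ℝ F x‖ ≤ 2 * L / r * ‖x‖ := by
      have hbase : ∀ x : X, r ≤ ‖x‖ → ‖fderiv ℝ F x‖ ≤ 2 * L / r * ‖x‖ := by
        intro x hx
        refine (hFl.norm_fderiv_le (by positivity) x).trans ?_
        rw [div_mul_eq_mul_div, le_div_iff₀ hr]
        exact mul_le_mul_of_nonneg_left hx (by positivity)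
      intro n
      induction n with
      | zero =>
        intro x h1
        rw [pow_zero, one_mul] at h1
        exact hbase x h1
      | succ n ih =>
        intro x h1
        by_cases h2 : r ≤ ‖x‖
        · exact hbase x h2
        push Not at h2
        have hev : ∀ᶠ y in 𝓝 x, ‖y‖ < r := continuous_norm.continuousAt.eventually_lt_const h2
        have h3 : F =ᶠ[𝓝 x] fun y => 1 / 4 * F ((2 : ℝ) • y) := by
          filter_upwards [hev] with y hy
          rw [hself y, hg0 y hy.le, zero_add]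
        have h4 : HasFDerivAt (fun y => 1 / 4 * F ((2 : ℝ) • y))
            ((1 / 4 : ℝ) • ((fderiv ℝ F ((2 : ℝ) • x)).comp
              ((2 : ℝ) • ContinuousLinearMap.id ℝ X))) x := by
          have h5 : HasFDerivAt (fun y : X => (2 : ℝ) • y) ((2 : ℝ) • ContinuousLinearMap.id ℝ X) x :=
            (hasFDerivAt_id x).const_smul (2 : ℝ)
          have h6 : HasFDerivAt F (fderiv ℝ F ((2 : ℝ) • x)) ((2 : ℝ) • x) :=
            (hFc.differentiable (by norm_num) _).hasFDerivAt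
          exact (h6.comp x h5).const_mul (1 / 4 : ℝ)
        rw [h3.fderiv_eq, h4.fderiv]
        have h7 : ‖(2 : ℝ) • x‖ = 2 * ‖x‖ := by
          rw [norm_smul, Real.norm_of_nonneg (by norm_num)]
        have h8 := ih ((2 : ℝ) • x) (by rw [h7]; rw [pow_succ] at h1; linarith)
        rw [h7] at h8
        rw [norm_smul, Real.norm_of_nonneg (by norm_num), ContinuousLinearMap.comp_smul,
          ContinuousLinearMap.comp_id, norm_smul, Real.norm_of_nonneg (by norm_num)]
        linarith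
    intro x
    rcases eq_or_ne x 0 with rfl | hx0
    · have hmin : IsLocalMin F (0 : X) := by
        refine Eventually.of_forall fun y => ?_
        change F 0 ≤ F y
        rw [hF0]
        exact hFpos y
      rw [hmin.fderiv_eq_zero, norm_zero, norm_zero, mul_zero]
    · have hpos : 0 < ‖x‖ := norm_pos_iff.2 hx0
      obtain ⟨n, hn⟩ := pow_unbounded_of_one_lt (r / ‖x‖) (show (1 : ℝ) < 2 by norm_num)
      refine key n x ?_
      rw [div_lt_iff₀ hpos] at hn
      exact hn.le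

section Sum

variable {ι : Type v} {X : Type u} [NormedAddCommGroup X] [NormedSpace ℝ X]

omit [NormedSpace ℝ X] in
theorem l2c_sum_le_norm (z : lp (fun _ : ι => X) 2) (s : Finset ι) :
    ∑ i ∈ s, ‖z i‖ ^ 2 ≤ ‖z‖ ^ 2 := by
  have h := lp.sum_rpow_le_norm_rpow (E := fun _ : ι => X) (p := 2) two_toReal_pos z s
  simpa using h

omit [NormedSpace ℝ X] in
theorem l2c_hasSum (z : lp (fun _ : ι => X) 2) : HasSum (fun i => ‖z i‖ ^ 2) (‖z‖ ^ 2) := by
  have h := lp.hasSum_norm (E := fun _ : ι => X) (p := 2) two_toReal_pos z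
  simpa using h

/-- The evaluation at a coordinate. -/
noncomputable abbrev evc (i : ι) : lp (fun _ : ι => X) 2 →L[ℝ] X :=
  lp.evalCLM ℝ (fun _ : ι => X) 2 i

theorem norm_sum_comp_evc_le (φ : ι → X →L[ℝ] ℝ) (s : Finset ι) {A : ℝ} (hA : 0 ≤ A)
    (h : ∑ i ∈ s, ‖φ i‖ ^ 2 ≤ A ^ 2) : ‖∑ i ∈ s, (φ i).comp (evc i)‖ ≤ A := by
  refine ContinuousLinearMap.opNorm_le_bound _ hA fun v => ?_
  rw [sum_apply, Real.norm_eq_abs]
  have h1 : |∑ i ∈ s, ((φ i).comp (evc i)) v| ≤ ∑ i ∈ s, ‖φ i‖ * ‖v i‖ := by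
    refine (Finset.abs_sum_le_sum_abs _ _).trans (Finset.sum_le_sum fun i _ => ?_)
    exact (φ i).le_opNorm (v i)
  have h2 := Finset.sum_mul_sq_le_sq_mul_sq s (fun i => ‖φ i‖) (fun i => ‖v i‖)
  have h3 : (∑ i ∈ s, ‖φ i‖ * ‖v i‖) ^ 2 ≤ (A * ‖v‖) ^ 2 := by
    refine h2.trans ?_
    rw [mul_pow]
    exact mul_le_mul h (l2c_sum_le_norm v s) (by positivity) (by positivity)
  exact h1.trans (abs_le_of_sq_le_sq' h3 (by positivity)).2

/-- Sums of a quadratic-like function over the coordinates are `C^1`. -/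
theorem contDiff_sum_l2 {F : X → ℝ} {C : ℝ} (hC : 0 ≤ C) (hF : ContDiff ℝ 1 F) (hF0 : F 0 = 0)
    (hd : ∀ x, ‖fderiv ℝ F x‖ ≤ C * ‖x‖) :
    ContDiff ℝ 1 (fun z : lp (fun _ : ι => X) 2 => ∑' i, F (z i)) ∧
      (∀ z : lp (fun _ : ι => X) 2, Summable fun i => F (z i)) ∧
      ∀ z : lp (fun _ : ι => X) 2,
        ‖fderiv ℝ (fun z : lp (fun _ : ι => X) 2 => ∑' i, F (z i)) z‖ ≤ C * ‖z‖ := by
  classical
  have hFd : Differentiable ℝ F := hF.differentiable (by norm_num)
  have hFle : ∀ x, |F x| ≤ C * ‖x‖ ^ 2 := by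
    intro x
    have h1 := Convex.norm_image_sub_le_of_norm_fderiv_le (𝕜 := ℝ) (f := F) (C := C * ‖x‖)
      (s := closedBall (0 : X) ‖x‖) (x := 0) (y := x) (fun z _ => hFd z)
      (fun z hz => (hd z).trans (mul_le_mul_of_nonneg_left (by simpa using hz) hC))
      (convex_closedBall _ _) (by simp) (by simp)
    rw [hF0, sub_zero, sub_zero, Real.norm_eq_abs] at h1
    calc |F x| ≤ C * ‖x‖ * ‖x‖ := h1
      _ = C * ‖x‖ ^ 2 := by ring
  have hs : ∀ z : lp (fun _ : ι => X) 2, Summable fun i => F (z i) := fun z =>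
    Summable.of_norm_bounded ((l2c_hasSum z).summable.mul_left C) fun i => hFle (z i)
  set φ : lp (fun _ : ι => X) 2 → ι → (lp (fun _ : ι => X) 2 →L[ℝ] ℝ) := fun z i =>
    (fderiv ℝ F (z i)).comp (evc i) with hφ
  -- the basic bound
  have hb : ∀ (z : lp (fun _ : ι => X) 2) (s : Finset ι) (A : ℝ), 0 ≤ A →
      ∑ i ∈ s, ‖z i‖ ^ 2 ≤ A ^ 2 → ‖∑ i ∈ s, φ z i‖ ≤ C * A := by
    intro z s A hA h
    apply norm_sum_comp_evc_le _ _ (by positivity)
    calc ∑ i ∈ s, ‖fderiv ℝ F (z i)‖ ^ 2 ≤ ∑ i ∈ s, C ^ 2 * ‖z i‖ ^ 2 := by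
          refine Finset.sum_le_sum fun i _ => ?_
          rw [← mul_pow]
          exact pow_le_pow_left₀ (norm_nonneg _) (hd _) 2
      _ = C ^ 2 * ∑ i ∈ s, ‖z i‖ ^ 2 := by rw [Finset.mul_sum]
      _ ≤ C ^ 2 * A ^ 2 := mul_le_mul_of_nonneg_left h (by positivity)
      _ = (C * A) ^ 2 := by ring
  -- uniform tails
  have htail : ∀ (z0 : lp (fun _ : ι => X) 2) (η : ℝ), 0 < η → ∃ s : Finset ι,
      ∀ t : Finset ι, Disjoint t s → ∀ z : lp (fun _ : ι => X) 2, ‖z - z0‖ ≤ η →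
        ‖∑ i ∈ t, φ z i‖ ≤ C * (2 * η) := by
    intro z0 η hη
    obtain ⟨s, hs'⟩ := summable_iff_vanishing_norm.1 (l2c_hasSum z0).summable (η ^ 2)
      (by positivity)
    refine ⟨s, fun t ht z hz => hb z t (2 * η) (by positivity) ?_⟩
    have h1 := hs' t ht
    rw [Real.norm_of_nonneg (Finset.sum_nonneg fun i _ => by positivity)] at h1
    have h2 : ∑ i ∈ t, ‖(z - z0) i‖ ^ 2 ≤ η ^ 2 :=
      (l2c_sum_le_norm (z - z0) t).trans (pow_le_pow_left₀ (norm_nonneg _) hz 2)
    have h3 : ∑ i ∈ t, ‖z i‖ ^ 2 ≤ ∑ i ∈ t, (2 * ‖z0 i‖ ^ 2 + 2 * ‖(z - z0) i‖ ^ 2) := by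
      refine Finset.sum_le_sum fun i _ => ?_
      have h4 : ‖z i‖ ≤ ‖z0 i‖ + ‖(z - z0) i‖ := by
        have h5 : z i = z0 i + (z - z0) i := by simp
        calc ‖z i‖ = ‖z0 i + (z - z0) i‖ := by rw [← h5]
          _ ≤ _ := norm_add_le _ _
      have h6 := pow_le_pow_left₀ (norm_nonneg _) h4 2
      nlinarith [sq_nonneg (‖z0 i‖ - ‖(z - z0) i‖)]
    rw [Finset.sum_add_distrib, ← Finset.mul_sum, ← Finset.mul_sum] at h3
    nlinarith
  have hsφ : ∀ z, Summable (φ z) := by
    intro z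
    rw [summable_iff_vanishing_norm]
    intro ε hε
    obtain ⟨s, hs'⟩ := htail z (ε / (2 * C + 1) / 2) (by positivity)
    refine ⟨s, fun t ht => (hs' t ht z (by rw [sub_self, norm_zero]; positivity)).trans_lt ?_⟩
    have h1 : C * (2 * (ε / (2 * C + 1) / 2)) = ε * (C / (2 * C + 1)) := by ring
    rw [h1]
    have h2 : C / (2 * C + 1) < 1 := by
      rw [div_lt_one (by positivity)]
      linarith
    nlinarith
  set G : lp (fun _ : ι => X) 2 → (lp (fun _ : ι => X) 2 →L[ℝ] ℝ) := fun z => ∑' i, φ z i with hG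
  have hGt : ∀ (z0 : lp (fun _ : ι => X) 2) (η : ℝ), 0 < η → ∃ s : Finset ι,
      ∀ u : Finset ι, s ⊆ u → ∀ z : lp (fun _ : ι => X) 2, ‖z - z0‖ ≤ η →
        ‖G z - ∑ i ∈ u, φ z i‖ ≤ C * (2 * η) := by
    intro z0 η hη
    obtain ⟨s, hs'⟩ := htail z0 η hη
    refine ⟨s, fun u hu z hz => ?_⟩
    have h1 : Tendsto (fun w : Finset ι => ∑ i ∈ w, φ z i - ∑ i ∈ u, φ z i) atTop
        (𝓝 (G z - ∑ i ∈ u, φ z i)) := ((hsφ z).hasSum).sub_const _
    refine le_of_tendsto h1.norm ?_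
    filter_upwards [eventually_ge_atTop u] with w hw
    have h2 : ∑ i ∈ w, φ z i - ∑ i ∈ u, φ z i = ∑ i ∈ w \ u, φ z i := by
      rw [← Finset.sum_sdiff hw]; abel
    rw [h2]
    exact hs' _ (Finset.disjoint_of_subset_right hu Finset.sdiff_disjoint) z hz
  have hder : ∀ z0, HasFDerivAt (fun z : lp (fun _ : ι => X) 2 => ∑' i, F (z i)) (G z0) z0 := by
    intro z0
    refine hasFDerivAt_of_tendstoUniformlyOnFilter (l := (atTop : Filter (Finset ι)))
      (f := fun (u : Finset ι) z => ∑ i ∈ u, F (z i)) (f' := fun u z => ∑ i ∈ u, φ z i)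
      (g' := G) ?_ ?_ ?_
    · rw [Metric.tendstoUniformlyOnFilter_iff]
      intro ε hε
      obtain ⟨s, hs'⟩ := hGt z0 (ε / (2 * C + 1) / 2) (by positivity)
      have h1 : ∀ᶠ z in 𝓝 z0, ‖z - z0‖ ≤ ε / (2 * C + 1) / 2 := by
        filter_upwards [Metric.closedBall_mem_nhds z0
          (show 0 < ε / (2 * C + 1) / 2 by positivity)] with z hz
        rwa [mem_closedBall, dist_eq_norm] at hz
      have h2 := (eventually_ge_atTop s).prod_mk h1
      filter_upwards [h2] with p hp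
      rw [dist_eq_norm]
      refine (hs' p.1 hp.1 p.2 hp.2).trans_lt ?_
      have h1 : C * (2 * (ε / (2 * C + 1) / 2)) = ε * (C / (2 * C + 1)) := by ring
      rw [h1]
      have h2 : C / (2 * C + 1) < 1 := by
        rw [div_lt_one (by positivity)]
        linarith
      nlinarith
    · refine Eventually.of_forall fun p => ?_
      apply HasFDerivAt.fun_sum
      intro i _
      exact ((hFd _).hasFDerivAt).comp p.2 (evc (X := X) i).hasFDerivAt
    · exact Eventually.of_forall fun z => (hs z).hasSum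
  have hfd : fderiv ℝ (fun z : lp (fun _ : ι => X) 2 => ∑' i, F (z i)) = G :=
    funext fun z => (hder z).fderiv
  have hGcont : Continuous G := by
    rw [continuous_iff_continuousAt]
    intro z0
    apply continuousAt_of_locally_uniform_approx_of_continuousAt
    intro u hu
    obtain ⟨ε, hε, hεu⟩ := Metric.mem_uniformity_dist.1 hu
    obtain ⟨s, hs'⟩ := hGt z0 (ε / (2 * C + 1) / 2) (by positivity)
    refine ⟨closedBall z0 (ε / (2 * C + 1) / 2), Metric.closedBall_mem_nhds _ (by positivity),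
      fun z => ∑ i ∈ s, φ z i, ?_, fun z hz => ?_⟩
    · refine Continuous.continuousAt (continuous_finsetSum _ fun i _ => ?_)
      have h1 : Continuous fun z : lp (fun _ : ι => X) 2 => fderiv ℝ F (z i) :=
        (hF.continuous_fderiv (by norm_num)).comp (evc (X := X) i).continuous
      exact h1.clm_comp continuous_const
    · apply hεu
      rw [mem_closedBall, dist_eq_norm] at hz
      rw [dist_eq_norm]
      refine (hs' s (Finset.Subset.refl s) z hz).trans_lt ?_
      have h1 : C * (2 * (ε / (2 * C + 1) / 2)) = ε * (C / (2 * C + 1)) := by ring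
      rw [h1]
      have h2 : C / (2 * C + 1) < 1 := by
        rw [div_lt_one (by positivity)]
        linarith
      nlinarith
  refine ⟨?_, hs, ?_⟩
  · rw [contDiff_one_iff_fderiv]
    exact ⟨fun z => (hder z).differentiableAt, by rw [hfd]; exact hGcont⟩
  · intro z
    rw [hfd]
    refine le_of_tendsto ((hsφ z).hasSum).norm (Eventually.of_forall fun s => ?_)
    exact hb z s ‖z‖ (norm_nonneg _) (l2c_sum_le_norm z s)

/-- **A Lipschitz `C^1` bump on `X` gives a Lipschitz `C^1` bump on `l2(ι; X)`.** -/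
theorem lipBump_l2 (ι : Type v) (h : LipBump X) : LipBump (lp (fun _ : ι => X) 2) := by
  obtain ⟨r, hr, L, hL, hsep⟩ := lsep_of_lipBump h
  obtain ⟨F, C, hC, hFc, hF0, hFpos, hlow, hbig, hd⟩ := exists_quadratic_like hr hL hsep
  obtain ⟨hSc, hSs, hSd⟩ := contDiff_sum_l2 (ι := ι) hC hFc hF0 hd
  set S : lp (fun _ : ι => X) 2 → ℝ := fun z => ∑' i, F (z i) with hS
  have hS0 : S 0 = 0 := by simp [hS, hF0]
  have hSbig : ∀ z, 1 ≤ ‖z‖ → 1 / 4 ≤ S z := by
    intro z hz
    by_cases hi : ∃ i, 1 ≤ ‖z i‖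
    · obtain ⟨i, hi⟩ := hi
      exact (hbig _ hi).trans ((hSs z).le_tsum i fun j _ => hFpos _)
    · push Not at hi
      have h1 : HasSum (fun i => ‖z i‖ ^ 2 / 4) (‖z‖ ^ 2 / 4) := (l2c_hasSum z).div_const 4
      have h2 : ‖z‖ ^ 2 / 4 ≤ S z := hasSum_le (fun i => hlow _ (hi i).le) h1 (hSs z).hasSum
      have h3 : (1 : ℝ) ≤ ‖z‖ ^ 2 := one_le_pow₀ hz
      linarith
  set θ : ContDiffBump (0 : ℝ) := ⟨1 / 8, 1 / 4, by norm_num, by norm_num⟩ with hθ
  have hθc : ContDiff ℝ 1 (θ : ℝ → ℝ) := θ.contDiff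
  obtain ⟨K, hK⟩ := hθc.lipschitzWith_of_hasCompactSupport θ.hasCompactSupport (by norm_num)
  have hθ0 : ∀ t : ℝ, 1 / 4 ≤ t → θ t = 0 := by
    intro t ht
    apply θ.zero_of_le_dist
    rw [dist_zero_right]
    exact ht.trans (le_abs_self t)
  have hθ1 : (θ : ℝ → ℝ) 0 = 1 := θ.one_of_mem_closedBall (by simp [hθ])
  have hbc : ContDiff ℝ 1 fun z => θ (S z) := hθc.comp hSc
  have hout : ∀ z, 1 ≤ ‖z‖ → θ (S z) = 0 := fun z hz => hθ0 _ (hSbig z hz)
  refine ⟨fun z => θ (S z), hbc, ?_, ⟨0, ?_⟩, ?_⟩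
  · refine ⟨⟨K * C, by positivity⟩, Lip.lipschitzWith (by positivity) ?_⟩
    apply lip_of_norm_fderiv_le (by positivity) hbc
    intro z
    by_cases hz : ‖z‖ < 1
    · apply norm_fderiv_le_of_lip' ℝ (by positivity)
      have hev : ∀ᶠ y in 𝓝 z, ‖y‖ < 1 := continuous_norm.continuousAt.eventually_lt_const hz
      filter_upwards [hev] with y hy
      have h1 := Convex.norm_image_sub_le_of_norm_fderiv_le (𝕜 := ℝ) (f := S) (C := C)
        (s := ball (0 : lp (fun _ : ι => X) 2) 1) (x := z) (y := y)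
        (fun w _ => hSc.differentiable (by norm_num) w)
        (fun w hw => (hSd w).trans (mul_le_of_le_one_right hC (by
          rw [mem_ball_zero_iff] at hw; exact hw.le)))
        (convex_ball _ _) (by simpa using hz) (by simpa using hy)
      have h2 := hK.dist_le_mul (S y) (S z)
      rw [dist_eq_norm, dist_eq_norm] at h2
      calc ‖θ (S y) - θ (S z)‖ ≤ K * ‖S y - S z‖ := h2
        _ ≤ K * (C * ‖y - z‖) := mul_le_mul_of_nonneg_left h1 K.2
        _ = K * C * ‖y - z‖ := by ring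
    · have hmin : IsLocalMin (fun z => θ (S z)) z := by
        refine Eventually.of_forall fun y => ?_
        change θ (S z) ≤ θ (S y)
        rw [hout z (not_lt.1 hz)]
        exact θ.nonneg
      rw [hmin.fderiv_eq_zero, norm_zero]
      positivity
  · change θ (S 0) ≠ 0
    rw [hS0, hθ1]
    norm_num
  · refine (isBounded_ball (x := (0 : lp (fun _ : ι => X) 2)) (r := 1)).subset ?_
    intro z hz
    rw [mem_ball_zero_iff]
    by_contra hcon
    exact Function.mem_support.1 hz (hout z (not_lt.1 hcon))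

end Sum

/-- Lipschitz bumps can be normalized. -/
theorem LipBump.normalize {E : Type u} [NormedAddCommGroup E] [NormedSpace ℝ E]
    (h : LipBump E) : ∃ f : E → ℝ, ContDiff ℝ 1 f ∧ LipschitzWith 1 f ∧ (∃ x, f x ≠ 0) ∧
      Bornology.IsBounded (Function.support f) := by
  obtain ⟨f, hf, ⟨K, hK⟩, ⟨x, hx⟩, hb⟩ := h
  have hK1 : (0 : ℝ) < (K : ℝ) + 1 := by positivity
  refine ⟨fun y => ((K : ℝ) + 1)⁻¹ * f y, contDiff_const.mul hf, ?_, ⟨x, ?_⟩, ?_⟩
  · apply LipschitzWith.of_dist_le_mul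
    intro y z
    have h1 := hK.dist_le_mul y z
    rw [Real.dist_eq] at h1
    rw [Real.dist_eq, ← mul_sub, abs_mul, abs_of_pos (inv_pos.2 hK1), NNReal.coe_one, one_mul,
      inv_mul_le_iff₀ hK1]
    have h2 := dist_nonneg (x := y) (y := z)
    nlinarith
  · exact mul_ne_zero (inv_ne_zero hK1.ne') hx
  · refine hb.subset fun y hy => ?_
    rw [Function.mem_support] at hy ⊢
    exact right_ne_zero_of_mul hy

/-- The space `X` is a coordinate of its `l2`-sums. -/
theorem lipBump_of_l2 {X : Type u} [NormedAddCommGroup X] [NormedSpace ℝ X] {ι : Type v}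
    (i : ι) (h : LipBump (lp (fun _ : ι => X) 2)) : LipBump X := by
  classical
  obtain ⟨f, hf, ⟨K, hK⟩, ⟨x0, hx0⟩, hb⟩ := h
  obtain ⟨R, hR⟩ := hb.subset_closedBall 0
  set j : X →L[ℝ] lp (fun _ : ι => X) 2 :=
    lp.singleContinuousLinearMap ℝ (fun _ : ι => X) 2 i with hj
  have hjn : ∀ x, ‖j x‖ = ‖x‖ := fun x =>
    lp.norm_single (E := fun _ : ι => X) (by norm_num) i x
  refine ⟨fun x => f (x0 + j x), hf.comp (contDiff_const.add j.contDiff), ⟨K, ?_⟩,
    ⟨0, by simpa using hx0⟩, ?_⟩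
  · apply LipschitzWith.of_dist_le_mul
    intro x y
    refine (hK.dist_le_mul _ _).trans (le_of_eq ?_)
    rw [dist_add_left, dist_eq_norm, ← map_sub, hjn, dist_eq_norm]
  · rw [isBounded_iff_subset_closedBall (0 : X)]
    refine ⟨R + ‖x0‖, fun x hx => ?_⟩
    have h1 := hR (Function.mem_support.2 (Function.mem_support.1 hx))
    rw [mem_closedBall_zero_iff] at h1
    have h2 := norm_sub_norm_le (j x) (-x0)
    rw [norm_neg, sub_neg_eq_add, add_comm (j x), hjn] at h2
    rw [mem_closedBall_zero_iff]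
    linarith

end Pool.C1B
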