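import Pool.Agent.C1B.Defs

/-!
# Separability of duals: small lemmas
-/

set_option autoImplicit false

namespace Pool.C1B

open TopologicalSpace Filter Topology

universe u v

/-- Restriction of functionals to a smaller subspace. -/
theorem sep_dual_of_le {E : Type*} [NormedAddCommGroup E] [NormedSpace ℝ E]
    {F G : Submodule ℝ E} (hFG : F ≤ G) (hG : SeparableSpace (G →L[ℝ] ℝ)) :
    SeparableSpace (F →L[ℝ] ℝ) := by
  haveI := hG
  set ι : F →L[ℝ] G := (F.subtypeL).codRestrict G (fun x => hFG x.2) with hι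
  set R : (G →L[ℝ] ℝ) → (F →L[ℝ] ℝ) := fun φ => φ.comp ι with hR
  have hRc : Continuous R := by
    have : R = (ContinuousLinearMap.compL ℝ F G ℝ).flip ι := by
      ext φ x; simp [hR]
    rw [this]
    exact ContinuousLinearMap.continuous _
  have hRs : Function.Surjective R := by
    intro φ
    obtain ⟨ψ, hψ, _⟩ := exists_extension_norm_eq F φ
    refine ⟨ψ.comp G.subtypeL, ?_⟩
    ext x
    simp only [hR, ContinuousLinearMap.comp_apply, Submodule.subtypeL_apply]
    exact hψ x
  exact (hRs.denseRange).separableSpace hRc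

/-- A map dominated by a map with separable range has separable range. -/
theorem isSeparable_range_of_dist_le {K A B : Type*} [PseudoMetricSpace A] [PseudoMetricSpace B]
    (f : K → A) (g : K → B) (C : ℝ) (h : ∀ k l, dist (g k) (g l) ≤ C * dist (f k) (f l))
    (hf : IsSeparable (Set.range f)) : IsSeparable (Set.range g) := by
  obtain ⟨s, hs, hsc, hcl⟩ := hf.exists_countable_dense_subset
  have hch : ∀ a : s, ∃ k, f k = a := fun a => hs a.2
  choose k hk using hch
  haveI : Countable s := hsc.to_subtype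
  refine ⟨Set.range (fun a : s => g (k a)), Set.countable_range _, ?_⟩
  rintro _ ⟨l, rfl⟩
  rw [Metric.mem_closure_iff]
  intro ε hε
  have hl := hcl ⟨l, rfl⟩
  rw [Metric.mem_closure_iff] at hl
  obtain ⟨a, ha, hd⟩ := hl (ε / (|C| + 1)) (by positivity)
  refine ⟨g (k ⟨a, ha⟩), ⟨⟨a, ha⟩, rfl⟩, ?_⟩
  have h1 := h l (k ⟨a, ha⟩)
  rw [hk ⟨a, ha⟩] at h1
  have h2 : C * dist (f l) a ≤ (|C| + 1) * dist (f l) a :=
    mul_le_mul_of_nonneg_right ((le_abs_self C).trans (by linarith)) dist_nonneg
  have h3 : (|C| + 1) * dist (f l) a < ε := by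
    rw [lt_div_iff₀ (by positivity)] at hd
    linarith
  change dist (g l) (g (k ⟨a, ha⟩)) < ε
  have h4 : C * dist (f l) ((⟨a, ha⟩ : s) : A) ≤ (|C| + 1) * dist (f l) a := h2
  linarith

/-- The span of a separable set is separable, so its dual is separable in an Asplund space. -/
theorem Asplund.dual_span {E : Type u} [NormedAddCommGroup E] [NormedSpace ℝ E] (h : Asplund E)
    (S : Set E) (hS : IsSeparable S) : SeparableSpace (Submodule.span ℝ S →L[ℝ] ℝ) :=
  h _ (hS.span (R := ℝ))

end Pool.C1B
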