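import Mathlib

/-!
# A boundary criterion for separability of the dual (Simons, Godefroy)

If a norm separable set `B` of functionals of norm at most one contains, for every vector `w` of a
Banach space `W`, a functional attaining its norm at `w`, then the dual of `W` is separable.
-/

set_option autoImplicit false

namespace Pool.C1B

open TopologicalSpace Filter Topology

theorem dyadic_mem {W : Type*} [NormedAddCommGroup W] [NormedSpace ℝ W] {A : Set W}
    (hA : Convex ℝ A) (a : ℕ → W) (ha : ∀ i, a i ∈ A) (N : ℕ) :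
    ∀ b ∈ A, (∑ i ∈ Finset.range N, (2⁻¹ : ℝ) ^ (i + 1) • a i) + (2⁻¹ : ℝ) ^ N • b ∈ A := by
  induction N with
  | zero => simp
  | succ N ih =>
    intro b hb
    have h1 : (2⁻¹ : ℝ) • a N + (2⁻¹ : ℝ) • b ∈ A :=
      hA (ha N) hb (by norm_num) (by norm_num) (by norm_num)
    have h2 := ih _ h1
    rw [smul_add, smul_smul, smul_smul] at h2
    rw [Finset.sum_range_succ]
    have e1 : (2⁻¹ : ℝ) ^ N * 2⁻¹ = (2⁻¹ : ℝ) ^ (N + 1) := by ring
    rw [e1, ← add_assoc] at h2
    exact h2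

theorem dyadic_hasSum_mem {W : Type*} [NormedAddCommGroup W] [NormedSpace ℝ W] {A : Set W}
    (hA : Convex ℝ A) (hc : IsClosed A) (a : ℕ → W) (ha : ∀ i, a i ∈ A) {s : W}
    (hs : Tendsto (fun N => ∑ i ∈ Finset.range N, (2⁻¹ : ℝ) ^ (i + 1) • a i) atTop (𝓝 s)) :
    s ∈ A := by
  have h1 : Tendsto (fun N : ℕ => (2⁻¹ : ℝ) ^ N • a 0) atTop (𝓝 0) := by
    have := (tendsto_pow_atTop_nhds_zero_of_lt_one (r := (2⁻¹ : ℝ)) (by norm_num)
      (by norm_num)).smul_const (a 0)
    simpa using this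
  have h2 := hs.add h1
  rw [add_zero] at h2
  exact hc.mem_of_tendsto h2 (Eventually.of_forall fun N => dyadic_mem hA a ha N _ (ha 0))

/-- Simons' inequality in the form used here. -/
theorem simons_seq {W : Type*} [NormedAddCommGroup W] [NormedSpace ℝ W] [CompleteSpace W]
    (B : Set (W →L[ℝ] ℝ)) (hB : ∀ e ∈ B, ‖e‖ ≤ 1) (hatt : ∀ w : W, ∃ e ∈ B, e w = ‖w‖)
    (w : ℕ → W) (hw : ∀ n, ‖w n‖ ≤ 1) (c : ℝ) (hc : 0 < c)
    (hlow : ∀ v ∈ closure (convexHull ℝ (Set.range w)), c ≤ ‖v‖) :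
    ∃ e ∈ B, ¬ Tendsto (fun n => e (w n)) atTop (𝓝 0) := by
  classical
  set A : ℕ → Set W := fun m => closure (convexHull ℝ (w '' {n | m ≤ n})) with hAdef
  have hAconv : ∀ m, Convex ℝ (A m) := fun m => (convex_convexHull ℝ _).closure
  have hAcl : ∀ m, IsClosed (A m) := fun m => isClosed_closure
  have hAmono : ∀ m n, m ≤ n → A n ⊆ A m := by
    intro m n hmn
    apply closure_mono
    apply convexHull_mono
    apply Set.image_mono
    intro k hk
    exact le_trans hmn hk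
  have hA1 : ∀ m, ∀ v ∈ A m, ‖v‖ ≤ 1 := by
    intro m v hv
    have : A m ⊆ Metric.closedBall (0 : W) 1 := by
      apply closure_minimal _ Metric.isClosed_closedBall
      apply convexHull_min _ (convex_closedBall _ _)
      rintro _ ⟨n, _, rfl⟩
      simpa using hw n
    simpa using this hv
  have hAne : ∀ m, (A m).Nonempty := fun m =>
    ⟨w m, subset_closure (subset_convexHull ℝ _ ⟨m, le_refl m, rfl⟩)⟩
  have hA0 : ∀ m, A m ⊆ closure (convexHull ℝ (Set.range w)) := by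
    intro m
    apply closure_mono
    apply convexHull_mono
    exact Set.image_subset_range _ _
  -- the choice of nearly optimal vectors
  have hG : ∀ (m : ℕ) (h : W), ∃ g ∈ A m, ∀ t ∈ A m,
      ‖h + (2⁻¹ : ℝ) ^ m • g‖ ≤ ‖h + (2⁻¹ : ℝ) ^ m • t‖ + c / 4 * (4⁻¹ : ℝ) ^ m := by
    intro m h
    have hpos : 0 < c / 4 * (4⁻¹ : ℝ) ^ m := by positivity
    set S : Set ℝ := (fun g => ‖h + (2⁻¹ : ℝ) ^ m • g‖) '' A m with hS
    have hSne : S.Nonempty := (hAne m).image _
    have hSb : BddBelow S := ⟨0, by rintro _ ⟨g, _, rfl⟩; exact norm_nonneg _⟩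
    obtain ⟨_, ⟨g, hg, rfl⟩, hlt⟩ := exists_lt_of_csInf_lt hSne
      (lt_add_of_pos_right (sInf S) hpos)
    refine ⟨g, hg, fun t ht => ?_⟩
    have := csInf_le hSb ⟨t, ht, rfl⟩
    linarith
  choose G hGA hGopt using hG
  set H : ℕ → W := fun m => Nat.rec (0 : W)
    (fun m h => h + (2⁻¹ : ℝ) ^ (m + 1) • G m h) m with hH
  have hH0 : H 0 = 0 := rfl
  have hHs : ∀ m, H (m + 1) = H m + (2⁻¹ : ℝ) ^ (m + 1) • G m (H m) := fun m => rfl
  set g : ℕ → W := fun m => G m (H m) with hg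
  have hHsum : ∀ m, H m = ∑ i ∈ Finset.range m, (2⁻¹ : ℝ) ^ (i + 1) • g i := by
    intro m
    induction m with
    | zero => simp [hH0]
    | succ m ih => rw [Finset.sum_range_succ, ← ih, hHs]
  have hgA : ∀ m, g m ∈ A m := fun m => hGA m _
  have hgn : ∀ m, ‖g m‖ ≤ 1 := fun m => hA1 m _ (hgA m)
  have hsumm : Summable fun i => (2⁻¹ : ℝ) ^ (i + 1) • g i := by
    apply Summable.of_norm_bounded (g := fun i => (2⁻¹ : ℝ) ^ (i + 1))
    · have := (summable_geometric_of_lt_one (r := (2⁻¹ : ℝ)) (by norm_num) (by norm_num))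
      exact (summable_nat_add_iff 1).2 this
    · intro i
      rw [norm_smul, Real.norm_of_nonneg (by positivity)]
      exact mul_le_of_le_one_right (by positivity) (hgn i)
  obtain ⟨h, hh⟩ := hsumm
  have hht : Tendsto H atTop (𝓝 h) := by
    have := hh.tendsto_sum_nat
    refine this.congr fun m => (hHsum m).symm
  set t : ℕ → W := fun m => (2 : ℝ) ^ m • (h - H m) with ht
  have ht2 : ∀ m, h = H m + (2⁻¹ : ℝ) ^ m • t m := by
    intro m
    simp only [ht, smul_smul]
    rw [← mul_pow]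
    norm_num
  have htA : ∀ m, t m ∈ A m := by
    intro m
    apply dyadic_hasSum_mem (hAconv m) (hAcl m) (fun i => g (m + i))
      (fun i => hAmono m (m + i) (Nat.le_add_right _ _) (hgA _))
    have h1 : Tendsto (fun N => (2 : ℝ) ^ m • (H (m + N) - H m)) atTop (𝓝 (t m)) := by
      apply Tendsto.const_smul
      apply Tendsto.sub_const
      exact hht.comp (tendsto_add_atTop_nat m |>.congr fun N => by rw [add_comm])
    refine h1.congr fun N => ?_
    rw [hHsum (m + N), hHsum m, Finset.sum_range_add, add_sub_cancel_left, Finset.smul_sum]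
    apply Finset.sum_congr rfl
    intro i _
    rw [smul_smul]
    congr 1
    rw [show m + i + 1 = m + (i + 1) by ring, pow_add, ← mul_assoc, ← mul_pow]
    norm_num
  have ht0 : t 0 = h := by simp [ht, hH0]
  have htrec : ∀ m, t m = (2⁻¹ : ℝ) • g m + (2⁻¹ : ℝ) • t (m + 1) := by
    intro m
    simp only [ht, smul_smul]
    rw [hHs m, pow_succ]
    have e1 : (2⁻¹ : ℝ) * (2 ^ m * 2) = 2 ^ m := by ring
    rw [e1]
    simp only [smul_sub, smul_add, smul_smul]
    have e2 : (2 : ℝ) ^ m * 2⁻¹ ^ (m + 1) = 2⁻¹ := by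
      rw [pow_succ, ← mul_assoc, ← mul_pow]; norm_num
    rw [e2]
    simp only [hg]
    abel
  obtain ⟨e, heB, he⟩ := hatt h
  refine ⟨e, heB, fun hten => ?_⟩
  have hen : ∀ v, e v ≤ ‖v‖ := fun v =>
    (le_abs_self _).trans ((e.le_opNorm v).trans
      (mul_le_of_le_one_left (norm_nonneg _) (hB e heB)))
  have hstep : ∀ m, e (t m) ≤ e (t (m + 1)) + c / 4 * (2⁻¹ : ℝ) ^ m := by
    intro m
    have h1 : e (H m + (2⁻¹ : ℝ) ^ m • g m) ≤ ‖h‖ + c / 4 * (4⁻¹ : ℝ) ^ m := by
      refine (hen _).trans ?_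
      have := hGopt m (H m) (t m) (htA m)
      rw [← ht2 m] at this
      exact this
    rw [← he, ht2 m, map_add, map_add, map_smul, map_smul] at h1
    simp only [smul_eq_mul] at h1
    have h2 : e (t m) = 2⁻¹ * e (g m) + 2⁻¹ * e (t (m + 1)) := by
      rw [htrec m, map_add, map_smul, map_smul]; rfl
    have h3 : (2⁻¹ : ℝ) ^ m * e (g m) ≤ (2⁻¹ : ℝ) ^ m * (e (t m) + c / 4 * (2⁻¹ : ℝ) ^ m) := by
      have e3 : (2⁻¹ : ℝ) ^ m * (e (t m) + c / 4 * (2⁻¹ : ℝ) ^ m)
          = (2⁻¹ : ℝ) ^ m * e (t m) + c / 4 * (4⁻¹ : ℝ) ^ m := by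
        have : (4⁻¹ : ℝ) ^ m = (2⁻¹ : ℝ) ^ m * (2⁻¹ : ℝ) ^ m := by
          rw [← mul_pow]; norm_num
        rw [this]; ring
      rw [e3]
      linarith
    have h4 := le_of_mul_le_mul_left h3 (by positivity)
    linarith
  have hsum : ∀ m, e (t 0) ≤ e (t m) + c / 2 * (1 - (2⁻¹ : ℝ) ^ m) := by
    intro m
    induction m with
    | zero => simp
    | succ m ih =>
      have := hstep m
      have e4 : (2⁻¹ : ℝ) ^ (m + 1) = 2⁻¹ * (2⁻¹ : ℝ) ^ m := by ring
      rw [e4]
      linarith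
  have hc1 : c ≤ e (t 0) := by
    rw [ht0, he]
    exact hlow h (hA0 0 (ht0 ▸ htA 0))
  have hev : ∀ᶠ n in atTop, e (w n) < c / 4 := hten.eventually_lt_const (by linarith)
  obtain ⟨m, hm⟩ := eventually_atTop.1 hev
  have hAm : A m ⊆ {v | e v ≤ c / 4} := by
    apply closure_minimal _ (isClosed_le e.continuous continuous_const)
    apply convexHull_min _ (convex_halfSpace_le e.toLinearMap.isLinear _)
    rintro _ ⟨n, hn, rfl⟩
    exact (hm n hn).le
  have h5 : e (t m) ≤ c / 4 := hAm (htA m)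
  have h6 := hsum m
  have h7 : 0 < (2⁻¹ : ℝ) ^ m := by positivity
  nlinarith

/-- **Godefroy's boundary criterion** (via Simons' inequality). -/
theorem simons {W : Type*} [NormedAddCommGroup W] [NormedSpace ℝ W] [CompleteSpace W]
    (B : Set (W →L[ℝ] ℝ)) (hsep : IsSeparable B) (hB : ∀ e ∈ B, ‖e‖ ≤ 1)
    (hatt : ∀ w : W, ∃ e ∈ B, e w = ‖w‖) : SeparableSpace (W →L[ℝ] ℝ) := by
  classical
  by_contra hns
  -- a functional at positive distance from the span of `B`
  have h1 : ∃ φ : W →L[ℝ] ℝ, φ ∉ closure ((Submodule.span ℝ B : Submodule ℝ (W →L[ℝ] ℝ)) :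
      Set (W →L[ℝ] ℝ)) := by
    by_contra hcon
    push Not at hcon
    apply hns
    have h2 : IsSeparable (closure ((Submodule.span ℝ B : Submodule ℝ (W →L[ℝ] ℝ)) :
      Set (W →L[ℝ] ℝ))) := (hsep.span (R := ℝ)).closure
    rw [Set.eq_univ_of_forall hcon] at h2
    exact isSeparable_univ_iff.1 h2
  obtain ⟨φ, hφ⟩ := h1
  rw [Metric.mem_closure_iff] at hφ
  push Not at hφ
  obtain ⟨d, hd, hdist⟩ := hφ
  obtain ⟨s, hsB, hsc, hBs⟩ := hsep.exists_countable_dense_subset
  have hsne : s.Nonempty := by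
    obtain ⟨e, he, _⟩ := hatt 0
    rw [← closure_nonempty_iff]
    exact ⟨e, hBs he⟩
  obtain ⟨e, rfl⟩ := hsc.exists_eq_range hsne
  have hw : ∀ n : ℕ, ∃ w : W, (∀ k < n, e k w = 0) ∧ ‖w‖ ≤ 1 ∧ d / 2 < φ w := by
    intro n
    by_contra hcon
    push Not at hcon
    set V : Submodule ℝ W := ⨅ k : Fin n, LinearMap.ker ((e k : W →L[ℝ] ℝ) : W →ₗ[ℝ] ℝ) with hV
    have hVm : ∀ x : W, x ∈ V ↔ ∀ k < n, e k x = 0 := by
      intro x
      simp only [hV, Submodule.mem_iInf, LinearMap.mem_ker]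
      exact ⟨fun h k hk => h ⟨k, hk⟩, fun h k => h k k.2⟩
    have hle : ∀ x ∈ V, φ x ≤ d / 2 * ‖x‖ := by
      intro x hx
      rcases eq_or_ne x 0 with rfl | hx0
      · simp
      · have hx1 : 0 < ‖x‖ := norm_pos_iff.2 hx0
        have := hcon (‖x‖⁻¹ • x) (fun k hk => by rw [map_smul, (hVm x).1 hx k hk, smul_zero])
          (by rw [norm_smul, norm_inv, norm_norm, inv_mul_cancel₀ hx1.ne'])
        rw [map_smul, smul_eq_mul, inv_mul_le_iff₀ hx1] at this
        linarith
    obtain ⟨ψ, hψ1, hψ2⟩ := exists_extension_norm_eq V (φ.comp V.subtypeL)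
    have hψn : ‖ψ‖ ≤ d / 2 := by
      rw [hψ2]
      refine ContinuousLinearMap.opNorm_le_bound _ (by linarith) fun x => ?_
      rw [Real.norm_eq_abs, abs_le]
      have a1 := hle x x.2
      have a2 := hle (-x : V) (-x : V).2
      simp only [ContinuousLinearMap.comp_apply, Submodule.subtypeL_apply] at *
      rw [Submodule.coe_neg, map_neg, norm_neg] at a2
      rw [Submodule.coe_norm]
      constructor <;> linarith
    have hker : ⨅ k : Fin n, LinearMap.ker ((e k : W →L[ℝ] ℝ) : W →ₗ[ℝ] ℝ)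
        ≤ LinearMap.ker ((φ - ψ : W →L[ℝ] ℝ) : W →ₗ[ℝ] ℝ) := by
      intro x hx
      have := hψ1 ⟨x, hx⟩
      simp only [ContinuousLinearMap.comp_apply, Submodule.subtypeL_apply] at this
      simp [this]
    have hspan := mem_span_of_iInf_ker_le_ker hker
    rw [Submodule.mem_span_range_iff_exists_fun] at hspan
    obtain ⟨a, ha⟩ := hspan
    have hmem : (φ - ψ) ∈ Submodule.span ℝ (Set.range e) := by
      have : φ - ψ = ∑ k : Fin n, a k • e k := by
        ext x
        have := congrArg (fun L : W →ₗ[ℝ] ℝ => L x) ha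
        simp only [LinearMap.sum_apply, LinearMap.smul_apply] at this
        rw [sum_apply]
        simpa using this.symm
      rw [this]
      exact Submodule.sum_mem _ fun k _ => Submodule.smul_mem _ _
        (Submodule.subset_span ⟨k, rfl⟩)
    have hmem2 : (φ - ψ) ∈ Submodule.span ℝ B := Submodule.span_mono hsB hmem
    have := hdist _ hmem2
    rw [dist_eq_norm, sub_sub_cancel] at this
    linarith
  choose w hw0 hw1 hw2 using hw
  have hφ0 : 0 < ‖φ‖ := by
    have h3 := (hw2 0).trans_le ((le_abs_self _).trans (φ.le_opNorm (w 0)))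
    by_contra hcon
    have : ‖φ‖ = 0 := le_antisymm (not_lt.1 hcon) (norm_nonneg _)
    rw [this, zero_mul] at h3
    linarith
  obtain ⟨f, hfB, hf⟩ := simons_seq B hB hatt w hw1 (d / 2 / ‖φ‖) (by positivity) (by
    intro v hv
    have h4 : closure (convexHull ℝ (Set.range w)) ⊆ {v | d / 2 ≤ φ v} := by
      apply closure_minimal _ (isClosed_le continuous_const φ.continuous)
      apply convexHull_min _ (convex_halfSpace_ge φ.toLinearMap.isLinear _)
      rintro _ ⟨n, rfl⟩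
      exact (hw2 n).le
    rw [div_le_iff₀ hφ0, mul_comm]
    exact (h4 hv).trans ((le_abs_self _).trans (φ.le_opNorm v)))
  apply hf
  rw [Metric.tendsto_atTop]
  intro ε hε
  have hfc := hBs hfB
  rw [Metric.mem_closure_iff] at hfc
  obtain ⟨_, ⟨k, rfl⟩, hk⟩ := hfc (ε / 2) (by linarith)
  refine ⟨k + 1, fun n hn => ?_⟩
  rw [dist_zero_right, Real.norm_eq_abs]
  have h5 : f (w n) = (f - e k) (w n) := by
    rw [sub_apply, hw0 n k (by omega), sub_zero]
  rw [h5]
  have h6 := (f - e k).le_opNorm (w n)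
  rw [dist_eq_norm] at hk
  have h7 : ‖f - e k‖ * ‖w n‖ ≤ ‖f - e k‖ := mul_le_of_le_one_right (norm_nonneg _) (hw1 n)
  rw [Real.norm_eq_abs] at h6
  linarith

end Pool.C1B
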