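import Pool.Agent.C1B.SepLem
import Pool.Agent.C1B.Simons

/-!
# The symmetric injective tensor square of an Asplund space is Asplund

For a normed space `X` let `K` be the closed unit ball of the dual with the weak-star topology
and let `sq x` be the function `γ ↦ (γ x)^2` on `K`.  The closed linear span `SqSpace X` of all
`sq x` in `C(K, ℝ)` is (an isometric copy of) the symmetric injective tensor square of `X`.
If `X` is Asplund then so is `SqSpace X`, and `x ↦ sq x` is a `C^1` map with `‖sq x‖ = ‖x‖^2`.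
-/

set_option autoImplicit false

namespace Pool.C1B

open TopologicalSpace Filter Topology

universe u v

/-- A separable subset of the closed span of a family lies in the closed span of a countable
subfamily. -/
theorem exists_countable_index {V ι : Type*} [NormedAddCommGroup V] [NormedSpace ℝ V] (s : ι → V)
    (T : Set V) (hT : IsSeparable T)
    (hTS : T ⊆ closure ((Submodule.span ℝ (Set.range s) : Submodule ℝ V) : Set V)) :
    ∃ J : Set ι, J.Countable ∧
      T ⊆ closure ((Submodule.span ℝ (s '' J) : Submodule ℝ V) : Set V) := by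
  obtain ⟨t, htT, htc, hcl⟩ := hT.exists_countable_dense_subset
  have ht0 : Countable t := htc.to_subtype
  have h1 : ∀ p : t × ℕ, ∃ A : Finset ι, ∃ v ∈ Submodule.span ℝ (s '' (A : Set ι)),
      dist (p.1 : V) v < 1 / ((p.2 : ℝ) + 1) := by
    intro p
    have h2 := hTS (htT p.1.2)
    rw [Metric.mem_closure_iff] at h2
    obtain ⟨v, hv, hd⟩ := h2 (1 / ((p.2 : ℝ) + 1)) (by positivity)
    obtain ⟨c, hc⟩ := (Finsupp.mem_span_range_iff_exists_finsupp).1 hv
    refine ⟨c.support, v, ?_, hd⟩
    rw [← hc]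
    exact Submodule.sum_mem _ fun i hi =>
      Submodule.smul_mem _ _ (Submodule.subset_span ⟨i, hi, rfl⟩)
  choose A v hv hd using h1
  refine ⟨⋃ p, (A p : Set ι), Set.countable_iUnion fun p => (A p).countable_toSet, ?_⟩
  have h3 : t ⊆ closure ((Submodule.span ℝ (s '' (⋃ p, (A p : Set ι))) : Submodule ℝ V) :
      Set V) := by
    intro u hu
    rw [Metric.mem_closure_iff]
    intro ε hε
    obtain ⟨n, hn⟩ := exists_nat_one_div_lt hε
    refine ⟨v (⟨u, hu⟩, n), ?_, (hd (⟨u, hu⟩, n)).trans hn⟩
    exact Submodule.span_mono (Set.image_mono (Set.subset_iUnion _ (⟨u, hu⟩, n))) (hv _)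
  exact hcl.trans (closure_minimal h3 isClosed_closure)

/-- The dual unit ball with the weak-star topology. -/
abbrev DBall (X : Type u) [NormedAddCommGroup X] [NormedSpace ℝ X] : Set (WeakDual ℝ X) :=
  WeakDual.toStrongDual ⁻¹' Metric.closedBall (0 : StrongDual ℝ X) 1

instance (X : Type u) [NormedAddCommGroup X] [NormedSpace ℝ X] : CompactSpace (DBall X) :=
  isCompact_iff_compactSpace.1 (WeakDual.isCompact_closedBall (0 : StrongDual ℝ X) 1)

section

variable {X : Type u} [NormedAddCommGroup X] [NormedSpace ℝ X]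

/-- The functional (with its norm) belonging to a point of the weak-star ball. -/
noncomputable def toD (γ : DBall X) : StrongDual ℝ X := WeakDual.toStrongDual (γ : WeakDual ℝ X)

theorem norm_toD_le (γ : DBall X) : ‖toD γ‖ ≤ 1 := by
  have := γ.2
  simp only [Set.mem_preimage, mem_closedBall_zero_iff] at this
  exact this

/-- The point of the weak-star ball belonging to a functional of norm at most one. -/
noncomputable def ofD (φ : StrongDual ℝ X) (h : ‖φ‖ ≤ 1) : DBall X :=
  ⟨StrongDual.toWeakDual φ, by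
    simp only [Set.mem_preimage, mem_closedBall_zero_iff]
    exact h⟩

@[simp] theorem toD_ofD (φ : StrongDual ℝ X) (h : ‖φ‖ ≤ 1) : toD (ofD φ h) = φ := rfl

theorem continuous_toD_apply (x : X) : Continuous fun γ : DBall X => toD γ x :=
  (WeakDual.eval_continuous x).comp continuous_subtype_val

/-- Evaluation at `x`, as a continuous function on the weak-star ball. -/
noncomputable def evalC (x : X) : C(DBall X, ℝ) := ⟨fun γ => toD γ x, continuous_toD_apply x⟩

@[simp] theorem evalC_apply (x : X) (γ : DBall X) : evalC x γ = toD γ x := rfl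

theorem evalC_add (x y : X) : evalC (x + y) = evalC x + evalC y := by
  ext γ; simp

theorem evalC_smul (c : ℝ) (x : X) : evalC (c • x) = c • evalC x := by
  ext γ; simp

theorem norm_evalC_le (x : X) : ‖evalC x‖ ≤ ‖x‖ := by
  rw [ContinuousMap.norm_le _ (norm_nonneg _)]
  intro γ
  exact ((toD γ).le_opNorm x).trans (mul_le_of_le_one_left (norm_nonneg _) (norm_toD_le γ))

/-- The square of the evaluation. -/
noncomputable def sq (x : X) : C(DBall X, ℝ) := evalC x * evalC x

@[simp] theorem sq_apply (x : X) (γ : DBall X) : sq x γ = toD γ x * toD γ x := rfl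

theorem norm_sq (x : X) : ‖sq x‖ = ‖x‖ ^ 2 := by
  apply le_antisymm
  · rw [sq, pow_two]
    exact (norm_mul_le _ _).trans (mul_le_mul (norm_evalC_le x) (norm_evalC_le x)
      (norm_nonneg _) (norm_nonneg _))
  · obtain ⟨φ, hφ, hx⟩ := exists_dual_vector'' ℝ x
    have h1 := ContinuousMap.norm_coe_le_norm (sq x) (ofD φ hφ)
    rw [sq_apply, toD_ofD, hx] at h1
    simp only [RCLike.ofReal_real_eq_id, id_eq] at h1
    rw [Real.norm_of_nonneg (by positivity)] at h1
    rw [pow_two]
    exact h1

end

/-- The closed span of the squares. -/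
noncomputable def SqSub (X : Type u) [NormedAddCommGroup X] [NormedSpace ℝ X] :
    Submodule ℝ C(DBall X, ℝ) :=
  (Submodule.span ℝ (Set.range (sq (X := X)))).topologicalClosure

section

variable {X : Type u} [NormedAddCommGroup X] [NormedSpace ℝ X]

theorem isClosed_SqSub : IsClosed ((SqSub X : Submodule ℝ C(DBall X, ℝ)) : Set C(DBall X, ℝ)) :=
  Submodule.isClosed_topologicalClosure _

instance : CompleteSpace (SqSub X) := isClosed_SqSub.completeSpace_coe

theorem sq_mem (x : X) : sq x ∈ SqSub X :=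
  Submodule.le_topologicalClosure _ (Submodule.subset_span ⟨x, rfl⟩)

theorem mul_mem (x y : X) : evalC x * evalC y ∈ SqSub X := by
  have h : evalC x * evalC y = (4⁻¹ : ℝ) • (sq (x + y) - sq (x - y)) := by
    ext γ
    simp only [ContinuousMap.mul_apply, evalC_apply, ContinuousMap.smul_apply,
      ContinuousMap.sub_apply, sq_apply, map_add, map_sub, smul_eq_mul]
    ring
  rw [h]
  exact Submodule.smul_mem _ _ (Submodule.sub_mem _ (sq_mem _) (sq_mem _))

/-- The closed span of the squares, as a normed space. -/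
def SqSpace (X : Type u) [NormedAddCommGroup X] [NormedSpace ℝ X] : Type u := SqSub X

noncomputable instance : NormedAddCommGroup (SqSpace X) :=
  inferInstanceAs (NormedAddCommGroup (SqSub X))

noncomputable instance : NormedSpace ℝ (SqSpace X) :=
  inferInstanceAs (NormedSpace ℝ (SqSub X))

instance : CompleteSpace (SqSpace X) := isClosed_SqSub.completeSpace_coe

/-- The isometric embedding into `C(K, ℝ)`. -/
noncomputable def toC : SqSpace X →ₗᵢ[ℝ] C(DBall X, ℝ) := (SqSub X).subtypeₗᵢ

/-- An element of `SqSpace X` from an element of `SqSub X`. -/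
noncomputable def mkS (f : C(DBall X, ℝ)) (hf : f ∈ SqSub X) : SqSpace X := ⟨f, hf⟩

@[simp] theorem toC_mkS (f : C(DBall X, ℝ)) (hf : f ∈ SqSub X) : toC (mkS f hf) = f := rfl

theorem toC_mem (z : SqSpace X) : toC z ∈ SqSub X := by
  have h : ∀ z : SqSub X, ((SqSub X).subtypeₗᵢ z) ∈ SqSub X := fun z => z.2
  exact h z

theorem isClosedEmbedding_toC : IsClosedEmbedding (toC : SqSpace X → C(DBall X, ℝ)) :=
  isClosed_SqSub.isClosedEmbedding_subtypeVal

/-- The bilinear map `(x, y) ↦ evalC x * evalC y` into `SqSpace X`. -/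
noncomputable def bil : X →L[ℝ] X →L[ℝ] SqSpace X :=
  LinearMap.mkContinuous₂
    (LinearMap.mk₂ ℝ (fun x y : X => mkS (evalC x * evalC y) (mul_mem x y))
      (by intro x x' y; apply toC.injective; simp [evalC_add, add_mul])
      (by intro c x y; apply toC.injective; simp [evalC_smul])
      (by intro x y y'; apply toC.injective; simp [evalC_add, mul_add])
      (by intro c x y; apply toC.injective; simp [evalC_smul])) 1
    (by
      intro x y
      rw [one_mul, LinearMap.mk₂_apply, ← toC.norm_map, toC_mkS]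
      refine (norm_mul_le (evalC x) (evalC y)).trans ?_
      exact mul_le_mul (norm_evalC_le x) (norm_evalC_le y) (norm_nonneg _) (norm_nonneg _))

theorem toC_bil (x y : X) : toC (bil x y) = evalC x * evalC y := rfl

/-- The quadratic map. -/
noncomputable def Phi (x : X) : SqSpace X := bil x x

theorem toC_Phi (x : X) : toC (Phi x) = sq x := rfl

theorem norm_Phi (x : X) : ‖Phi x‖ = ‖x‖ ^ 2 := by
  rw [← toC.norm_map, toC_Phi, norm_sq]

theorem contDiff_Phi : ContDiff ℝ 1 (Phi (X := X)) := by
  have h : ContDiff ℝ 1 (fun x : X => bil x x) :=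
    ContDiff.clm_apply (f := fun x : X => bil x) (g := fun x : X => x)
      (bil (X := X)).contDiff contDiff_id
  exact h

/-- The quadratic form on the dual given by a finite combination of squares. -/
theorem exists_quad (J : Set X) (w : C(DBall X, ℝ)) (hw : w ∈ Submodule.span ℝ (sq '' J)) :
    ∃ l : X →₀ ℝ, (l.support : Set X) ⊆ J ∧
      ∀ γ : DBall X, w γ = ∑ x ∈ l.support, l x * (toD γ x * toD γ x) := by
  rw [Finsupp.mem_span_image_iff_linearCombination] at hw
  obtain ⟨l, hl, rfl⟩ := hw
  refine ⟨l, (Finsupp.mem_supported ℝ l).1 hl, fun γ => ?_⟩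
  rw [Finsupp.linearCombination_apply, Finsupp.sum, ContinuousMap.sum_apply]
  apply Finset.sum_congr rfl
  intro x _
  simp

/-- Key estimate on the span. -/
theorem key_span (J : Set X) (w : C(DBall X, ℝ)) (hw : w ∈ Submodule.span ℝ (sq '' J))
    (γ γ' : DBall X) :
    |w γ - w γ'| ≤ ‖w‖ * (4 * ‖(toD γ - toD γ').comp (Submodule.span ℝ J).subtypeL‖) := by
  obtain ⟨l, hl, hlw⟩ := exists_quad J w hw
  set G : Submodule ℝ X := Submodule.span ℝ J with hG
  -- the quadratic form on the whole dual
  set Q : StrongDual ℝ X → ℝ := fun η => ∑ x ∈ l.support, l x * (η x * η x) with hQ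
  have hQ1 : ∀ η : StrongDual ℝ X, ‖η‖ ≤ 1 → |Q η| ≤ ‖w‖ := by
    intro η hη
    have h1 : Q η = w (ofD η hη) := (hlw (ofD η hη)).symm
    rw [h1]
    exact ContinuousMap.norm_coe_le_norm w _
  have hQ2 : ∀ η : StrongDual ℝ X, ‖η‖ ≤ 2 → |Q η| ≤ 4 * ‖w‖ := by
    intro η hη
    have h1 : Q η = 4 * Q ((2⁻¹ : ℝ) • η) := by
      simp only [hQ, Finset.mul_sum]
      apply Finset.sum_congr rfl
      intro x _
      simp only [smul_apply, smul_eq_mul]
      ring
    have h2 : ‖(2⁻¹ : ℝ) • η‖ ≤ 1 := by
      rw [norm_smul, Real.norm_of_nonneg (by norm_num)]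
      linarith
    rw [h1, abs_mul, abs_of_nonneg (by norm_num : (0 : ℝ) ≤ 4)]
    exact mul_le_mul_of_nonneg_left (hQ1 _ h2) (by norm_num)
  -- the bilinear form for two functionals of norm at most one
  have hB1 : ∀ a b : StrongDual ℝ X, ‖a‖ ≤ 1 → ‖b‖ ≤ 1 →
      |∑ x ∈ l.support, l x * (a x * b x)| ≤ 2 * ‖w‖ := by
    intro a b ha hb
    have h1 : ∑ x ∈ l.support, l x * (a x * b x) = 4⁻¹ * (Q (a + b) - Q (a - b)) := by
      simp only [hQ, ← Finset.sum_sub_distrib, Finset.mul_sum]
      apply Finset.sum_congr rfl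
      intro x _
      simp only [add_apply, sub_apply]
      ring
    have h2 := hQ2 (a + b) ((norm_add_le _ _).trans (by linarith))
    have h3 := hQ2 (a - b) ((norm_sub_le _ _).trans (by linarith))
    rw [h1, abs_mul, abs_of_nonneg (by norm_num : (0 : ℝ) ≤ 4⁻¹)]
    have h4 := abs_sub (Q (a + b)) (Q (a - b))
    linarith
  -- general functionals
  have hB2 : ∀ a b : StrongDual ℝ X,
      |∑ x ∈ l.support, l x * (a x * b x)| ≤ 2 * ‖w‖ * (‖a‖ * ‖b‖) := by
    intro a b
    rcases eq_or_ne a 0 with rfl | ha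
    · simp
    rcases eq_or_ne b 0 with rfl | hb
    · simp
    have ha' : 0 < ‖a‖ := norm_pos_iff.2 ha
    have hb' : 0 < ‖b‖ := norm_pos_iff.2 hb
    have h1 := hB1 (‖a‖⁻¹ • a) (‖b‖⁻¹ • b)
      (by rw [norm_smul, norm_inv, norm_norm, inv_mul_cancel₀ ha'.ne'])
      (by rw [norm_smul, norm_inv, norm_norm, inv_mul_cancel₀ hb'.ne'])
    have h2 : ∑ x ∈ l.support, l x * (a x * b x) = (‖a‖ * ‖b‖) *
        ∑ x ∈ l.support, l x * ((‖a‖⁻¹ • a) x * (‖b‖⁻¹ • b) x) := by
      rw [Finset.mul_sum]
      apply Finset.sum_congr rfl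
      intro x _
      simp only [smul_apply, smul_eq_mul]
      field_simp
    rw [h2, abs_mul, abs_of_nonneg (by positivity : 0 ≤ ‖a‖ * ‖b‖)]
    nlinarith [mul_pos ha' hb']
  -- extension of the restrictions to the span of `J`
  obtain ⟨A, hA1, hA2⟩ := exists_extension_norm_eq G ((toD γ - toD γ').comp G.subtypeL)
  obtain ⟨C, hC1, hC2⟩ := exists_extension_norm_eq G ((toD γ + toD γ').comp G.subtypeL)
  have hdiff : w γ - w γ' = ∑ x ∈ l.support, l x * (A x * C x) := by
    rw [hlw γ, hlw γ', ← Finset.sum_sub_distrib]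
    apply Finset.sum_congr rfl
    intro x hx
    have hxG : x ∈ G := Submodule.subset_span (hl hx)
    have e1 := hA1 ⟨x, hxG⟩
    have e2 := hC1 ⟨x, hxG⟩
    simp only [ContinuousLinearMap.comp_apply, Submodule.subtypeL_apply,
      sub_apply, add_apply] at e1 e2
    rw [e1, e2]
    ring
  have hCn : ‖C‖ ≤ 2 := by
    rw [hC2]
    refine (ContinuousLinearMap.opNorm_comp_le _ _).trans ?_
    have h1 : ‖toD γ + toD γ'‖ ≤ 2 :=
      (norm_add_le _ _).trans (by linarith [norm_toD_le γ, norm_toD_le γ'])
    have h2 : ‖G.subtypeL‖ ≤ 1 := Submodule.norm_subtypeL_le G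
    calc ‖toD γ + toD γ'‖ * ‖G.subtypeL‖ ≤ 2 * 1 :=
          mul_le_mul h1 h2 (norm_nonneg G.subtypeL) (by norm_num)
      _ = 2 := by norm_num
  rw [hdiff, ← hA2]
  refine (hB2 A C).trans ?_
  have h5 : ‖A‖ * ‖C‖ ≤ ‖A‖ * 2 := mul_le_mul_of_nonneg_left hCn (norm_nonneg _)
  have h6 : 0 ≤ 2 * ‖w‖ := by positivity
  calc 2 * ‖w‖ * (‖A‖ * ‖C‖) ≤ 2 * ‖w‖ * (‖A‖ * 2) := mul_le_mul_of_nonneg_left h5 h6
    _ = ‖w‖ * (4 * ‖A‖) := by ring

/-- Key estimate on the closed span. -/
theorem key_closure (J : Set X) (w : C(DBall X, ℝ))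
    (hw : w ∈ closure ((Submodule.span ℝ (sq '' J) : Submodule ℝ C(DBall X, ℝ)) :
      Set C(DBall X, ℝ))) (γ γ' : DBall X) :
    |w γ - w γ'| ≤ ‖w‖ * (4 * ‖(toD γ - toD γ').comp (Submodule.span ℝ J).subtypeL‖) := by
  set c := 4 * ‖(toD γ - toD γ').comp (Submodule.span ℝ J).subtypeL‖ with hc
  have hcl : IsClosed {w : C(DBall X, ℝ) | |w γ - w γ'| ≤ ‖w‖ * c} := by
    apply isClosed_le
    · exact ((continuous_eval_const γ).sub (continuous_eval_const γ')).abs
    · exact continuous_norm.mul continuous_const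
  exact closure_minimal (fun v hv => key_span J v hv γ γ') hcl hw

/-- **The symmetric injective square of an Asplund space is Asplund.** -/
theorem asplund_SqSpace (hX : Asplund X) : Asplund (SqSpace X) := by
  intro F hF
  have hFW : F ≤ F.topologicalClosure := F.le_topologicalClosure
  refine sep_dual_of_le hFW ?_
  set W : Submodule ℝ (SqSpace X) := F.topologicalClosure with hW
  have hWcl : IsClosed (W : Set (SqSpace X)) := Submodule.isClosed_topologicalClosure _
  have hWc : CompleteSpace W := hWcl.completeSpace_coe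
  have hWsep : IsSeparable (W : Set (SqSpace X)) := hF.closure
  -- a countable set of vectors generating `W`
  obtain ⟨J, hJc, hJ⟩ := exists_countable_index (sq (X := X))
    ((toC : SqSpace X → C(DBall X, ℝ)) '' (W : Set (SqSpace X)))
    (hWsep.image toC.continuous) (by
      rintro _ ⟨w, _, rfl⟩
      exact toC_mem w)
  set G : Submodule ℝ X := Submodule.span ℝ J with hG
  have hGd : SeparableSpace (G →L[ℝ] ℝ) := hX.dual_span J hJc.isSeparable
  -- evaluations
  set ev : DBall X → (W →L[ℝ] ℝ) := fun γ =>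
    LinearMap.mkContinuous
      { toFun := fun w : W => toC (w : SqSpace X) γ
        map_add' := fun w w' => by simp
        map_smul' := fun c w => by simp } 1 (fun w => by
          rw [one_mul]
          refine (ContinuousMap.norm_coe_le_norm (toC (w : SqSpace X)) γ).trans ?_
          rw [toC.norm_map]
          exact le_refl _) with hev
  have hev_apply : ∀ γ (w : W), ev γ w = toC (w : SqSpace X) γ := fun γ w => rfl
  have hsepev : IsSeparable (Set.range ev) := by
    apply isSeparable_range_of_dist_le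
      (fun γ : DBall X => ((toD γ).comp G.subtypeL : G →L[ℝ] ℝ)) ev 4
    · intro γ γ'
      have e1 : dist (ev γ) (ev γ') = ‖ev γ - ev γ'‖ := dist_eq_norm (ev γ) (ev γ')
      have e2 : dist ((toD γ).comp G.subtypeL) ((toD γ').comp G.subtypeL)
          = ‖(toD γ - toD γ').comp G.subtypeL‖ := by
        rw [ContinuousLinearMap.sub_comp]
        exact dist_eq_norm ((toD γ).comp G.subtypeL) ((toD γ').comp G.subtypeL)
      rw [e1, e2]
      refine ContinuousLinearMap.opNorm_le_bound _ (by positivity) fun w => ?_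
      have h1 := key_closure J (toC (w : SqSpace X)) (hJ ⟨w, w.2, rfl⟩) γ γ'
      rw [sub_apply, hev_apply, hev_apply, Real.norm_eq_abs]
      refine h1.trans (le_of_eq ?_)
      rw [mul_comm, toC.norm_map]
      rfl
    · exact IsSeparable.of_separableSpace _
  refine simons (Set.range ev ∪ Set.range (fun γ => -ev γ)) ?_ ?_ ?_
  · refine hsepev.union ?_
    have : Set.range (fun γ => -ev γ) = (fun φ : W →L[ℝ] ℝ => -φ) '' (Set.range ev) := by
      rw [← Set.range_comp]; rfl
    rw [this]
    exact hsepev.image continuous_neg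
  · have h1 : ∀ γ, ‖ev γ‖ ≤ 1 := fun γ => LinearMap.mkContinuous_norm_le _ (by norm_num) _
    rintro _ (⟨γ, rfl⟩ | ⟨γ, rfl⟩)
    · exact h1 γ
    · have h2 : ‖-ev γ‖ = ‖ev γ‖ := norm_neg (ev γ)
      exact h2.trans_le (h1 γ)
  · intro w
    have hne : (Set.univ : Set (DBall X)).Nonempty := ⟨ofD 0 (by simp), trivial⟩
    obtain ⟨γ, _, hγ⟩ := isCompact_univ.exists_isMaxOn hne
      (f := fun γ : DBall X => ‖toC (w : SqSpace X) γ‖)
      ((toC (w : SqSpace X)).continuous.norm.continuousOn)
    have hnorm : ‖w‖ = |toC (w : SqSpace X) γ| := by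
      rw [Submodule.coe_norm, ← toC.norm_map]
      apply le_antisymm
      · rw [ContinuousMap.norm_le _ (abs_nonneg _)]
        intro γ'
        exact hγ (Set.mem_univ γ')
      · exact ContinuousMap.norm_coe_le_norm (toC (w : SqSpace X)) γ
    rcases le_total 0 (toC (w : SqSpace X) γ) with h0 | h0
    · refine ⟨ev γ, Or.inl ⟨γ, rfl⟩, ?_⟩
      rw [hnorm, abs_of_nonneg h0, hev_apply]
    · refine ⟨-ev γ, Or.inr ⟨γ, rfl⟩, ?_⟩
      rw [hnorm, abs_of_nonpos h0, neg_apply, hev_apply]

/-- Generation passes to the symmetric square. -/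
theorem gen_SqSpace {κ : Cardinal.{u}} (hκ : Cardinal.aleph0 ≤ κ) (hX : Gen κ X) :
    Gen κ (SqSpace X) := by
  obtain ⟨D, hD, hd⟩ := hX
  refine ⟨Set.range (fun p : D × D => bil (p.1 : X) (p.2 : X)), ?_, ?_⟩
  · refine Cardinal.mk_range_le.trans ?_
    rw [Cardinal.mk_prod, Cardinal.lift_id]
    exact (mul_le_mul' hD hD).trans (Cardinal.mul_eq_self hκ).le
  · set P : Submodule ℝ (SqSpace X) :=
      (Submodule.span ℝ (Set.range (fun p : D × D => bil (p.1 : X) (p.2 : X)))).topologicalClosure
      with hP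
    have hPcl : IsClosed (P : Set (SqSpace X)) := Submodule.isClosed_topologicalClosure _
    have hPsub : Set.range (fun p : D × D => bil (p.1 : X) (p.2 : X)) ⊆ P :=
      Submodule.subset_span.trans (Submodule.le_topologicalClosure _)
    -- one variable at a time
    have h1 : ∀ d : D, ∀ y : X, bil (d : X) y ∈ P := by
      intro d y
      have h2 : Submodule.span ℝ D ≤
          P.comap ((bil (d : X) : X →L[ℝ] SqSpace X) : X →ₗ[ℝ] SqSpace X) := by
        rw [Submodule.span_le]
        intro d' hd'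
        exact hPsub ⟨(d, ⟨d', hd'⟩), rfl⟩
      have h3 : closure (Submodule.span ℝ D : Set X) ⊆ {y | bil (d : X) y ∈ P} :=
        closure_minimal (fun z hz => h2 hz) (hPcl.preimage (bil (d : X)).continuous)
      exact h3 (hd y)
    have h4 : ∀ x y : X, bil x y ∈ P := by
      intro x y
      have h2 : Submodule.span ℝ D ≤
          P.comap (((bil (X := X)).flip y : X →L[ℝ] SqSpace X) : X →ₗ[ℝ] SqSpace X) := by
        rw [Submodule.span_le]
        intro d' hd'
        exact h1 ⟨d', hd'⟩ y
      have h3 : closure (Submodule.span ℝ D : Set X) ⊆ {x | (bil (X := X)).flip y x ∈ P} :=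
        closure_minimal (fun z hz => h2 hz) (hPcl.preimage ((bil (X := X)).flip y).continuous)
      exact h3 (hd x)
    intro z
    change z ∈ (P : Set (SqSpace X))
    -- transfer to the ambient space
    set P' : Submodule ℝ C(DBall X, ℝ) :=
      P.map ((toC (X := X)).toLinearMap) with hP'
    have hP'cl : IsClosed (P' : Set C(DBall X, ℝ)) := by
      have := (isClosedEmbedding_toC (X := X)).isClosedMap _ hPcl
      exact this
    have h5 : SqSub X ≤ P' := by
      refine Submodule.topologicalClosure_minimal _ ?_ hP'cl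
      rw [Submodule.span_le]
      rintro _ ⟨x, rfl⟩
      exact ⟨Phi x, h4 x x, rfl⟩
    obtain ⟨z', hz', hzz⟩ := h5 (toC_mem z)
    have : z' = z := toC.injective hzz
    rw [← this]
    exact hz'

end

end Pool.C1B
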